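import Pool.Agent.H69.AMM.Abs

set_option autoImplicit false

/-! # The spectral criterion for pure braids compressed by idempotents -/

namespace Pool.Agent.H69.AMU

open FusionPath Matrix Polynomial Filter Topology Pool.Agent.H61.AMU

section
variable {N c : ℕ} {P : ℂ → Matrix (FusionPath N c N) (FusionPath N c N) ℂ} {γ : BraidGroup N}

/-- The trace of the `m`-th power of `γ` on the image of `P`. -/
noncomputable def ctrace (P : ℂ → Matrix (FusionPath N c N) (FusionPath N c N) ℂ)
    (γ : BraidGroup N) (A : ℂ) (hA : Admissible N N A) (m : ℕ) : ℂ :=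
  trace ((braidRep N c N A hA γ).val ^ m * P A)

lemma GoodIdem.trace_pow (H : GoodIdem N c P γ) (A : ℂ) (hA : Admissible N N A) (m : ℕ) :
    trace (compr P γ A hA ^ m) = ctrace P γ A hA m
      + (Fintype.card (FusionPath N c N) - trace (P A)) := by
  rw [H.compr_pow, trace_add, trace_sub, trace_one, ctrace]

lemma GoodIdem.pow_mul_idem (H : GoodIdem N c P γ) (A : ℂ) (hA : Admissible N N A) (m : ℕ) :
    trace (compr P γ A hA ^ m * P A) = ctrace P γ A hA m := by
  rw [H.compr_pow, add_mul, sub_mul, one_mul, H.idem A hA, sub_self, add_zero, Matrix.mul_assoc,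
    H.idem A hA]
  rfl

lemma GoodIdem.trace_const (H : GoodIdem N c P γ) :
    ∃ d : ℕ, d ≤ Fintype.card (FusionPath N c N) ∧ ∀ z, Admissible N N z → trace (P z) = d := by
  have hreg := H.reg
  choose f hf hf' using hreg
  have h1 : Reg N (fun z => ∑ p, f p p z) := Reg.sum _ _ fun p _ => hf p p
  have h2 : ∀ z, Admissible N N z → (∑ p, f p p z) = trace (P z) := by
    intro z hz
    unfold Matrix.trace
    exact Finset.sum_congr rfl fun p _ => hf' p p z hz
  obtain ⟨d, hd, hd'⟩ := reg_const h1 (Fintype.card (FusionPath N c N)) (by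
    intro z hz
    obtain ⟨d, hd, hd'⟩ := trace_idem _ (H.idem z hz)
    exact ⟨d, hd, by rw [h2 z hz, hd']⟩)
  exact ⟨d, hd, fun z hz => by rw [← h2 z hz]; exact hd' z hz⟩

/-- Finite order at infinitely many levels forces the generic spectrum. -/
theorem GoodIdem.exists_multiset (H : GoodIdem N c P γ) (R : Set ℕ) (hR : R.Infinite)
    (hfin : ∀ r ∈ R, 0 < r ∧ ∃ A : ℂ, IsPrimitiveRoot (A ^ 4) r ∧
      ∃ h : Admissible N N A, ∃ m : ℕ, m ≠ 0 ∧ compr P γ A h ^ m = 1) :
    ∃ μ : Multiset ℤ, ∀ (A : ℂ) (hA : Admissible N N A) (m : ℕ),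
      ctrace P γ A hA m = (μ.map fun h => A ^ ((m : ℤ) * h)).sum := by
  classical
  rcases isEmpty_or_nonempty (FusionPath N c N) with hempty | hne
  · refine ⟨0, fun A hA m => ?_⟩
    simp [ctrace, Matrix.trace]
  have hrigid := H.rigidity R hR hfin
  obtain ⟨F, hF, hF', hdet, hE1, hM1⟩ := H.family
  choose! hpos f hf1 hf2 mm hmm hmm' using hfin
  have hS : ((fun r => orderOf (f r)) '' R).Infinite := by
    intro hfinite
    apply hR
    obtain ⟨B, hB⟩ := hfinite.bddAbove
    apply (Set.finite_Iic B).subset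
    intro r' hr'
    have h1 := pos_of_isPrimitiveRoot_of_pow (hpos r' hr') (hf1 r' hr')
    have h2 : r' ≤ orderOf (f r') := Nat.le_of_dvd h1.1 h1.2
    exact h2.trans (hB ⟨r', hr', rfl⟩)
  have hfinF : ∀ D ∈ ((fun r => orderOf (f r)) '' R), ∃ ζ : ℂ, IsPrimitiveRoot ζ D ∧
      aeval ζ F.E ≠ 0 ∧ F.FiniteAt ζ := by
    rintro _ ⟨r', hr', rfl⟩
    have hadm := hf2 r' hr'
    refine ⟨f r', IsPrimitiveRoot.orderOf _, (hF _ hadm.1).2 hadm, mm r', hmm r' hr', 1, ?_⟩
    rw [hF' _ hadm, hmm' r' hr', one_smul]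
  obtain ⟨Q, hQ, hQ2⟩ := F.exists_quotients _ hS hdet hfinF
  obtain ⟨d, hd, hdP⟩ := H.trace_const
  set D := Fintype.card (FusionPath N c N) with hD
  set K := (Q 1).natDegree + F.a with hKdef
  let e : ℕ → ℤ := fun i => (Q 1).coeff i - if i = F.a then ((D : ℤ) - d) else 0
  have hT : ∀ (z : ℂ) (h : Admissible N N z) (m : ℕ),
      ctrace P γ z h m = ∑ i ∈ Finset.range (K + 1), (e i : ℂ) * z ^ ((m : ℤ) * ((i : ℤ) - F.a)) := by
    intro z h m
    have h1 := trace_pow_generic hE1 hM1 hQ hQ2 h.1 ((hF z h.1).2 h) m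
    rw [hF' z h, H.trace_pow, hdP z h] at h1
    have h2 : ∑ i ∈ Finset.range ((Q 1).natDegree + 1), ((Q 1).coeff i : ℂ) * (z ^ m) ^ ((i : ℤ) - F.a)
        = ∑ i ∈ Finset.range (K + 1), ((Q 1).coeff i : ℂ) * (z ^ m) ^ ((i : ℤ) - F.a) := by
      apply Finset.sum_subset
      · intro x hx
        rw [Finset.mem_range] at hx ⊢
        omega
      · intro x _ hx
        rw [Finset.mem_range, not_lt] at hx
        rw [Polynomial.coeff_eq_zero_of_natDegree_lt (by omega)]
        simp
    have h3 : ∑ i ∈ Finset.range (K + 1), (e i : ℂ) * z ^ ((m : ℤ) * ((i : ℤ) - F.a))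
        = ∑ i ∈ Finset.range (K + 1), ((Q 1).coeff i : ℂ) * (z ^ m) ^ ((i : ℤ) - F.a)
          - ((D : ℂ) - d) := by
      have h4 : ∀ i ∈ Finset.range (K + 1), (e i : ℂ) * z ^ ((m : ℤ) * ((i : ℤ) - F.a))
          = ((Q 1).coeff i : ℂ) * (z ^ m) ^ ((i : ℤ) - F.a)
            - (if i = F.a then ((D : ℂ) - d) else 0) := by
        intro i _
        have h5 : z ^ ((m : ℤ) * ((i : ℤ) - F.a)) = (z ^ m) ^ ((i : ℤ) - F.a) := by
          rw [← zpow_natCast, ← _root_.zpow_mul]
        rw [h5]
        by_cases hia : i = F.a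
        · subst hia
          simp only [e, if_true, sub_self, zpow_zero, mul_one]
          push_cast
          ring
        · simp only [e, if_neg hia, sub_zero]
      rw [Finset.sum_congr rfl h4, Finset.sum_sub_distrib, Finset.sum_ite_eq',
        if_pos (Finset.mem_range.2 (by omega))]
    rw [h3, ← h2, ← h1]
    ring
  -- positivity
  have hnn : ∀ i0 ∈ Finset.range (K + 1), ∃ ν : ℕ, (e i0 : ℂ) = ν := by
    intro i0 hi0
    rw [Finset.mem_range] at hi0
    -- a large level
    set r := N + 2 + K + 1 with hr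
    have hr0 : r ≠ 0 := by omega
    set A : ℂ := Complex.exp (2 * Real.pi * Complex.I / ((4 * r : ℕ) : ℂ)) with hA
    have hAprim : IsPrimitiveRoot A (4 * r) := Complex.isPrimitiveRoot_exp (4 * r) (by omega)
    have hA4 : IsPrimitiveRoot (A ^ 4) r := hAprim.pow (by omega) (by ring)
    have hadm : Admissible N N A := admissible_of_primitive' (by omega) hA4
    have hord : orderOf A = 4 * r := hAprim.eq_orderOf.symm
    have hone := hrigid r (by omega) A hA4 hadm
    rw [hord] at hone
    have hPP : P A * P A = P A := H.idem A hadm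
    have hMP : compr P γ A hadm * P A = P A * compr P γ A hadm := by
      have h1 := H.comm A hadm
      rw [compr, add_mul, sub_mul, one_mul, hPP, sub_self, add_zero, mul_add, mul_sub,
        mul_one, hPP, sub_self, add_zero, ← Matrix.mul_assoc, ← h1, Matrix.mul_assoc, hPP]
    set M := compr P γ A hadm with hM
    set x : ℂ := A ^ (-((i0 : ℤ) - F.a)) with hx
    have hx1 : ∀ l : ℤ, (A ^ l) ^ (4 * r) = 1 := by
      intro l
      have e1 : (A ^ l) ^ (4 * r) = (A ^ (4 * r)) ^ l := by
        rw [← zpow_natCast (A ^ l), ← _root_.zpow_mul, mul_comm l, _root_.zpow_mul, zpow_natCast]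
      rw [e1, hAprim.pow_eq_one, _root_.one_zpow]
    have hX : (x • M) ^ (4 * r) = 1 := by
      rw [_root_.smul_pow, hone, hx, hx1, one_smul]
    have hXP : (x • M) * P A = P A * (x • M) := by
      rw [Matrix.smul_mul, Matrix.mul_smul, hMP]
    have hidem := average_idem (x • M) (P A) (4 * r) (by omega) hX hPP hXP
    obtain ⟨ν, _, hν⟩ := trace_idem _ hidem
    refine ⟨ν, ?_⟩
    rw [← hν]
    -- compute the trace
    have h1 : trace ((((4 * r : ℕ) : ℂ)⁻¹ • ∑ j ∈ Finset.range (4 * r), (x • M) ^ j) * P A)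
        = ((4 * r : ℕ) : ℂ)⁻¹ * ∑ j ∈ Finset.range (4 * r), x ^ j * ctrace P γ A hadm j := by
      rw [Matrix.smul_mul, trace_smul, smul_eq_mul, Finset.sum_mul, trace_sum]
      congr 1
      apply Finset.sum_congr rfl
      intro j _
      rw [_root_.smul_pow, Matrix.smul_mul, trace_smul, smul_eq_mul, hM, H.pow_mul_idem]
    rw [h1]
    have h2 : ∀ j ∈ Finset.range (4 * r), x ^ j * ctrace P γ A hadm j
        = ∑ i ∈ Finset.range (K + 1), (e i : ℂ) * (A ^ ((i : ℤ) - i0)) ^ j := by
      intro j _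
      rw [hT A hadm j, Finset.mul_sum]
      apply Finset.sum_congr rfl
      intro i _
      have h3 : (A ^ ((i : ℤ) - i0)) ^ j = x ^ j * A ^ ((j : ℤ) * ((i : ℤ) - F.a)) := by
        rw [hx, ← zpow_natCast, ← zpow_natCast, ← _root_.zpow_mul, ← _root_.zpow_mul,
          ← zpow_add₀ hadm.1]
        congr 1
        ring
      rw [h3]
      ring
    rw [Finset.sum_congr rfl h2, Finset.sum_comm, Finset.mul_sum]
    have h4 : ∀ i ∈ Finset.range (K + 1), ((4 * r : ℕ) : ℂ)⁻¹ *
        ∑ j ∈ Finset.range (4 * r), (e i : ℂ) * (A ^ ((i : ℤ) - i0)) ^ j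
        = (e i : ℂ) * (if i = i0 then 1 else 0) := by
      intro i hi
      rw [Finset.mem_range] at hi
      rw [← Finset.mul_sum]
      have h5 := average_zpow (by omega : 0 < 4 * r) hAprim ((i : ℤ) - i0) (by
        rw [abs_lt]
        constructor <;> push_cast <;> omega)
      have h6 : (((i : ℤ) - i0 = 0) = (i = i0)) := by
        apply propext
        constructor
        · intro h; omega
        · intro h; omega
      simp only [h6] at h5
      rw [← h5]
      ring
    rw [Finset.sum_congr rfl h4]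
    simp only [mul_ite, mul_one, mul_zero]
    rw [Finset.sum_ite_eq', if_pos (Finset.mem_range.2 hi0)]
  choose! ν hν using hnn
  refine ⟨∑ i ∈ Finset.range (K + 1), Multiset.replicate (ν i) ((i : ℤ) - F.a), ?_⟩
  intro A hA m
  rw [multiset_sum_replicate, hT A hA m]
  apply Finset.sum_congr rfl
  intro i hi
  rw [hν i hi]

/-- The generic spectrum forces finite order at every level. -/
theorem GoodIdem.finite_of_multiset (H : GoodIdem N c P γ) (μ : Multiset ℤ)
    (hμ : ∀ (A : ℂ) (hA : Admissible N N A) (m : ℕ),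
      ctrace P γ A hA m = (μ.map fun h => A ^ ((m : ℤ) * h)).sum)
    (r : ℕ) (hr : N + 2 ≤ r) (A : ℂ) (hA : IsPrimitiveRoot (A ^ 4) r)
    (h : Admissible N N A) : compr P γ A h ^ orderOf A = 1 := by
  have hr0 : 0 < r := by omega
  obtain ⟨z, hz, hz4⟩ := exists_conjugate hr0 hA
  have hz4' : IsPrimitiveRoot (z ^ 4) r := by
    rw [hz4]
    exact Complex.isPrimitiveRoot_exp r hr0.ne'
  have hadm := admissible_of_primitive' hr hz4'
  have hordpos := (pos_of_isPrimitiveRoot_of_pow hr0 hA).1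
  have h0 := hμ z hadm 0
  have h1 := hμ z hadm (orderOf A)
  have e0 : (μ.map fun h => z ^ (((0 : ℕ) : ℤ) * h)).sum = Multiset.card μ := by
    simp
  have e1 : (μ.map fun h => z ^ (((orderOf A : ℕ) : ℤ) * h)).sum = Multiset.card μ := by
    have e2 : ∀ h : ℤ, z ^ (((orderOf A : ℕ) : ℤ) * h) = 1 := by
      intro h
      rw [_root_.zpow_mul, zpow_natCast, hz.pow_eq_one, _root_.one_zpow]
    simp [e2]
  have htr : (compr P (γ ^ orderOf A) z hadm).trace = Fintype.card (FusionPath N c N) := by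
    have h2 := H.trace_pow z hadm (orderOf A)
    have h3 := H.trace_pow z hadm 0
    rw [h1, e1] at h2
    rw [h0, e0, pow_zero, trace_one] at h3
    rw [← H.compr_pow', h2, ← h3]
  have hone := (H.pow (orderOf A)).eq_one_of_trace r hr z hz4 hadm htr
  rw [H.compr_pow']
  exact (H.pow (orderOf A)).transport _ hordpos z A hz (IsPrimitiveRoot.orderOf A) hadm h hone

end

end Pool.Agent.H69.AMU
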