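import Pool.Agent.H69.AMM.Idem
import Pool.Agent.H69.AMM.Crit

set_option autoImplicit false

/-! # The quantum representations with arbitrary colours -/

namespace Pool.Agent.H69.AMU

open FusionPath Matrix Polynomial Filter Topology

section
variable {n N c L : ℕ} {A : ℂ}

lemma regMat_mixProj (k : Fin n → ℕ) (hk : ∀ a, k a ≤ N + 1) (i : ℕ) :
    RegMat N c (fun z _ => mixProj (cupcap N c N z) z k i) := by
  induction i with
  | zero => exact RegMat.one
  | succ i ih =>
    by_cases h : i < n
    · refine RegMat.congr (RegMat.mul ih (regMat_jonesWenzl (offset k i) (k ⟨i, h⟩) (hk _))) ?_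
      intro z hz
      exact (mixProj_succ k h).symm
    · refine RegMat.congr (RegMat.mul ih RegMat.one) ?_
      intro z hz
      rw [mixProj, dif_neg h]

lemma regMat_mixIdem (k : ColVec n N) : RegMat N c (fun z _ => mixIdem k c N z) :=
  regMat_mixProj k.1 (fun a => (k.le a).trans (Nat.le_succ _)) n

lemma mixIdem_form {z : ℂ} (hz : ‖z‖ = 1) (hA : Admissible N L z) (k : ColVec n N) :
    (mixIdem k c L z)ᴴ * formMat N c L z = formMat N c L z * mixIdem k c L z := by
  have key : ∀ i, i ≤ n → (mixProj (cupcap N c L z) z k.1 i)ᴴ * formMat N c L z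
      = formMat N c L z * mixProj (cupcap N c L z) z k.1 i := by
    intro i
    induction i with
    | zero => intro _; simp [mixProj]
    | succ i ih =>
      intro hi
      have h0 := offset_succ k.1 (by omega : i < n)
      have h1 := offset_le k.1 (i + 1)
      have h1' := k.2
      have h2 := jonesWenzl_form (c := c) hz hA (offset k.1 i) (k.1 ⟨i, by omega⟩) (by omega)
      have h3 := mixProj_comm_jonesWenzl (tlSeq_cupcap (c := c) hA) k.1 i (by omega)
        (offset k.1 i) (k.1 ⟨i, by omega⟩) le_rfl (by omega)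
      rw [mixProj_succ k.1 (by omega : i < n), conjTranspose_mul, Matrix.mul_assoc, ih (by omega),
        ← Matrix.mul_assoc, h2, Matrix.mul_assoc, ← h3]
  exact key n le_rfl

lemma liftAlg_mixIdem (h : N ≤ L) (A : ℂ) (k : ColVec n N) :
    liftAlg N c L h (mixIdem k c L A) = mixIdem k c N A := by
  have h1 := map_mixProj (u := cupcap N c L A) (A := A) (liftAlg N c L h).toAlgHom
    (fun m j => map_jonesWenzl _ _ _ _ _) k.1 n
  have h2 : (fun i => (liftAlg N c L h).toAlgHom (cupcap N c L A i)) = cupcap N c N A := by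
    funext i
    exact liftAlg_cupcap h A i
  rw [h2] at h1
  exact h1

/-- The idempotents and the cable of a pure braid form a good pair. -/
lemma goodIdem_mix (k : ColVec n N) (c : ℕ) {β : BraidGroup n} (hβ : β ∈ pureBraid n) :
    GoodIdem N c (fun z => mixIdem k c N z) (cabled k β) :=
  { reg := regMat_mixIdem k
    idem := fun z hz => mixIdem_idem k hz (fun a => (k.le a).trans (Nat.le_succ _))
    form := fun z hz hA => mixIdem_form hz hA k
    comm := fun z hz => braidRep_cabled_comm_pure hz hβ k
    pure := cabled_pure k hβ }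

/-- The space `V_r(S^2; k 0, ..., k (n-1), c)` of the sphere with `n` points coloured
`k 0, ..., k (n-1)` and one point coloured `c` at level `r`: the image of the Jones-Wenzl
idempotents in the space with `N = k 0 + ... + k (n-1)` points coloured `1`. -/
noncomputable def mixedSpace (k : ColVec n N) (c r : ℕ) (A : ℂ) :
    Submodule ℂ (FusionPath N c (r - 2) → ℂ) :=
  LinearMap.range (Matrix.mulVecLin (mixIdem k c (r - 2) A))

/-- The quantum representation at level `r` of the pure braid group with arbitrary colours, for the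
Kauffman variable `A` with `A ^ 4` a primitive `r`-th root of unity: a pure braid on `n` strands
acts on `V_r(S^2; k 0, ..., k (n-1), c)` by replacing the `j`-th strand by `k j` parallel strands. -/
noncomputable def mixedRep (k : ColVec n N) (c r : ℕ) (hr : 2 ≤ r) (A : ℂ)
    (hA : IsPrimitiveRoot (A ^ 4) r) : pureBraid n →* GL (FusionPath N c (r - 2)) ℂ :=
  (levelRep N c r hr A hA).comp (pureCable k)

/-- The coloured space is invariant. -/
lemma mixedRep_mem (k : ColVec n N) (c : ℕ) {r : ℕ} (hr : 2 ≤ r) {A : ℂ}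
    (hA : IsPrimitiveRoot (A ^ 4) r) (β : pureBraid n) (v : FusionPath N c (r - 2) → ℂ)
    (hv : v ∈ mixedSpace k c r A) :
    (mixedRep k c r hr A hA β).val *ᵥ v ∈ mixedSpace k c r A := by
  obtain ⟨w, rfl⟩ := hv
  refine ⟨(mixedRep k c r hr A hA β).val *ᵥ w, ?_⟩
  have h : (mixedRep k c r hr A hA β).val * mixIdem k c (r - 2) A
      = mixIdem k c (r - 2) A * (mixedRep k c r hr A hA β).val :=
    braidRep_cabled_comm_pure (c := c) (admissible_of_primitive N r hr A hA) β.2 k
  simp only [Matrix.mulVecLin_apply, Matrix.mulVec_mulVec]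
  rw [← h]

/-- Scalar action on the coloured space in terms of matrices. -/
lemma mixed_scalar_iff (k : ColVec n N) {c r : ℕ} {A : ℂ}
    (M : Matrix (FusionPath N c (r - 2)) (FusionPath N c (r - 2)) ℂ) (a : ℂ) :
    (∀ v ∈ mixedSpace k c r A, M *ᵥ v = a • v) ↔
      M * mixIdem k c (r - 2) A = a • mixIdem k c (r - 2) A := by
  constructor
  · intro h
    apply Matrix.ext_of_mulVec_single
    intro i
    have h1 := h ((mixIdem k c (r - 2) A) *ᵥ Pi.single i 1) ⟨Pi.single i 1, rfl⟩
    rw [← Matrix.mulVec_mulVec, h1, Matrix.smul_mulVec]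
  · rintro h _ ⟨w, rfl⟩
    simp only [Matrix.mulVecLin_apply]
    rw [Matrix.mulVec_mulVec, h, Matrix.smul_mulVec]

/-- `β` has infinite projective order on `V_r(S^2; k, c)` for all sufficiently large levels `r`
and all Kauffman variables `A` of level `r`. -/
def EventuallyInfinite (k : ColVec n N) (c : ℕ) (β : pureBraid n) : Prop :=
  ∃ r₀ : ℕ, ∀ (r : ℕ) (hr : 2 ≤ r) (A : ℂ) (hA : IsPrimitiveRoot (A ^ 4) r), r₀ ≤ r →
    ∀ m : ℕ, 0 < m → ∀ a : ℂ, ∃ v ∈ mixedSpace k c r A,
      (mixedRep k c r hr A hA β).val ^ m *ᵥ v ≠ a • v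

/-- Scalar action at level `r` in terms of the generic matrices. -/
lemma mixed_scalar_lift (k : ColVec n N) (c : ℕ) {r : ℕ} (hr : 2 ≤ r) (hr' : N + 2 ≤ r) {A : ℂ}
    (hA : IsPrimitiveRoot (A ^ 4) r) (h : Admissible N N A) (β : pureBraid n) (m : ℕ) (a : ℂ) :
    (∀ v ∈ mixedSpace k c r A, (mixedRep k c r hr A hA β).val ^ m *ᵥ v = a • v) ↔
      (braidRep N c N A h (cabled k (β : BraidGroup n))).val ^ m * mixIdem k c N A
        = a • mixIdem k c N A := by
  have hL : N ≤ r - 2 := by omega
  have hadm := admissible_of_primitive N r hr A hA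
  have e1 := liftAlg_mixIdem (c := c) hL A k
  have e2 := liftAlg_braidRep (c := c) hL hadm (cabled k (β : BraidGroup n))
  rw [mixed_scalar_iff]
  have e3 : (mixedRep k c r hr A hA β).val
      = (braidRep N c (r - 2) A hadm (cabled k (β : BraidGroup n))).val := rfl
  rw [e3]
  constructor
  · intro h1
    have h2 := congrArg (liftAlg N c (r - 2) hL) h1
    rw [map_mul, map_pow, map_smul, e1, e2] at h2
    exact h2
  · intro h1
    apply (liftAlg N c (r - 2) hL).injective
    rw [map_mul, map_pow, map_smul, e1, e2]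
    exact h1

/-- **Criterion.** If a pure braid does not have infinite projective order at all large levels on
`V_r(S^2; k, c)`, then the traces of its powers on the generic coloured space are sums of powers of
the Kauffman variable, with exponents linear in the power. -/
theorem mixed_criterion (k : ColVec n N) (c : ℕ) (β : pureBraid n)
    (hcase : ¬ EventuallyInfinite k c β) :
    ∃ μ : Multiset ℤ, ∀ (A : ℂ) (hA : Admissible N N A) (m : ℕ),
      trace ((braidRep N c N A hA (cabled k (β : BraidGroup n))).val ^ m * mixIdem k c N A)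
        = (μ.map fun h => A ^ ((m : ℤ) * h)).sum := by
  have H := goodIdem_mix k c β.2
  unfold EventuallyInfinite at hcase
  push Not at hcase
  let R : Set ℕ := {r | N + 2 ≤ r ∧ ∃ A : ℂ, IsPrimitiveRoot (A ^ 4) r ∧
      ∃ h : Admissible N N A, ∃ m : ℕ, m ≠ 0 ∧
        compr (fun z => mixIdem k c N z) (cabled k (β : BraidGroup n)) A h ^ m = 1}
  have hR : R.Infinite := by
    apply Set.infinite_of_not_bddAbove
    rintro ⟨B, hB⟩
    obtain ⟨r, hr, A, hA, hrB, m, hm, a, ha⟩ := hcase (B + N + 3)
    have hadm := admissible_of_primitive' (by omega : N + 2 ≤ r) hA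
    have h1 := (mixed_scalar_lift k c hr (by omega) hA hadm β m a).1 ha
    obtain ⟨t, ht, ht'⟩ := H.finite_of_scalar r (by omega) A hA hadm m hm a h1
    have hrR : r ∈ R := ⟨by omega, A, hA, hadm, t, ht, ht'⟩
    have := hB hrR
    omega
  exact H.exists_multiset R hR (fun r hr => ⟨by have := hr.1; omega, hr.2⟩)

/-- The converse of the criterion. -/
theorem mixed_criterion_conv (k : ColVec n N) (c : ℕ) (β : pureBraid n) (μ : Multiset ℤ)
    (hμ : ∀ (A : ℂ) (hA : Admissible N N A) (m : ℕ),
      trace ((braidRep N c N A hA (cabled k (β : BraidGroup n))).val ^ m * mixIdem k c N A)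
        = (μ.map fun h => A ^ ((m : ℤ) * h)).sum) : ¬ EventuallyInfinite k c β := by
  have H := goodIdem_mix k c β.2
  rintro ⟨r₀, hr₀⟩
  set r := r₀ + N + 2 with hr
  have hAprim : IsPrimitiveRoot (Complex.exp (2 * Real.pi * Complex.I / ((4 * r : ℕ) : ℂ))) (4 * r) :=
    Complex.isPrimitiveRoot_exp (4 * r) (by omega)
  set A : ℂ := Complex.exp (2 * Real.pi * Complex.I / ((4 * r : ℕ) : ℂ)) with hA
  have hA4 : IsPrimitiveRoot (A ^ 4) r := hAprim.pow (by omega) (by ring)
  have hadm : Admissible N N A := admissible_of_primitive' (by omega) hA4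
  have hordpos := (pos_of_isPrimitiveRoot_of_pow (by omega : 0 < r) hA4).1
  have h1 := H.finite_of_multiset μ hμ r (by omega) A hA4 hadm
  obtain ⟨v, hv, hv'⟩ := hr₀ r (by omega) A hA4 (by omega) (orderOf A) hordpos 1
  apply hv'
  refine (mixed_scalar_lift k c (by omega) (by omega) hA4 hadm β (orderOf A) 1).2 ?_ v hv
  rw [H.compr_pow] at h1
  have h2 := eq_sub_of_add_eq h1
  rw [h2, one_smul]
  abel

end

end Pool.Agent.H69.AMU
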