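import Pool.Agent.H69.AMM.Word
import Pool.Agent.H70.KR.New

set_option autoImplicit false

/-! # Assembly: quantum finite pure braids are reducible -/

namespace Pool.Agent.H69.AMU

open Pool.Agent.H70.KR LaurentPolynomial

variable {n : ℕ}

/-- Quantum finite pure braids whose traces in Krammer's representation are monomial are
reducible. -/
theorem reducible_of_out2 (hn : 3 ≤ n) (R : KRep n)
    (rho1 : BraidGroup n →* (Matrix (Pr n) (Pr n) (LaurentPolynomial ℝ))ˣ) (h1 : IsKr n tU 1 rho1)
    (b : pureBraid n) (hfin : QFinite b) {E : Multiset (ℤ × ℤ)}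
    (hE : Out2 n (b : BraidGroup n) E) : Reducible (b : BraidGroup n) := by
  obtain ⟨a, μ, w, hw, heq, _, hc⟩ := positive_conj (by omega) R rho1 h1 b.2 hE
  exact reducible_of_positive hn b hfin a μ hw heq hc

/-- The constant colour vector. -/
def constCol (n k : ℕ) : ColVec n (n * k) := ⟨fun _ => k, by simp⟩

/-- A pure braid is quantum finite for constant colours if for all even `k > 0` it does not have
infinite projective order on `V_r(S^2; k, ..., k, n k - 4)` for all sufficiently large levels. -/
def QFinite2 (b : pureBraid n) : Prop :=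
  ∀ k : ℕ, 0 < k → Even k → ¬ EventuallyInfinite (constCol n k) (n * k - 4) b

/-- **Assembly.** A pure braid with at least three strands which does not fix an essential curve
has infinite projective order at all large levels for some even colours, once OUT2 is known. -/
theorem exists_colours (hn : 3 ≤ n) (R : KRep n)
    (rho1 : BraidGroup n →* (Matrix (Pr n) (Pr n) (LaurentPolynomial ℝ))ˣ) (h1 : IsKr n tU 1 rho1)
    (hout2 : ∀ b : pureBraid n, QFinite2 b → ∃ E : Multiset (ℤ × ℤ), Out2 n (b : BraidGroup n) E)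
    (b : pureBraid n) (hb : ¬ Reducible (b : BraidGroup n)) :
    ∃ (N : ℕ) (k : ColVec n N) (c : ℕ), (∀ i, 0 < k.1 i ∧ Even (k.1 i)) ∧ Even c ∧
      (c + 2 = N ∨ c + 4 = N) ∧ EventuallyInfinite k c b := by
  classical
  by_contra hcon
  push Not at hcon
  have heven : ∀ (N : ℕ) (k : ColVec n N), (∀ i, 0 < k.1 i ∧ Even (k.1 i)) → Even N := by
    intro N k hk
    rw [← k.2]
    exact Finset.even_sum _ fun i _ => (hk i).2
  have hlarge : ∀ (N : ℕ) (k : ColVec n N), (∀ i, 0 < k.1 i ∧ Even (k.1 i)) → 6 ≤ N := by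
    intro N k hk
    have h2 : ∀ i ∈ (Finset.univ : Finset (Fin n)), 2 ≤ k.1 i := by
      intro i _
      obtain ⟨q, hq⟩ := (hk i).2
      have := (hk i).1
      omega
    have h3 := Finset.card_nsmul_le_sum Finset.univ k.1 2 h2
    rw [k.2, Finset.card_univ, Fintype.card_fin, smul_eq_mul] at h3
    omega
  have hfin : QFinite b := by
    intro N k hk
    obtain ⟨q, hq⟩ := heven N k hk
    have h6 := hlarge N k hk
    exact hcon N k (N - 2) hk ⟨q - 1, by omega⟩ (Or.inl (by omega))
  have hfin2 : QFinite2 b := by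
    intro k hk hke
    obtain ⟨q, hq⟩ := hke
    have h6 := hlarge (n * k) (constCol n k) (fun i => ⟨hk, q, hq⟩)
    refine hcon (n * k) (constCol n k) (n * k - 4) (fun i => ⟨hk, q, hq⟩) ⟨n * q - 2, ?_⟩
      (Or.inr (by omega))
    have e : n * k = n * q + n * q := by rw [hq]; ring
    omega
  obtain ⟨E, hE⟩ := hout2 b hfin2
  exact hb (reducible_of_out2 hn R rho1 h1 b hfin hE)

end Pool.Agent.H69.AMU
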