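import Pool.Agent.H69.AMU.OneLevel
import Pool.Agent.H61.AMU.Spectrum

set_option autoImplicit false

/-! # Pure braids compressed by a regular family of idempotents -/

namespace Pool.Agent.H69.AMU

open FusionPath Matrix Polynomial Filter Topology

/-- A regular family of self-adjoint idempotents on the space of fusion paths commuting with the
pure braid `γ`. -/
structure GoodIdem (N c : ℕ) (P : ℂ → Matrix (FusionPath N c N) (FusionPath N c N) ℂ)
    (γ : BraidGroup N) : Prop where
  reg : RegMat N c (fun z _ => P z)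
  idem : ∀ z, Admissible N N z → P z * P z = P z
  form : ∀ z, ‖z‖ = 1 → Admissible N N z → (P z)ᴴ * formMat N c N z = formMat N c N z * P z
  comm : ∀ z (h : Admissible N N z),
    (braidRep N c N z h γ).val * P z = P z * (braidRep N c N z h γ).val
  pure : γ ∈ pureBraid N

/-- The action of `γ` on the image of `P`, extended by the identity on the kernel of `P`. -/
noncomputable def compr {N c : ℕ} (P : ℂ → Matrix (FusionPath N c N) (FusionPath N c N) ℂ)
    (γ : BraidGroup N) (z : ℂ) (h : Admissible N N z) :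
    Matrix (FusionPath N c N) (FusionPath N c N) ℂ :=
  (braidRep N c N z h γ).val * P z + (1 - P z)

section
variable {N c : ℕ} {P : ℂ → Matrix (FusionPath N c N) (FusionPath N c N) ℂ} {γ : BraidGroup N}

lemma comm_inv_of_comm {L : ℕ} {A : ℂ} (hA : Admissible N L A)
    {Q : Matrix (FusionPath N c L) (FusionPath N c L) ℂ}
    (h : (braidRep N c L A hA γ).val * Q = Q * (braidRep N c L A hA γ).val) :
    (braidRep N c L A hA γ⁻¹).val * Q = Q * (braidRep N c L A hA γ⁻¹).val := by
  rw [map_inv]
  set g := braidRep N c L A hA γ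
  have h1 : (g⁻¹ : GL (FusionPath N c L) ℂ).val * g.val = 1 := by
    rw [← Units.val_mul, inv_mul_cancel, Units.val_one]
  have h2 : g.val * (g⁻¹ : GL (FusionPath N c L) ℂ).val = 1 := by
    rw [← Units.val_mul, mul_inv_cancel, Units.val_one]
  calc (g⁻¹ : GL (FusionPath N c L) ℂ).val * Q
      = (g⁻¹ : GL (FusionPath N c L) ℂ).val * (Q * g.val) *
        (g⁻¹ : GL (FusionPath N c L) ℂ).val := by
        rw [Matrix.mul_assoc, Matrix.mul_assoc, h2, Matrix.mul_one]
    _ = ((g⁻¹ : GL (FusionPath N c L) ℂ).val * g.val) * Q *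
        (g⁻¹ : GL (FusionPath N c L) ℂ).val := by
        rw [← h]; simp only [Matrix.mul_assoc]
    _ = Q * (g⁻¹ : GL (FusionPath N c L) ℂ).val := by
        rw [h1, Matrix.one_mul]

/-- Powers of a compressed matrix. -/
lemma compress_pow {R : Type*} [Ring R] {a p : R} (hp : p * p = p) (ha : a * p = p * a) (m : ℕ) :
    (a * p + (1 - p)) ^ m = a ^ m * p + (1 - p) := by
  induction m with
  | zero => simp
  | succ m ih =>
    have h1 : a ^ m * p = p * a ^ m := by
      clear ih
      induction m with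
      | zero => simp
      | succ m ih => rw [pow_succ, mul_assoc, ha, ← mul_assoc, ih, mul_assoc]
    rw [pow_succ, ih, compress_mul hp ha, pow_succ]

lemma GoodIdem.compr_pow (H : GoodIdem N c P γ) (z : ℂ) (h : Admissible N N z) (m : ℕ) :
    compr P γ z h ^ m = (braidRep N c N z h γ).val ^ m * P z + (1 - P z) :=
  compress_pow (H.idem z h) (H.comm z h) m

lemma GoodIdem.one (H : GoodIdem N c P γ) : GoodIdem N c P 1 :=
  { reg := H.reg
    idem := H.idem
    form := H.form
    comm := fun z h => by rw [map_one, Units.val_one, Matrix.one_mul, Matrix.mul_one]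
    pure := Subgroup.one_mem _ }

lemma GoodIdem.pow (H : GoodIdem N c P γ) (m : ℕ) : GoodIdem N c P (γ ^ m) :=
  { reg := H.reg
    idem := H.idem
    form := H.form
    comm := fun z h => by
      induction m with
      | zero => rw [pow_zero, map_one, Units.val_one, Matrix.one_mul, Matrix.mul_one]
      | succ m ih =>
        rw [pow_succ, map_mul, Units.val_mul, Matrix.mul_assoc, H.comm z h, ← Matrix.mul_assoc, ih,
          Matrix.mul_assoc]
    pure := Subgroup.pow_mem _ H.pure m }

lemma GoodIdem.compr_pow' (H : GoodIdem N c P γ) (z : ℂ) (h : Admissible N N z) (m : ℕ) :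
    compr P γ z h ^ m = compr P (γ ^ m) z h := by
  rw [H.compr_pow, compr, map_pow, Units.val_pow_eq_pow_val]

lemma GoodIdem.regMat (H : GoodIdem N c P γ) : RegMat N c (fun z h => compr P γ z h) := by
  have h2 := regMat_braidRep (n := N) (c := c) γ
  have h3 := RegMat.add (RegMat.mul h2 H.reg) (RegMat.sub_smul Reg.one RegMat.one H.reg)
  refine RegMat.congr h3 fun z h => ?_
  rw [compr, one_smul]

lemma GoodIdem.compr_one (H : GoodIdem N c P γ) (z : ℂ) (hz : z = 1) (h : Admissible N N z) :
    compr P γ z h = 1 := by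
  subst hz
  rw [compr, braidRep_one_of_pure h _ H.pure, Units.val_one, Matrix.one_mul]
  abel

lemma GoodIdem.mul_inv_compr (H : GoodIdem N c P γ) (z : ℂ) (h : Admissible N N z) :
    compr P γ⁻¹ z h * compr P γ z h = 1 := by
  rw [compr, compr, compress_mul (H.idem z h) (H.comm z h), ← Units.val_mul, ← map_mul,
    inv_mul_cancel, map_one, Units.val_one, Matrix.one_mul]
  abel

lemma GoodIdem.compr_form (H : GoodIdem N c P γ) {z : ℂ} (hz : ‖z‖ = 1) (h : Admissible N N z) :
    (compr P γ z h)ᴴ * formMat N c N z * compr P γ z h = formMat N c N z := by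
  have h1 : (compr P γ z h)ᴴ * formMat N c N z = formMat N c N z * compr P γ⁻¹ z h := by
    rw [compr, compr, conjTranspose_add, conjTranspose_mul, conjTranspose_sub,
      conjTranspose_one, add_mul, mul_add, Matrix.mul_assoc, braidRep_form hz h, ← Matrix.mul_assoc,
      H.form z hz h, Matrix.mul_assoc, ← comm_inv_of_comm h (H.comm z h), sub_mul, one_mul, mul_sub,
      mul_one, H.form z hz h]
  rw [h1, Matrix.mul_assoc, H.mul_inv_compr, Matrix.mul_one]

lemma GoodIdem.norm_det (H : GoodIdem N c P γ) {z : ℂ} (hz : ‖z‖ = 1) (h : Admissible N N z) :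
    ‖(compr P γ z h).det‖ = 1 := by
  have h1 := congrArg Matrix.det (H.compr_form hz h)
  rw [det_mul, det_mul, det_conjTranspose] at h1
  have h2 := det_formMat_ne_zero (c := c) h
  set d := (compr P γ z h).det
  have h3 : star d * d = 1 := by
    have : (star d * d) * (formMat N c N z).det = 1 * (formMat N c N z).det := by
      rw [one_mul]
      calc (star d * d) * (formMat N c N z).det
          = star d * (formMat N c N z).det * d := by ring
        _ = _ := h1
    exact mul_right_cancel₀ h2 this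
  have h4 : ‖d‖ * ‖d‖ = 1 := by
    have := congrArg norm h3
    rw [norm_mul, norm_star, norm_one] at this
    exact this
  nlinarith [norm_nonneg d]

/-- The rigidity statement at the roots of unity closest to `1`. -/
lemma GoodIdem.eq_one_of_trace (H : GoodIdem N c P γ) (r : ℕ) (hr : N + 2 ≤ r) (z : ℂ)
    (hz : z ^ 4 = Complex.exp (2 * Real.pi * Complex.I / r)) (hA : Admissible N N z)
    (htr : (compr P γ z hA).trace = Fintype.card (FusionPath N c N)) : compr P γ z hA = 1 := by
  obtain ⟨ε, hε, w, hw, hwt⟩ := exists_pos_wt (c := c) (L := N) r hr le_rfl z hz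
  have hnorm : ‖z‖ = 1 := by
    have h1 : ‖z‖ ^ 4 = 1 := by
      rw [← norm_pow, hz, Complex.norm_exp]
      have : (2 * (Real.pi : ℂ) * Complex.I / r).re = 0 := by
        have e : (2 * (Real.pi : ℂ) * Complex.I / r) = ((2 * Real.pi / r : ℝ) : ℂ) * Complex.I := by
          push_cast; ring
        rw [e]
        simp
      rw [this, Real.exp_zero]
    exact (pow_eq_one_iff_of_nonneg (norm_nonneg _) (by norm_num)).1 h1
  have hform := H.compr_form hnorm hA
  have hdiag : formMat N c N z = ε • Matrix.diagonal (fun p => (w p : ℂ)) := by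
    rw [formMat, ← Matrix.diagonal_smul]
    congr 1
    funext p
    rw [hwt p]
    rfl
  rw [hdiag, mul_smul_comm, smul_mul_assoc] at hform
  have hform' := smul_right_injective _ hε hform
  exact eq_one_of_trace_eq_card w hw _ hform' htr

lemma GoodIdem.family (H : GoodIdem N c P γ) : ∃ F : Family (FusionPath N c N),
    (∀ z : ℂ, z ≠ 0 → (aeval z F.E ≠ 0 ↔ Admissible N N z)) ∧
    (∀ z (h : Admissible N N z), F.M z = compr P γ z h) ∧
    (∀ z : ℂ, ‖z‖ = 1 → aeval z F.E ≠ 0 → ‖(F.M z).det‖ = 1) ∧ aeval (1 : ℂ) F.E ≠ 0 ∧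
    F.M 1 = 1 := by
  obtain ⟨F, hF, hF'⟩ := exists_family_of_regMat H.regMat
  refine ⟨F, hF, hF', ?_, (hF 1 one_ne_zero).2 admissible_one, ?_⟩
  · intro z hz hE
    have hz0 : z ≠ 0 := by
      rintro rfl
      simp at hz
    have hadm := (hF z hz0).1 hE
    rw [hF' z hadm]
    exact H.norm_det hz hadm
  · rw [hF' 1 admissible_one]
    exact H.compr_one 1 rfl _

/-- Transport of relations between primitive roots of unity of the same order. -/
lemma GoodIdem.transport (H : GoodIdem N c P γ) (D : ℕ) (hD : 0 < D) (z A : ℂ)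
    (hz : IsPrimitiveRoot z D) (hA : IsPrimitiveRoot A D) (hadm : Admissible N N z)
    (h : Admissible N N A) (hone : compr P γ z hadm = 1) : compr P γ A h = 1 := by
  obtain ⟨F, hF, hF', _⟩ := H.family
  have hnumz : F.num z = F.den z • (1 : Matrix _ _ ℂ) := by
    rw [F.num_eq hadm.1 ((hF z hadm.1).2 hadm), hF' z hadm, hone]
  have hnumA : F.num A = F.den A • (1 : Matrix _ _ ℂ) := by
    ext i j
    have h1 := congrFun (congrFun hnumz i) j
    have e1 : ∀ w : ℂ, F.num w i j = aeval w (F.P i j) := fun w => rfl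
    rw [e1, Matrix.smul_apply, smul_eq_mul]
    rw [e1, Matrix.smul_apply, smul_eq_mul] at h1
    by_cases hij : i = j
    · subst hij
      rw [Matrix.one_apply_eq, mul_one] at h1 ⊢
      have h2 : aeval z (F.P i i - X ^ F.a * F.E) = 0 := by
        rw [map_sub, h1, Family.den]
        simp
      have h3 := aeval_eq_zero_of_primitive D hD z A hz hA _ h2
      rw [map_sub, sub_eq_zero] at h3
      rw [h3, Family.den]
      simp
    · rw [Matrix.one_apply_ne hij, mul_zero] at h1 ⊢
      exact aeval_eq_zero_of_primitive D hD z A hz hA _ h1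
  rw [← hF' A h, Family.M, hnumA, smul_smul, inv_mul_cancel₀ (F.den_ne_zero h.1 ((hF A h.1).2 h)),
    one_smul]

/-- If a pure braid has finite order at infinitely many levels, then at every level its order
divides the order of `A`. -/
theorem GoodIdem.rigidity (H : GoodIdem N c P γ) (R : Set ℕ) (hR : R.Infinite)
    (hfin : ∀ r ∈ R, 0 < r ∧ ∃ A : ℂ, IsPrimitiveRoot (A ^ 4) r ∧
      ∃ h : Admissible N N A, ∃ m : ℕ, m ≠ 0 ∧ compr P γ A h ^ m = 1)
    (r : ℕ) (hr : N + 2 ≤ r) (A : ℂ) (hA : IsPrimitiveRoot (A ^ 4) r)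
    (h : Admissible N N A) : compr P γ A h ^ orderOf A = 1 := by
  rcases isEmpty_or_nonempty (FusionPath N c N) with hempty | hne
  · exact Subsingleton.elim _ _
  obtain ⟨F, hF, hF', hdet, hE1, hM1⟩ := H.family
  choose! hpos f hf1 hf2 mm hmm hmm' using hfin
  have hS : ((fun r => orderOf (f r)) '' R).Infinite := by
    intro hfinite
    apply hR
    obtain ⟨B, hB⟩ := hfinite.bddAbove
    apply (Set.finite_Iic B).subset
    intro r' hr'
    have h1 := pos_of_isPrimitiveRoot_of_pow (hpos r' hr') (hf1 r' hr')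
    have h2 : r' ≤ orderOf (f r') := Nat.le_of_dvd h1.1 h1.2
    exact h2.trans (hB ⟨r', hr', rfl⟩)
  have hfinF : ∀ D ∈ ((fun r => orderOf (f r)) '' R), ∃ ζ : ℂ, IsPrimitiveRoot ζ D ∧
      aeval ζ F.E ≠ 0 ∧ F.FiniteAt ζ := by
    rintro _ ⟨r', hr', rfl⟩
    have hadm := hf2 r' hr'
    refine ⟨f r', IsPrimitiveRoot.orderOf _, (hF _ hadm.1).2 hadm, mm r', hmm r' hr', 1, ?_⟩
    rw [hF' _ hadm, hmm' r' hr', one_smul]
  obtain ⟨Q, hQ, hQ2⟩ := F.exists_quotients _ hS hdet hfinF
  -- the conjugate point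
  have hr0 : 0 < r := by omega
  obtain ⟨z, hz, hz4⟩ := exists_conjugate hr0 hA
  have hz4' : IsPrimitiveRoot (z ^ 4) r := by
    rw [hz4]
    exact Complex.isPrimitiveRoot_exp r hr0.ne'
  have hadm := admissible_of_primitive' hr hz4'
  have hordpos := (pos_of_isPrimitiveRoot_of_pow hr0 hA).1
  have hznorm : ‖z‖ = 1 := hz.norm'_eq_one hordpos.ne'
  have hzE : aeval z F.E ≠ 0 := (hF z hadm.1).2 hadm
  have htr : (compr P (γ ^ orderOf A) z hadm).trace = Fintype.card (FusionPath N c N) := by
    have h1 := Family.q_eq_q_one (F := F) hE1 hM1 hQ hQ2 (Complex.arg z) (orderOf A)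
    have h2 : Complex.exp (Complex.arg z * Complex.I) = z := by
      have := Complex.norm_mul_exp_arg_mul_I z
      rwa [hznorm, Complex.ofReal_one, one_mul] at this
    rw [h2, hz.pow_eq_one] at h1
    rw [← H.compr_pow', ← hF' z hadm, Family.trace_eq_q hQ hadm.1 hzE, h1,
      ← Family.trace_eq_q hQ one_ne_zero hE1, hM1, pow_one, Matrix.trace_one]
  have hone := (H.pow (orderOf A)).eq_one_of_trace r hr z hz4 hadm htr
  rw [H.compr_pow']
  exact (H.pow (orderOf A)).transport _ hordpos z A hz (IsPrimitiveRoot.orderOf A) hadm h hone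

/-- Projectively finite order on the image of `P` implies finite order. -/
lemma GoodIdem.finite_of_scalar (H : GoodIdem N c P γ) (r : ℕ) (hr : 0 < r) (A : ℂ)
    (hA : IsPrimitiveRoot (A ^ 4) r) (h : Admissible N N A) (m : ℕ) (hm : 0 < m) (a : ℂ)
    (ha : (braidRep N c N A h γ).val ^ m * P A = a • P A) :
    ∃ t : ℕ, t ≠ 0 ∧ compr P γ A h ^ t = 1 := by
  have h2 : compr P γ A h ^ m = a • P A + (1 - P A) := by rw [H.compr_pow, ha]
  obtain ⟨F, hF, hF', hdet, _, _⟩ := H.family
  obtain ⟨hordpos, _⟩ := pos_of_isPrimitiveRoot_of_pow hr hA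
  have h4 := F.det_root_of_unity hdet A (orderOf A) hordpos.ne' (pow_orderOf_eq_one A)
    ((hF A h.1).2 h)
  rw [hF' A h] at h4
  set u := 2 * orderOf A with hu
  have hPP := H.idem A h
  have hmul : ∀ x y : ℂ, (x • P A + (1 - P A)) * (y • P A + (1 - P A))
      = (x * y) • P A + (1 - P A) := by
    intro x y
    have h1 : (1 - P A) * P A = 0 := by rw [sub_mul, one_mul, hPP, sub_self]
    have h2 : P A * (1 - P A) = 0 := by rw [mul_sub, mul_one, hPP, sub_self]
    have h3 : (1 - P A) * (1 - P A) = 1 - P A := by rw [mul_sub, mul_one, h1, sub_zero]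
    rw [add_mul, mul_add, mul_add, smul_mul_assoc, smul_mul_assoc, mul_smul_comm, mul_smul_comm,
      hPP, h1, h2, h3, smul_smul]
    simp
  have hpow : ∀ j : ℕ, (a • P A + (1 - P A)) ^ j = (a ^ j) • P A + (1 - P A) := by
    intro j
    induction j with
    | zero => simp
    | succ j ih => rw [pow_succ, ih, hmul, pow_succ]
  have h5 : compr P γ A h ^ (m * u) = (a ^ u) • P A + (1 - P A) := by
    rw [pow_mul, h2, hpow]
  have h6 : ((a ^ u) • P A + (1 - P A)).det = 1 := by
    rw [← h5, mul_comm, pow_mul, det_pow, det_pow, h4, one_pow]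
  obtain ⟨t, ht, ht'⟩ := finite_order_of_det (P A) hPP (a ^ u) h6
  refine ⟨m * u * t, ?_, ?_⟩
  · exact Nat.mul_ne_zero (Nat.mul_ne_zero hm.ne' (by omega)) ht
  · rw [pow_mul, h5, ht']

end

end Pool.Agent.H69.AMU
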