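import Pool.Agent.H69.AMU.Cable

set_option autoImplicit false

/-! # Artin's action of the braid group on the free group, round curves, reducible braids -/

namespace Pool.Agent.H69.AMU

/-- The generators of the free group of rank `n` (the loops around the punctures), extended by
`1`. -/
def fgen (n j : ℕ) : FreeGroup (Fin n) := if h : j < n then FreeGroup.of ⟨j, h⟩ else 1

lemma fgen_of_lt {n j : ℕ} (h : j < n) : fgen n j = FreeGroup.of ⟨j, h⟩ := by
  rw [fgen, dif_pos h]

/-- The images of the generators under the `i`-th generator of the braid group. -/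
def artinFun (n i : ℕ) (j : Fin n) : FreeGroup (Fin n) :=
  if (j : ℕ) = i then fgen n i * fgen n (i + 1) * (fgen n i)⁻¹
  else if (j : ℕ) = i + 1 then fgen n i else fgen n j

/-- The images of the generators under the inverse of the `i`-th generator of the braid group. -/
def artinInv (n i : ℕ) (j : Fin n) : FreeGroup (Fin n) :=
  if (j : ℕ) = i then fgen n (i + 1)
  else if (j : ℕ) = i + 1 then (fgen n (i + 1))⁻¹ * fgen n i * fgen n (i + 1) else fgen n j

lemma lift_artinFun {n i j : ℕ} (hi : i < n - 1) :
    FreeGroup.lift (artinFun n i) (fgen n j) = if j = i then fgen n i * fgen n (i + 1) * (fgen n i)⁻¹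
      else if j = i + 1 then fgen n i else fgen n j := by
  by_cases h : j < n
  · rw [fgen_of_lt h, FreeGroup.lift_apply_of, artinFun, fgen_of_lt h]
  · rw [if_neg (by omega), if_neg (by omega), fgen, dif_neg h, map_one]

lemma lift_artinInv {n i j : ℕ} (hi : i < n - 1) :
    FreeGroup.lift (artinInv n i) (fgen n j) = if j = i then fgen n (i + 1)
      else if j = i + 1 then (fgen n (i + 1))⁻¹ * fgen n i * fgen n (i + 1) else fgen n j := by
  by_cases h : j < n
  · rw [fgen_of_lt h, FreeGroup.lift_apply_of, artinInv, fgen_of_lt h]
  · rw [if_neg (by omega), if_neg (by omega), fgen, dif_neg h, map_one]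

/-- The automorphism of the free group given by the `i`-th generator of the braid group:
`x_i ↦ x_i x_(i+1) x_i⁻¹`, `x_(i+1) ↦ x_i`, all other generators are fixed. -/
def artinGen (n i : ℕ) : MulAut (FreeGroup (Fin n)) :=
  if hi : i < n - 1 then
    MonoidHom.toMulEquiv (FreeGroup.lift (artinFun n i)) (FreeGroup.lift (artinInv n i))
      (by
        apply FreeGroup.ext_hom
        intro j
        rw [MonoidHom.comp_apply, MonoidHom.id_apply, ← fgen_of_lt j.2, lift_artinFun hi]
        by_cases h1 : (j : ℕ) = i
        · rw [if_pos h1, map_mul, map_mul, map_inv, lift_artinInv hi, lift_artinInv hi, if_pos rfl,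
            if_neg (by omega), if_pos rfl, h1]
          group
        · by_cases h2 : (j : ℕ) = i + 1
          · rw [if_neg h1, if_pos h2, lift_artinInv hi, if_pos rfl, h2]
          · rw [if_neg h1, if_neg h2, lift_artinInv hi, if_neg h1, if_neg h2])
      (by
        apply FreeGroup.ext_hom
        intro j
        rw [MonoidHom.comp_apply, MonoidHom.id_apply, ← fgen_of_lt j.2, lift_artinInv hi]
        by_cases h1 : (j : ℕ) = i
        · rw [if_pos h1, lift_artinFun hi, if_neg (by omega), if_pos rfl, h1]
        · by_cases h2 : (j : ℕ) = i + 1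
          · rw [if_neg h1, if_pos h2, map_mul, map_mul, map_inv, lift_artinFun hi, lift_artinFun hi,
              if_neg (by omega), if_pos rfl, if_pos rfl, h2]
            group
          · rw [if_neg h1, if_neg h2, lift_artinFun hi, if_neg h1, if_neg h2])
  else 1

lemma artinGen_fgen {n i : ℕ} (hi : i < n - 1) (j : ℕ) :
    artinGen n i (fgen n j) = if j = i then fgen n i * fgen n (i + 1) * (fgen n i)⁻¹
      else if j = i + 1 then fgen n i else fgen n j := by
  rw [artinGen, dif_pos hi]
  exact lift_artinFun hi

lemma mulAut_ext_fgen {n : ℕ} {f g : MulAut (FreeGroup (Fin n))}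
    (h : ∀ j, f (fgen n j) = g (fgen n j)) : f = g := by
  have h1 : f.toMonoidHom = g.toMonoidHom := by
    apply FreeGroup.ext_hom
    intro j
    have := h j
    rwa [fgen_of_lt j.2] at this
  apply MulEquiv.ext
  intro x
  exact congrArg (fun φ : FreeGroup (Fin n) →* FreeGroup (Fin n) => φ x) h1

lemma artinSeq_artinGen (n : ℕ) : ArtinSeq (artinGen n) (n - 1) := by
  constructor
  · intro i j hij hj
    have hi : i < n - 1 := by omega
    apply mulAut_ext_fgen
    intro l
    rw [MulAut.mul_apply, MulAut.mul_apply, artinGen_fgen hi, artinGen_fgen hj]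
    have e1 : artinGen n i (fgen n j) = fgen n j := by
      rw [artinGen_fgen hi, if_neg (by omega), if_neg (by omega)]
    have e2 : artinGen n i (fgen n (j + 1)) = fgen n (j + 1) := by
      rw [artinGen_fgen hi, if_neg (by omega), if_neg (by omega)]
    have e3 : artinGen n j (fgen n i) = fgen n i := by
      rw [artinGen_fgen hj, if_neg (by omega), if_neg (by omega)]
    have e4 : artinGen n j (fgen n (i + 1)) = fgen n (i + 1) := by
      rw [artinGen_fgen hj, if_neg (by omega), if_neg (by omega)]
    by_cases h1 : l = i
    · subst h1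
      rw [if_neg (by omega), if_neg (by omega), if_pos rfl, artinGen_fgen hi, if_pos rfl, map_mul,
        map_mul, map_inv, e3, e4]
    · by_cases h2 : l = i + 1
      · subst h2
        rw [if_neg (by omega : i + 1 ≠ j), if_neg (by omega : i + 1 ≠ j + 1), if_neg (by omega),
          if_pos rfl, artinGen_fgen hi, if_neg (by omega), if_pos rfl, e3]
      · rw [if_neg h1, if_neg h2]
        by_cases h3 : l = j
        · subst h3
          rw [if_pos rfl, map_mul, map_mul, map_inv, e1, e2, artinGen_fgen hj, if_pos rfl]
        · by_cases h4 : l = j + 1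
          · subst h4
            rw [if_neg (by omega : j + 1 ≠ j), if_pos rfl, e1, artinGen_fgen hj,
              if_neg (by omega : j + 1 ≠ j), if_pos rfl]
          · rw [if_neg h3, if_neg h4, artinGen_fgen hi, if_neg h1, if_neg h2, artinGen_fgen hj,
              if_neg h3, if_neg h4]
  · intro i hi'
    have hi : i < n - 1 := by omega
    have a1 : artinGen n i (fgen n i) = fgen n i * fgen n (i + 1) * (fgen n i)⁻¹ := by
      rw [artinGen_fgen hi, if_pos rfl]
    have a2 : artinGen n i (fgen n (i + 1)) = fgen n i := by
      rw [artinGen_fgen hi, if_neg (by omega), if_pos rfl]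
    have a3 : artinGen n i (fgen n (i + 2)) = fgen n (i + 2) := by
      rw [artinGen_fgen hi, if_neg (by omega), if_neg (by omega)]
    have b1 : artinGen n (i + 1) (fgen n i) = fgen n i := by
      rw [artinGen_fgen hi', if_neg (by omega), if_neg (by omega)]
    have b2 : artinGen n (i + 1) (fgen n (i + 1))
        = fgen n (i + 1) * fgen n (i + 2) * (fgen n (i + 1))⁻¹ := by
      rw [artinGen_fgen hi', if_pos rfl]
    have b3 : artinGen n (i + 1) (fgen n (i + 2)) = fgen n (i + 1) := by
      rw [artinGen_fgen hi', if_neg (by omega), if_pos rfl]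
    apply mulAut_ext_fgen
    intro l
    simp only [MulAut.mul_apply]
    by_cases h1 : l = i
    · subst h1
      simp only [a1, a2, a3, b1, b2, map_mul, map_inv]
      group
    · by_cases h2 : l = i + 1
      · subst h2
        simp only [a1, a2, a3, b1, b2, b3, map_mul, map_inv]
      · by_cases h3 : l = i + 2
        · subst h3
          simp only [a2, a3, b1, b3]
        · have c1 : artinGen n i (fgen n l) = fgen n l := by
            rw [artinGen_fgen hi, if_neg h1, if_neg h2]
          have c2 : artinGen n (i + 1) (fgen n l) = fgen n l := by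
            rw [artinGen_fgen hi', if_neg h2, if_neg h3]
          rw [c1, c2, c1, c2]

/-- Artin's action of the braid group on the free group: the action of mapping classes of the
punctured disc on its fundamental group. -/
def artin (n : ℕ) : BraidGroup n →* MulAut (FreeGroup (Fin n)) := braidLift (artinSeq_artinGen n)

lemma artin_gen {n i : ℕ} (hi : i < n - 1) : artin n (gen n i) = artinGen n i := braidLift_gen _ hi

/-- The loop `x_a x_(a+1) ... x_(a+l-1)`: the round curve around the punctures
`a, ..., a + l - 1`. -/
def roundLoop (n a : ℕ) : ℕ → FreeGroup (Fin n)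
  | 0 => 1
  | (l + 1) => roundLoop n a l * fgen n (a + l)

/-- `β` preserves the simple closed curve `h (round curve around the punctures a, ..., a + l - 1)`
up to isotopy. -/
def FixesCurve {n : ℕ} (β h : BraidGroup n) (a l : ℕ) : Prop :=
  IsConj (artin n (h⁻¹ * β * h) (roundLoop n a l)) (roundLoop n a l)

/-- A pure braid is reducible if it preserves an essential simple closed curve of the punctured
disc: a curve which surrounds at least two and not all of the punctures. -/
def Reducible {n : ℕ} (β : BraidGroup n) : Prop :=
  ∃ (h : BraidGroup n) (a l : ℕ), 2 ≤ l ∧ l < n ∧ a + l ≤ n ∧ FixesCurve β h a l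

lemma roundLoop_add (n a l m : ℕ) :
    roundLoop n a (l + m) = roundLoop n a l * roundLoop n (a + l) m := by
  induction m with
  | zero => simp [roundLoop]
  | succ m ih =>
    rw [← Nat.add_assoc, roundLoop, ih, roundLoop, mul_assoc, Nat.add_assoc a l m]

/-- Generators away from the curve fix it. -/
lemma artinGen_roundLoop_out {n i a l : ℕ} (hi : i < n - 1) (h : i + 1 < a ∨ a + l ≤ i) :
    artinGen n i (roundLoop n a l) = roundLoop n a l := by
  induction l with
  | zero => simp [roundLoop]
  | succ l ih =>
    rw [roundLoop, map_mul, ih (by omega), artinGen_fgen hi, if_neg (by omega), if_neg (by omega)]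

/-- Generators inside the curve fix it. -/
lemma artinGen_roundLoop_in {n i a l : ℕ} (hi : i < n - 1) (h1 : a ≤ i) (h2 : i + 1 < a + l) :
    artinGen n i (roundLoop n a l) = roundLoop n a l := by
  obtain ⟨d, rfl⟩ : ∃ d, i = a + d := ⟨i - a, by omega⟩
  obtain ⟨e, rfl⟩ : ∃ e, l = d + 2 + e := ⟨l - (d + 2), by omega⟩
  have h3 : roundLoop n a (d + 2) = roundLoop n a d * fgen n (a + d) * fgen n (a + d + 1) := rfl
  rw [roundLoop_add, map_mul, h3, map_mul, map_mul, artinGen_roundLoop_out hi (Or.inr (by omega)),
    artinGen_roundLoop_out hi (Or.inl (by omega)), artinGen_fgen hi, if_pos rfl,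
    artinGen_fgen hi, if_neg (by omega), if_pos rfl]
  group

/-- Conjugacy form. -/
lemma fixesCurve_iff {n : ℕ} (β h : BraidGroup n) (a l : ℕ) :
    FixesCurve β h a l ↔ IsConj (artin n β (artin n h (roundLoop n a l)))
      (artin n h (roundLoop n a l)) := by
  unfold FixesCurve
  have e : artin n (h⁻¹ * β * h) (roundLoop n a l)
      = (artin n h).symm (artin n β (artin n h (roundLoop n a l))) := by
    rw [map_mul, map_mul, MulAut.mul_apply, MulAut.mul_apply, map_inv]
    rfl
  rw [e]
  constructor
  · intro h1
    have h2 := (artin n h).toMonoidHom.map_isConj h1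
    have e1 : (artin n h).toMonoidHom ((artin n h).symm (artin n β (artin n h (roundLoop n a l))))
        = artin n β (artin n h (roundLoop n a l)) :=
      (artin n h).apply_symm_apply _
    rw [e1] at h2
    exact h2
  · intro h1
    have h2 := (artin n h).symm.toMonoidHom.map_isConj h1
    have e1 : (artin n h).symm.toMonoidHom (artin n h (roundLoop n a l)) = roundLoop n a l :=
      (artin n h).symm_apply_apply _
    rw [e1] at h2
    exact h2

/-- Conjugates of reducible braids are reducible. -/
lemma Reducible.conj {n : ℕ} {β : BraidGroup n} (h : Reducible β) (g : BraidGroup n) :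
    Reducible (g * β * g⁻¹) := by
  obtain ⟨h, a, l, h1, h2, h3, h4⟩ := h
  refine ⟨g * h, a, l, h1, h2, h3, ?_⟩
  unfold FixesCurve at h4 ⊢
  have e : (g * h)⁻¹ * (g * β * g⁻¹) * (g * h) = h⁻¹ * β * h := by group
  rw [e]
  exact h4

end Pool.Agent.H69.AMU
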