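import Pool.Agent.H69.AMM.Site

set_option autoImplicit false

/-! # The intertwiner extended by the constants is invertible -/

namespace Pool.Agent.H69.AMU

open FusionPath Matrix Pool.Agent.H61.AMU

/-- The intertwiner extended by the constant function. -/
noncomputable def SM (N c : ℕ) (A : ℂ) : Matrix (Fin N) (FusionPath N c N ⊕ Unit) ℂ :=
  Matrix.fromCols (Phi1 N c A) (Matrix.of (fun _ _ => 1))

lemma SM_mulVec {N c : ℕ} (A : ℂ) (w : FusionPath N c N ⊕ Unit → ℂ) (x : Fin N) :
    (SM N c A *ᵥ w) x = ∑ p, sf A (hgt p) x * w (Sum.inl p) + w (Sum.inr ()) := by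
  rw [Matrix.mulVec, dotProduct, Fintype.sum_sum_type]
  simp only [SM, Matrix.fromCols_apply_inl, Matrix.fromCols_apply_inr, Matrix.of_apply, one_mul,
    Finset.univ_unique, Finset.sum_singleton, PUnit.default_eq_unit]
  rfl

lemma be_ne_zero {N : ℕ} {A : ℂ} (hA : Admissible N N A) {g : ℕ} (hg : g ≤ N) : be A g ≠ 0 := by
  have hA0 := hA.1
  exact div_ne_zero (pow_ne_zero _ (inv_ne_zero (pow_ne_zero _ hA0))) (hA.2.1 g hg)

lemma SM_injective {N c : ℕ} {A : ℂ} (hA : Admissible N N A) (hc : c + 2 = N)
    (w : FusionPath N c N ⊕ Unit → ℂ) (hw : SM N c A *ᵥ w = 0) : w = 0 := by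
  classical
  have hx : ∀ x : ℕ, x < N → ∑ p : FusionPath N c N, sf A (hgt p) x * w (Sum.inl p)
      + w (Sum.inr ()) = 0 := by
    intro x hx
    have h1 := congrFun hw ⟨x, hx⟩
    rw [SM_mulVec] at h1
    exact h1
  -- the coordinates of the paths vanish
  have key : ∀ h : ℕ, ∀ p : FusionPath N c N, hgt p = h → w (Sum.inl p) = 0 := by
    intro h
    induction h using Nat.strong_induction_on with
    | _ h ih =>
      intro p hp
      have h1 := one_le_hgt hc p
      have h2 := hgt_lt hc p
      obtain ⟨g, rfl⟩ : ∃ g, h = g + 1 := ⟨h - 1, by omega⟩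
      have e1 := hx g (by omega)
      have e2 := hx (g + 1) (by omega)
      have e3 : ∑ q : FusionPath N c N, (sf A (hgt q) g - sf A (hgt q) (g + 1)) * w (Sum.inl q)
          = 0 := by
        have : ∑ q : FusionPath N c N, (sf A (hgt q) g - sf A (hgt q) (g + 1)) * w (Sum.inl q)
            = ∑ q : FusionPath N c N, sf A (hgt q) g * w (Sum.inl q)
              - ∑ q : FusionPath N c N, sf A (hgt q) (g + 1) * w (Sum.inl q) := by
          rw [← Finset.sum_sub_distrib]
          apply Finset.sum_congr rfl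
          intro q _
          ring
        rw [this]
        linear_combination e1 - e2
      rw [Finset.sum_eq_single p] at e3
      · rw [sf_diff hA.1 (hA.2.1 g (by omega)) (hA.2.1 (g + 1) (by omega)),
          if_pos (Or.inr hp)] at e3
        exact (mul_eq_zero.1 e3).resolve_left (be_ne_zero hA (by omega))
      · intro q _ hq
        have hq' : hgt q ≠ g + 1 := fun h => hq (hgt_inj hc (h.trans hp.symm))
        by_cases hqg : hgt q = g
        · rw [ih g (by omega) q hqg, mul_zero]
        · rw [sf_diff hA.1 (hA.2.1 g (by omega)) (hA.2.1 (g + 1) (by omega)),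
            if_neg (by tauto), zero_mul]
      · intro h
        exact absurd (Finset.mem_univ _) h
  funext a
  rcases a with p | u
  · exact key _ p rfl
  · have h0 := hx 0 (by omega)
    rw [Finset.sum_eq_zero, zero_add] at h0
    · exact h0
    · intro p _
      rw [key _ p rfl, mul_zero]

/-- A left and right inverse of the extended intertwiner. -/
lemma exists_SM_inv {N c : ℕ} {A : ℂ} (hA : Admissible N N A) (hc : c + 2 = N) :
    ∃ S' : Matrix (FusionPath N c N ⊕ Unit) (Fin N) ℂ, SM N c A * S' = 1 ∧ S' * SM N c A = 1 := by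
  classical
  have hcard : Fintype.card (FusionPath N c N ⊕ Unit) = Fintype.card (Fin N) := by
    rw [Fintype.card_fin, Fintype.card_sum, Fintype.card_unit, card_paths hc (by omega)]
  let e : (FusionPath N c N ⊕ Unit) ≃ Fin N := Fintype.equivOfCardEq hcard
  let T : Matrix (Fin N) (Fin N) ℂ := (SM N c A).submatrix id e.symm
  have hT : ∀ w : Fin N → ℂ, T *ᵥ w = SM N c A *ᵥ (w ∘ e) := by
    intro w
    funext x
    rw [Matrix.mulVec, dotProduct, Matrix.mulVec, dotProduct]
    rw [← Equiv.sum_comp e.symm]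
    apply Finset.sum_congr rfl
    intro y _
    simp [T]
  have hinj : Function.Injective T.mulVec := by
    intro w w' h
    have h1 : SM N c A *ᵥ ((w - w') ∘ e) = 0 := by
      rw [← hT, Matrix.mulVec_sub]
      exact sub_eq_zero.2 h
    have h2 := SM_injective hA hc _ h1
    funext x
    have h3 := congrFun h2 (e.symm x)
    simp only [Function.comp_apply, Equiv.apply_symm_apply, Pi.sub_apply, Pi.zero_apply] at h3
    exact sub_eq_zero.1 h3
  have hunit : IsUnit T := Matrix.mulVec_injective_iff_isUnit.1 hinj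
  obtain ⟨U, hU⟩ := hunit
  refine ⟨(U⁻¹).val.submatrix e id, ?_, ?_⟩
  · have h1 : T * (U⁻¹).val = 1 := by rw [← hU, ← Units.val_mul, mul_inv_cancel, Units.val_one]
    have h2 : SM N c A * (U⁻¹).val.submatrix e id = T * (U⁻¹).val := by
      ext x y
      rw [Matrix.mul_apply, Matrix.mul_apply, ← Equiv.sum_comp e.symm]
      apply Finset.sum_congr rfl
      intro z _
      simp [T]
    rw [h2, h1]
  · have h1 : (U⁻¹).val * T = 1 := by rw [← hU, ← Units.val_mul, inv_mul_cancel, Units.val_one]
    ext a b
    have h2 := congrFun (congrFun h1 (e a)) (e b)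
    have h3 : ((U⁻¹).val.submatrix e id * SM N c A) a b = ((U⁻¹).val * T) (e a) (e b) := by
      rw [Matrix.mul_apply, Matrix.mul_apply]
      apply Finset.sum_congr rfl
      intro z _
      simp [T]
    rw [h3, h2, Matrix.one_apply, Matrix.one_apply]
    by_cases hab : a = b
    · rw [if_pos hab, if_pos (congrArg e hab)]
    · rw [if_neg hab, if_neg fun h => hab (e.injective h)]

/-- The matrix on paths extended to the constants. -/
def extM {N c : ℕ} (M : Matrix (FusionPath N c N) (FusionPath N c N) ℂ) (κ : ℂ) :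
    Matrix (FusionPath N c N ⊕ Unit) (FusionPath N c N ⊕ Unit) ℂ :=
  Matrix.fromBlocks M 0 0 (κ • (1 : Matrix Unit Unit ℂ))

section
variable {N c : ℕ}

lemma extM_mul (M M' : Matrix (FusionPath N c N) (FusionPath N c N) ℂ) (κ κ' : ℂ) :
    extM M κ * extM M' κ' = extM (M * M') (κ * κ') := by
  rw [extM, extM, extM, Matrix.fromBlocks_multiply]
  simp [smul_smul, mul_comm κ κ']

lemma extM_one : extM (1 : Matrix (FusionPath N c N) (FusionPath N c N) ℂ) 1 = 1 := by
  rw [extM, one_smul, Matrix.fromBlocks_one]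

lemma extM_pow (M : Matrix (FusionPath N c N) (FusionPath N c N) ℂ) (κ : ℂ) (m : ℕ) :
    extM M κ ^ m = extM (M ^ m) (κ ^ m) := by
  induction m with
  | zero => rw [pow_zero, pow_zero, pow_zero, extM_one]
  | succ m ih => rw [pow_succ, ih, extM_mul, pow_succ, pow_succ]

lemma extM_trace (M : Matrix (FusionPath N c N) (FusionPath N c N) ℂ) (κ : ℂ) :
    trace (extM M κ) = trace M + κ := by
  simp [extM, Matrix.trace, Fintype.sum_sum_type]

/-- If a matrix intertwines on paths and on constants, it intertwines. -/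
lemma SM_mul_extM {A : ℂ} (M : Matrix (FusionPath N c N) (FusionPath N c N) ℂ) (κ : ℂ)
    (W : Matrix (Fin N) (Fin N) ℂ) (h1 : Phi1 N c A * M = W * Phi1 N c A)
    (h2 : W *ᵥ (fun _ => 1) = fun _ => κ) : SM N c A * extM M κ = W * SM N c A := by
  ext x a
  rcases a with p | u
  · have h := congrFun (congrFun h1 x) p
    rw [Matrix.mul_apply, Matrix.mul_apply] at h
    rw [Matrix.mul_apply, Matrix.mul_apply, Fintype.sum_sum_type]
    simp only [extM, SM, Matrix.fromCols_apply_inl, Matrix.fromCols_apply_inr,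
      Matrix.fromBlocks_apply₁₁, Matrix.fromBlocks_apply₂₁, Matrix.zero_apply, mul_zero,
      Finset.sum_const_zero, add_zero]
    exact h
  · have h := congrFun h2 x
    rw [Matrix.mulVec, dotProduct] at h
    rw [Matrix.mul_apply, Matrix.mul_apply, Fintype.sum_sum_type]
    simp only [extM, SM, Matrix.fromCols_apply_inl, Matrix.fromCols_apply_inr,
      Matrix.fromBlocks_apply₁₂, Matrix.fromBlocks_apply₂₂, Matrix.zero_apply, mul_zero,
      Finset.sum_const_zero, zero_add, Matrix.of_apply, one_mul]
    rw [h]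
    simp

end

section
variable {n : ℕ} {K : Type} [CommRing K]

/-- Walk matrices fix the constants. -/
lemma wmat_mulVec_one {i : ℕ} (hi : i < n - 1) (a : K) (f : Fin n → K) (x : K)
    (hf : f = fun _ => x) : wmat n i a *ᵥ f = f := by
  subst hf
  funext j
  have h1 := wmat_mulVec hi a (fun _ : Fin n => x) j
  have h2 : ∀ l, l < n → gv 0 (fun _ : Fin n => x) l = x := fun l hl => gv_of_lt 0 _ hl
  rw [gv_val, h2 _ (by omega : i < n), h2 _ (by omega : i + 1 < n), h2 _ j.2] at h1
  rw [h1]
  split_ifs
  · rfl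
  · ring
  · rfl

lemma walkU_mulVec_one (β : BraidGroup n) (s : Fin n → Kˣ) (x : K) :
    (walkU β s).val *ᵥ (fun _ => x) = fun _ => x := by
  have hmem : β ∈ Subgroup.closure (gen n '' Set.Iio (n - 1)) := by
    rw [closure_gen]; exact Subgroup.mem_top β
  revert s
  induction hmem using Subgroup.closure_induction with
  | mem y hy =>
    intro s
    obtain ⟨g, hg, rfl⟩ := hy
    rw [walkU_gen hg]
    exact wmat_mulVec_one hg _ _ x rfl
  | one =>
    intro s
    rw [walkU_one, Units.val_one, Matrix.one_mulVec]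
  | mul y z _ _ hy hz =>
    intro s
    rw [walkU_mul, Units.val_mul, ← Matrix.mulVec_mulVec, hz, hy]
  | inv y _ hy =>
    intro s
    rw [walkU_inv]
    set w := walkU y (s ∘ ((permHom n y)⁻¹ : Equiv.Perm (Fin n))) with hw
    have h4 : (w⁻¹).val * w.val = 1 := by rw [← Units.val_mul, inv_mul_cancel, Units.val_one]
    have h5 := hy (s ∘ ((permHom n y)⁻¹ : Equiv.Perm (Fin n)))
    rw [← hw] at h5
    calc (w⁻¹).val *ᵥ (fun _ => x) = (w⁻¹).val *ᵥ (w.val *ᵥ fun _ => x) := by rw [h5]
      _ = fun _ => x := by rw [Matrix.mulVec_mulVec, h4, Matrix.one_mulVec]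

end

/-- The trace on the image of an idempotent in terms of the walk matrix: if the extension of `E`
corresponds to `J * R` with `R * J = 1`, and the walk matrix maps the image of `J` into itself. -/
theorem trace_of_site {N c n : ℕ} {A : ℂ} (hA : Admissible N N A) (hc : c + 2 = N)
    (β : BraidGroup N) (E : Matrix (FusionPath N c N) (FusionPath N c N) ℂ)
    (J : Matrix (Fin N) (Fin n) ℂ) (R : Matrix (Fin n) (Fin N) ℂ) (W : Matrix (Fin n) (Fin n) ℂ)
    (hE : SM N c A * extM E 1 = J * R * SM N c A) (hRJ : R * J = 1)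
    (hW : (walkU β (fun _ => vA A hA.1)).val * J = J * W) (m : ℕ) :
    trace ((braidRep N c N A hA β).val ^ m * E) = chi A β ^ m * (trace (W ^ m) - 1) := by
  obtain ⟨S', h1, h2⟩ := exists_SM_inv (c := c) hA hc
  set M := (braidRep N c N A hA β).val with hM
  set χ := chi A β with hχ
  set w := (walkU β (fun _ => vA A hA.1)).val with hw
  set S := SM N c A with hS
  have hint : S * extM M χ = (χ • w) * S := by
    apply SM_mul_extM
    · rw [Matrix.smul_mul]
      exact Phi1_braid hA hc β
    · rw [Matrix.smul_mulVec, walkU_mulVec_one]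
      funext x
      simp
  have hpow : ∀ j : ℕ, S * extM M χ ^ j = (χ • w) ^ j * S := by
    intro j
    induction j with
    | zero => simp
    | succ j ih => rw [pow_succ, ← Matrix.mul_assoc, ih, Matrix.mul_assoc, hint, ← Matrix.mul_assoc,
        ← pow_succ]
  have hJ : ∀ j : ℕ, w ^ j * J = J * W ^ j := by
    intro j
    induction j with
    | zero => simp
    | succ j ih => rw [pow_succ, Matrix.mul_assoc, hW, ← Matrix.mul_assoc, ih, Matrix.mul_assoc,
        ← pow_succ]
  have hR : R * S * S' = R := by rw [Matrix.mul_assoc, h1, Matrix.mul_one]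
  have e1 : trace (extM M χ ^ m * extM E 1) = χ ^ m * trace (W ^ m) := by
    calc trace (extM M χ ^ m * extM E 1)
        = trace (S' * S * (extM M χ ^ m * extM E 1)) := by rw [h2, Matrix.one_mul]
      _ = trace (S' * (S * extM M χ ^ m) * extM E 1) := by simp only [Matrix.mul_assoc]
      _ = trace (S' * (χ • w) ^ m * (S * extM E 1)) := by rw [hpow]; simp only [Matrix.mul_assoc]
      _ = trace (S' * ((χ • w) ^ m * J * R * S)) := by rw [hE]; simp only [Matrix.mul_assoc]
      _ = trace (((χ • w) ^ m * J * R * S) * S') := Matrix.trace_mul_comm _ _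
      _ = trace ((χ • w) ^ m * J * R) := by
          rw [Matrix.mul_assoc _ S, h1, Matrix.mul_one]
      _ = χ ^ m * trace (J * W ^ m * R) := by
          rw [_root_.smul_pow, Matrix.smul_mul, Matrix.smul_mul, hJ, trace_smul, smul_eq_mul]
      _ = χ ^ m * trace (R * (J * W ^ m)) := by rw [Matrix.trace_mul_comm]
      _ = χ ^ m * trace (W ^ m) := by rw [← Matrix.mul_assoc, hRJ, Matrix.one_mul]
  rw [extM_pow, extM_mul, extM_trace, mul_one] at e1
  rw [mul_sub, mul_one, ← e1]
  ring

end Pool.Agent.H69.AMU
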