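import Pool.Agent.H69.AMM.Idem
import Pool.Agent.H69.AMM.Site2

set_option autoImplicit false

/-! # Block crossings act on block constant functions by coloured walk matrices -/

namespace Pool.Agent.H69.AMU

open Matrix

section
variable {N : ℕ} {K : Type} [CommRing K]

lemma walk_gen_const {g : ℕ} (hg : g < N - 1) (v : Kˣ) (F : Fin N → K) (j : ℕ) :
    gv 0 ((walkU (gen N g) (fun _ => v)).val *ᵥ F) j = if j = g then gv 0 F (g + 1)
      else if j = g + 1 then (v : K) * gv 0 F g + (1 - (v : K)) * gv 0 F (g + 1) else gv 0 F j := by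
  have e2 : (walkU (gen N g) (fun _ : Fin N => v)).val = wmat N g (v : K) := by
    rw [walkU_gen hg]
    show wmat N g _ = _
    rw [gv_of_lt 1 _ (by omega : g < N)]
  rw [e2, wmat_mulVec hg]

/-- The action of a run on functions. -/
lemma walk_run (v : Kˣ) (m l : ℕ) (h : m + l ≤ N - 1) (F : Fin N → K) (j : ℕ) :
    gv 0 ((walkU (run (gen N) m l) (fun _ => v)).val *ᵥ F) j =
      if j < m ∨ m + l < j then gv 0 F j
      else if j = m then gv 0 F (m + l)
      else (v : K) * gv 0 F (j - 1) + (1 - (v : K)) * gv 0 F (m + l) := by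
  induction l generalizing F with
  | zero =>
    have e : run (gen N) m 0 = 1 := rfl
    rw [e, walkU_one, Units.val_one, Matrix.one_mulVec, Nat.add_zero]
    by_cases h1 : j < m ∨ m < j
    · rw [if_pos h1]
    · have h2 : j = m := by omega
      rw [if_neg h1, if_pos h2, h2]
  | succ l ih =>
    rw [run, walkU_mul_const, Units.val_mul, ← Matrix.mulVec_mulVec, ih (by omega)]
    have hg : m + l < N - 1 := by omega
    rw [walk_gen_const hg, walk_gen_const hg, walk_gen_const hg]
    rcases lt_trichotomy j m with h1 | h1 | h1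
    · rw [if_pos (Or.inl h1), if_pos (Or.inl h1), if_neg (by omega), if_neg (by omega)]
    · subst h1
      rw [if_neg (by omega), if_pos rfl, if_pos rfl, if_neg (by omega), if_pos rfl]
      rfl
    · by_cases h2 : j = m + l + 1
      · subst h2
        rw [if_pos (by omega), if_neg (by omega), if_pos rfl, if_neg (by omega), if_neg (by omega),
          Nat.add_sub_cancel]
        rfl
      · by_cases h3 : m + l + 1 < j
        · rw [if_pos (by omega), if_neg (by omega), if_neg (by omega), if_pos (by omega)]
        · rw [if_neg (by omega), if_neg (by omega), if_neg (by omega), if_neg (by omega),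
            if_pos rfl, if_neg (by omega), if_neg (by omega)]
          rfl

/-- The action of a block crossing on functions constant on the two blocks. -/
lemma walk_blk (v : Kˣ) (m a b : ℕ) (h : m + a + b ≤ N) (F : Fin N → K) (x y : K)
    (hy : ∀ j, m ≤ j → j < m + b → gv 0 F j = y)
    (hx : ∀ j, m + b ≤ j → j < m + b + a → gv 0 F j = x) (j : ℕ) :
    gv 0 ((walkU (blk (gen N) m a b) (fun _ => v)).val *ᵥ F) j =
      if j < m ∨ m + a + b ≤ j then gv 0 F j
      else if j < m + a then x else (v : K) ^ a * y + (1 - (v : K) ^ a) * x := by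
  induction a generalizing j with
  | zero =>
    have e : blk (gen N) m 0 b = 1 := rfl
    rw [e, walkU_one, Units.val_one, Matrix.one_mulVec, Nat.add_zero]
    by_cases h1 : j < m ∨ m + b ≤ j
    · rw [if_pos h1]
    · rw [if_neg h1, if_neg (by omega), hy j (by omega) (by omega)]
      ring
  | succ a ih =>
    have ih' := ih (by omega) (fun j hj hj' => hx j hj (by omega))
    have e : blk (gen N) m (a + 1) b = run (gen N) (m + a) b * blk (gen N) m a b := rfl
    rw [e, walkU_mul_const, Units.val_mul, ← Matrix.mulVec_mulVec, walk_run v _ _ (by omega), ih',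
      ih', ih']
    have e1 : gv 0 F (m + a + b) = x := hx _ (by omega) (by omega)
    have e2 : (if m + a + b < m ∨ m + a + b ≤ m + a + b then gv 0 F (m + a + b)
        else if m + a + b < m + a then x else (v : K) ^ a * y + (1 - (v : K) ^ a) * x) = x := by
      rw [if_pos (Or.inr le_rfl), e1]
    rw [e2]
    by_cases h1 : j < m
    · rw [if_pos (by omega), if_pos (by omega), if_pos (by omega)]
    · by_cases h2 : m + (a + 1) + b ≤ j
      · rw [if_pos (by omega), if_pos (by omega), if_pos (by omega)]
      · by_cases h3 : j < m + a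
        · rw [if_pos (by omega), if_neg (by omega), if_pos h3, if_neg (by omega), if_pos (by omega)]
        · by_cases h4 : j = m + a
          · rw [if_neg (by omega), if_pos h4, if_neg (by omega), if_pos (by omega)]
          · rw [if_neg (by omega), if_neg h4, if_neg (by omega), if_neg (by omega),
              if_neg (by omega), if_neg (by omega), pow_succ]
            ring

end

/-- The matrix of block constant functions. -/
def blockMat {n N : ℕ} (k : ColVec n N) (K : Type) [CommRing K] : Matrix (Fin N) (Fin n) K :=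
  fun x i => if offset k.1 i ≤ x ∧ (x : ℕ) < offset k.1 i + k.1 i then 1 else 0

section
variable {n N : ℕ}

lemma exists_block (k : ColVec n N) {x : ℕ} (hx : x < N) :
    ∃ i : Fin n, offset k.1 i ≤ x ∧ x < offset k.1 i + k.1 i := by
  have hn : x < offset k.1 n := by rw [k.offset_last]; exact hx
  have key : ∀ m, m ≤ n → x < offset k.1 m → ∃ i : Fin n, offset k.1 i ≤ x ∧ x < offset k.1 i + k.1 i := by
    intro m
    induction m with
    | zero =>
      intro _ h
      rw [offset_zero] at h
      omega
    | succ m ih =>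
      intro hm h
      by_cases h1 : x < offset k.1 m
      · exact ih (by omega) h1
      · refine ⟨⟨m, by omega⟩, by simpa using h1, ?_⟩
        rw [offset_succ k.1 (by omega : m < n)] at h
        exact h
  exact key n le_rfl hn

lemma block_unique (k : ColVec n N) {x : ℕ} {i j : Fin n}
    (hi : offset k.1 i ≤ x ∧ x < offset k.1 i + k.1 i)
    (hj : offset k.1 j ≤ x ∧ x < offset k.1 j + k.1 j) : i = j := by
  have h1 := offset_succ k.1 i.2
  have h2 := offset_succ k.1 j.2
  have e1 : k.1 ⟨i, i.2⟩ = k.1 i := rfl
  have e2 : k.1 ⟨j, j.2⟩ = k.1 j := rfl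
  rcases lt_trichotomy (i : ℕ) j with h | h | h
  · have := offset_mono k.1 (by omega : (i : ℕ) + 1 ≤ j)
    omega
  · exact Fin.ext h
  · have := offset_mono k.1 (by omega : (j : ℕ) + 1 ≤ i)
    omega

variable {K : Type} [CommRing K]

lemma blockMat_mulVec (k : ColVec n N) (f : Fin n → K) {x : ℕ} (hx : x < N) {i : Fin n}
    (h : offset k.1 i ≤ x ∧ x < offset k.1 i + k.1 i) :
    gv 0 (blockMat k K *ᵥ f) x = f i := by
  rw [gv_of_lt 0 _ hx, Matrix.mulVec, dotProduct, Finset.sum_eq_single i]
  · rw [blockMat, if_pos h, one_mul]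
  · intro j _ hj
    rw [blockMat, if_neg, zero_mul]
    intro h'
    exact hj (block_unique k h' h)
  · intro h'
    exact absurd (Finset.mem_univ _) h'

/-- The generator case. -/
lemma walk_blockMat_gen {b : ℕ} (hb : b < n - 1) (k : ColVec n N) (v : Kˣ) :
    (walkU (cabled k (gen n b)) (fun _ => v)).val * blockMat (k.perm (permHom n (gen n b))) K
      = blockMat k K * (walkU (gen n b) (fun j => v ^ k.1 j)).val := by
  have hp : permHom n (gen n b) = adj n b hb := permHom_gen hb
  have e1 := offset_succ k.1 (by omega : b < n)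
  have e2 := offset_succ k.1 (by omega : b + 1 < n)
  have e3 := offset_le k.1 (b + 1 + 1)
  have e4 := k.2
  have hw : (walkU (gen n b) (fun j => v ^ k.1 j)).val
      = wmat n b ((v : K) ^ k.1 ⟨b, by omega⟩) := by
    rw [walkU_gen hb]
    show wmat n b _ = _
    rw [gv_of_lt 1 _ (by omega : b < n), Units.val_pow_eq_pow_val]
  rw [hp, cabled_gen hb, hw]
  set m := offset k.1 b with hm
  set a := k.1 ⟨b, by omega⟩ with ha
  set b' := k.1 ⟨b + 1, by omega⟩ with hb'
  set k' := k.perm (adj n b hb) with hk'
  have f1 : offset k'.1 b = m := offset_adj k.1 hb (by omega)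
  have f2 : offset k'.1 (b + 1) = m + b' := offset_adj_succ k.1 hb
  have f3 : k'.1 ⟨b, by omega⟩ = b' := comp_adj_left k.1 hb
  have f4 : k'.1 ⟨b + 1, by omega⟩ = a := comp_adj_right k.1 hb
  have hvec : ∀ f : Fin n → K, ∀ x : Fin N,
      ((walkU (blk (gen N) m a b') (fun _ => v)).val *ᵥ (blockMat k' K *ᵥ f)) x
      = (blockMat k K *ᵥ (wmat n b ((v : K) ^ a) *ᵥ f)) x := by
    intro f x
    set F := blockMat k' K *ᵥ f with hF
    have hy : ∀ j, m ≤ j → j < m + b' → gv 0 F j = f ⟨b, by omega⟩ := by
      intro j hj hj'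
      apply blockMat_mulVec k' f (by omega)
      simp only [f1, f3]
      omega
    have hx : ∀ j, m + b' ≤ j → j < m + b' + a → gv 0 F j = f ⟨b + 1, by omega⟩ := by
      intro j hj hj'
      apply blockMat_mulVec k' f (by omega)
      simp only [f2, f4]
      omega
    have hL := walk_blk v m a b' (by omega) F _ _ hy hx x
    obtain ⟨i, hi⟩ := exists_block k x.2
    have hR := blockMat_mulVec k (wmat n b ((v : K) ^ a) *ᵥ f) x.2 hi
    have hR2 := wmat_mulVec hb ((v : K) ^ a) f i
    rw [gv_val] at hL hR hR2
    rw [hL, hR, hR2]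
    have h1 := offset_succ k.1 i.2
    have e1' : k.1 ⟨i, i.2⟩ = k.1 i := rfl
    rcases lt_trichotomy (i : ℕ) b with h | h | h
    · have h2 := offset_mono k.1 (by omega : (i : ℕ) + 1 ≤ b)
      rw [if_pos (by omega), if_neg (by omega), if_neg (by omega), gv_val 0 f i]
      apply blockMat_mulVec k' f x.2
      have g1 : offset k'.1 i = offset k.1 i := offset_adj k.1 hb (by omega)
      have g2 : k'.1 i = k.1 i := comp_adj_apply k.1 hb i.2 (by omega) (by omega)
      rw [g1, g2]
      exact hi
    · have hi' : i = ⟨b, by omega⟩ := Fin.ext h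
      have g2 : k.1 i = a := by rw [hi']
      rw [h, g2, ← hm] at hi
      rw [if_neg (by omega), if_pos (by omega), if_pos h, gv_of_lt 0 _ (by omega : b + 1 < n)]
    · by_cases h' : (i : ℕ) = b + 1
      · have hi' : i = ⟨b + 1, by omega⟩ := Fin.ext h'
        have g2 : k.1 i = b' := by rw [hi']
        rw [h', g2, e1] at hi
        rw [if_neg (by omega), if_neg (by omega), if_neg (by omega), if_pos h',
          gv_of_lt 0 _ (by omega : b + 1 < n), gv_of_lt 0 _ (by omega : b < n)]
      · have h2 := offset_mono k.1 (by omega : b + 1 + 1 ≤ (i : ℕ))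
        rw [if_pos (by omega), if_neg (by omega), if_neg (by omega), gv_val 0 f i]
        apply blockMat_mulVec k' f x.2
        have g1 : offset k'.1 i = offset k.1 i := offset_adj k.1 hb (by omega)
        have g2 : k'.1 i = k.1 i := comp_adj_apply k.1 hb i.2 (by omega) (by omega)
        rw [g1, g2]
        exact hi
  apply Matrix.ext_of_mulVec_single
  intro c
  rw [← Matrix.mulVec_mulVec, ← Matrix.mulVec_mulVec]
  funext x
  exact hvec _ x

/-- Block crossings intertwine the coloured walk matrices. -/
theorem walk_blockMat (β : BraidGroup n) (k : ColVec n N) (v : Kˣ) :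
    (walkU (cabled k β) (fun _ => v)).val * blockMat (k.perm (permHom n β)) K
      = blockMat k K * (walkU β (fun j => v ^ k.1 j)).val := by
  have hmem : β ∈ Subgroup.closure (gen n '' Set.Iio (n - 1)) := by
    rw [closure_gen]; exact Subgroup.mem_top β
  revert k
  induction hmem using Subgroup.closure_induction with
  | mem x hx =>
    intro k
    obtain ⟨b, hb, rfl⟩ := hx
    exact walk_blockMat_gen hb k v
  | one =>
    intro k
    rw [cabled_one, map_one, walkU_one, walkU_one, Units.val_one, ColVec.perm_one, Matrix.one_mul,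
      Units.val_one, Matrix.mul_one]
  | mul x y _ _ hx hy =>
    intro k
    have e : (fun j => v ^ (k.perm (permHom n x)).1 j) = (fun j => v ^ k.1 j) ∘ permHom n x := rfl
    have hy' := hy (k.perm (permHom n x))
    rw [e] at hy'
    rw [cabled_mul, map_mul, walkU_mul_const, walkU_mul, Units.val_mul, Units.val_mul,
      ColVec.perm_mul, Matrix.mul_assoc, hy', ← Matrix.mul_assoc, hx, Matrix.mul_assoc]
  | inv x _ hx =>
    intro k
    have h0 := hx (k.perm (permHom n x)⁻¹)
    have h1 : cabled k x⁻¹ = (cabled (k.perm (permHom n x)⁻¹) x)⁻¹ := by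
      have h2 := cabled_mul k x⁻¹ x
      rw [inv_mul_cancel, cabled_one, map_inv] at h2
      exact eq_inv_of_mul_eq_one_left h2.symm
    rw [← ColVec.perm_mul, inv_mul_cancel, ColVec.perm_one] at h0
    have e : (fun j => v ^ (k.perm (permHom n x)⁻¹).1 j)
        = (fun j => v ^ k.1 j) ∘ ((permHom n x)⁻¹ : Equiv.Perm (Fin n)) := rfl
    rw [e] at h0
    rw [h1, map_inv, walkU_inv_const, walkU_inv]
    set g := walkU (cabled (k.perm (permHom n x)⁻¹) x) (fun _ : Fin N => v)
    set w := walkU x ((fun j => v ^ k.1 j) ∘ ((permHom n x)⁻¹ : Equiv.Perm (Fin n)))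
    have h3 : (g⁻¹).val * g.val = 1 := by rw [← Units.val_mul, inv_mul_cancel, Units.val_one]
    have h4 : w.val * (w⁻¹).val = 1 := by rw [← Units.val_mul, mul_inv_cancel, Units.val_one]
    calc (g⁻¹).val * blockMat (k.perm (permHom n x)⁻¹) K
        = (g⁻¹).val * (blockMat (k.perm (permHom n x)⁻¹) K * w.val) * (w⁻¹).val := by
          rw [Matrix.mul_assoc, Matrix.mul_assoc, h4, Matrix.mul_one]
      _ = ((g⁻¹).val * g.val) * blockMat k K * (w⁻¹).val := by
          rw [← h0]; simp only [Matrix.mul_assoc]
      _ = blockMat k K * (w⁻¹).val := by rw [h3, Matrix.one_mul]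

lemma walk_blockMat_pure {β : BraidGroup n} (hβ : β ∈ pureBraid n) (k : ColVec n N) (v : Kˣ) :
    (walkU (cabled k β) (fun _ => v)).val * blockMat k K
      = blockMat k K * (walkU β (fun j => v ^ k.1 j)).val := by
  have h : permHom n β = 1 := hβ
  have h1 := walk_blockMat (K := K) β k v
  rwa [h, ColVec.perm_one] at h1

end

end Pool.Agent.H69.AMU
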