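import Mathlib
import Pool.Agent.H69.AMU.JW

set_option autoImplicit false

namespace Pool.Agent.H69.AMU

/-! ### Offsets of colour vectors -/

/-- The number of strands in the blocks before block `i`, when block `j` has `k j` strands. -/
def offset {n : ℕ} (k : Fin n → ℕ) (i : ℕ) : ℕ := ∑ j : Fin n, if (j : ℕ) < i then k j else 0

section
variable {n : ℕ} (k : Fin n → ℕ)

lemma offset_zero : offset k 0 = 0 := by simp [offset]

lemma offset_last : offset k n = ∑ j, k j := by simp [offset]

lemma offset_succ {i : ℕ} (hi : i < n) : offset k (i + 1) = offset k i + k ⟨i, hi⟩ := by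
  unfold offset
  have h : ∀ j : Fin n, (if (j : ℕ) < i + 1 then k j else 0)
      = (if (j : ℕ) < i then k j else 0) + (if j = ⟨i, hi⟩ then k j else 0) := by
    intro j
    by_cases h1 : (j : ℕ) < i
    · rw [if_pos (by omega), if_pos h1, if_neg (by rw [Fin.ext_iff]; simp; omega), add_zero]
    · by_cases h2 : (j : ℕ) = i
      · rw [if_pos (by omega), if_neg h1, if_pos (Fin.ext h2), zero_add]
      · rw [if_neg (by omega), if_neg h1, if_neg (by rw [Fin.ext_iff]; simpa using h2), add_zero]
  rw [Finset.sum_congr rfl fun j _ => h j, Finset.sum_add_distrib, Finset.sum_ite_eq']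
  simp

lemma offset_mono {i j : ℕ} (h : i ≤ j) : offset k i ≤ offset k j := by
  unfold offset
  apply Finset.sum_le_sum
  intro a _
  split_ifs <;> omega

lemma offset_le (i : ℕ) : offset k i ≤ ∑ j, k j := by
  unfold offset
  apply Finset.sum_le_sum
  intro a _
  split_ifs <;> omega

lemma offset_perm (π : Equiv.Perm (Fin n)) (i : ℕ) (h : ∀ j : Fin n, ((π j : ℕ) < i ↔ (j : ℕ) < i)) :
    offset (k ∘ π) i = offset k i := by
  unfold offset
  have h1 := Equiv.sum_comp π (fun j : Fin n => if (j : ℕ) < i then k j else 0)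
  rw [← h1]
  apply Finset.sum_congr rfl
  intro j _
  by_cases hj : (j : ℕ) < i
  · rw [if_pos hj, if_pos ((h j).2 hj)]
    rfl
  · rw [if_neg hj, if_neg (fun h' => hj ((h j).1 h'))]

/-- The adjacent transposition. -/
def adj (n : ℕ) (i : ℕ) (hi : i < n - 1) : Equiv.Perm (Fin n) :=
  Equiv.swap ⟨i, by omega⟩ ⟨i + 1, by omega⟩

lemma adj_val {i : ℕ} (hi : i < n - 1) (j : Fin n) : ((adj n i hi j : Fin n) : ℕ)
    = if (j : ℕ) = i then i + 1 else if (j : ℕ) = i + 1 then i else j := by
  unfold adj
  by_cases h1 : (j : ℕ) = i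
  · have : j = ⟨i, by omega⟩ := Fin.ext h1
    rw [if_pos h1, this, Equiv.swap_apply_left]
  · by_cases h2 : (j : ℕ) = i + 1
    · have : j = ⟨i + 1, by omega⟩ := Fin.ext h2
      rw [if_neg h1, if_pos h2, this, Equiv.swap_apply_right]
    · rw [if_neg h1, if_neg h2, Equiv.swap_apply_of_ne_of_ne]
      · rw [Ne, Fin.ext_iff]; exact h1
      · rw [Ne, Fin.ext_iff]; exact h2

lemma offset_adj {i : ℕ} (hi : i < n - 1) {j : ℕ} (hj : j ≠ i + 1) :
    offset (k ∘ adj n i hi) j = offset k j := by
  apply offset_perm
  intro a
  rw [adj_val]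
  split_ifs <;> omega

lemma comp_adj_apply {i : ℕ} (hi : i < n - 1) {j : ℕ} (hj : j < n) (h1 : j ≠ i) (h2 : j ≠ i + 1) :
    (k ∘ adj n i hi) ⟨j, hj⟩ = k ⟨j, hj⟩ := by
  show k (adj n i hi ⟨j, hj⟩) = _
  congr 1
  apply Fin.ext
  rw [adj_val]
  simp [h1, h2]

lemma comp_adj_left {i : ℕ} (hi : i < n - 1) :
    (k ∘ adj n i hi) ⟨i, by omega⟩ = k ⟨i + 1, by omega⟩ := by
  show k (adj n i hi ⟨i, by omega⟩) = _
  congr 1
  apply Fin.ext
  rw [adj_val]
  simp

lemma comp_adj_right {i : ℕ} (hi : i < n - 1) :
    (k ∘ adj n i hi) ⟨i + 1, by omega⟩ = k ⟨i, by omega⟩ := by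
  show k (adj n i hi ⟨i + 1, by omega⟩) = _
  congr 1
  apply Fin.ext
  rw [adj_val]
  simp

lemma offset_adj_succ {i : ℕ} (hi : i < n - 1) :
    offset (k ∘ adj n i hi) (i + 1) = offset k i + k ⟨i + 1, by omega⟩ := by
  rw [offset_succ _ (by omega : i < n), offset_adj k hi (by omega), comp_adj_left]

end

/-! ### The group of coloured braids -/

/-- Colour vectors of given total. -/
def ColVec (n N : ℕ) : Type := {k : Fin n → ℕ // ∑ j, k j = N}

/-- Permuting a colour vector. -/
def ColVec.perm {n N : ℕ} (k : ColVec n N) (π : Equiv.Perm (Fin n)) : ColVec n N :=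
  ⟨k.1 ∘ π, by
    have := Equiv.sum_comp π k.1
    simpa [Function.comp] using this.trans k.2⟩

lemma ColVec.perm_one {n N : ℕ} (k : ColVec n N) : k.perm 1 = k := rfl

lemma ColVec.perm_mul {n N : ℕ} (k : ColVec n N) (π τ : Equiv.Perm (Fin n)) :
    k.perm (π * τ) = (k.perm π).perm τ := rfl

/-- The action of permutations on functions of the colour vector. -/
def permAct (n N : ℕ) (G : Type) [Group G] : Equiv.Perm (Fin n) →* MulAut (ColVec n N → G) where
  toFun π :=
    { toFun := fun f k => f (k.perm π)
      invFun := fun f k => f (k.perm π⁻¹)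
      left_inv := fun f => by
        funext k
        show f ((k.perm π⁻¹).perm π) = f k
        rw [← ColVec.perm_mul, inv_mul_cancel, ColVec.perm_one]
      right_inv := fun f => by
        funext k
        show f ((k.perm π).perm π⁻¹) = f k
        rw [← ColVec.perm_mul, mul_inv_cancel, ColVec.perm_one]
      map_mul' := fun _ _ => rfl }
  map_one' := by
    apply MulEquiv.ext
    intro f
    rfl
  map_mul' π τ := by
    apply MulEquiv.ext
    intro f
    rfl

lemma permAct_apply {n N : ℕ} {G : Type} [Group G] (π : Equiv.Perm (Fin n)) (f : ColVec n N → G)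
    (k : ColVec n N) : permAct n N G π f k = f (k.perm π) := rfl

/-- Functions of the colour vector with values in `G`, extended by permutations. -/
abbrev Mixed (n N : ℕ) (G : Type) [Group G] : Type := (ColVec n N → G) ⋊[permAct n N G] Equiv.Perm (Fin n)

/-- The block crossing of blocks `i` and `i + 1` of a coloured configuration. -/
def mixedGen {n N : ℕ} {G : Type} [Group G] (s : ℕ → G) (i : ℕ) : Mixed n N G :=
  if hi : i < n - 1 then
    ⟨fun k => blk s (offset k.1 i) (k.1 ⟨i, by omega⟩) (k.1 ⟨i + 1, by omega⟩), adj n i hi⟩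
  else 1

lemma mixedGen_left {n N : ℕ} {G : Type} [Group G] (s : ℕ → G) {i : ℕ} (hi : i < n - 1)
    (k : ColVec n N) : (mixedGen s i : Mixed n N G).left k
      = blk s (offset k.1 i) (k.1 ⟨i, by omega⟩) (k.1 ⟨i + 1, by omega⟩) := by
  rw [mixedGen, dif_pos hi]

lemma mixedGen_right {n N : ℕ} {G : Type} [Group G] (s : ℕ → G) {i : ℕ} (hi : i < n - 1) :
    (mixedGen s i : Mixed n N G).right = adj n i hi := by
  rw [mixedGen, dif_pos hi]

lemma adj_comm {n i j : ℕ} (hi : i < n - 1) (hj : j < n - 1) (hij : i + 2 ≤ j) :
    adj n i hi * adj n j hj = adj n j hj * adj n i hi := by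
  apply Equiv.ext
  intro a
  apply Fin.ext
  rw [Equiv.Perm.mul_apply, Equiv.Perm.mul_apply, adj_val, adj_val, adj_val, adj_val]
  split_ifs <;> omega

lemma adj_braid {n i : ℕ} (hi : i < n - 1) (hi' : i + 1 < n - 1) :
    adj n i hi * adj n (i + 1) hi' * adj n i hi
      = adj n (i + 1) hi' * adj n i hi * adj n (i + 1) hi' := by
  apply Equiv.ext
  intro a
  apply Fin.ext
  simp only [Equiv.Perm.mul_apply, adj_val]
  split_ifs <;> omega

lemma artinSeq_mixedGen {n N : ℕ} {G : Type} [Group G] {s : ℕ → G} (hs : ArtinSeq s (N - 1)) :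
    ArtinSeq (mixedGen s : ℕ → Mixed n N G) (n - 1) := by
  constructor
  · intro i j hij hj
    have hi : i < n - 1 := by omega
    apply SemidirectProduct.ext
    · funext k
      rw [SemidirectProduct.mul_left, SemidirectProduct.mul_left, Pi.mul_apply, Pi.mul_apply,
        permAct_apply, permAct_apply, mixedGen_left s hi, mixedGen_left s hj, mixedGen_left s hi,
        mixedGen_left s hj, mixedGen_right s hi, mixedGen_right s hj]
      have e1 : offset (k.perm (adj n i hi)).1 j = offset k.1 j := offset_adj k.1 hi (by omega)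
      have e2 : offset (k.perm (adj n j hj)).1 i = offset k.1 i := offset_adj k.1 hj (by omega)
      have e3 : (k.perm (adj n i hi)).1 ⟨j, by omega⟩ = k.1 ⟨j, by omega⟩ :=
        comp_adj_apply k.1 hi (by omega) (by omega) (by omega)
      have e4 : (k.perm (adj n i hi)).1 ⟨j + 1, by omega⟩ = k.1 ⟨j + 1, by omega⟩ :=
        comp_adj_apply k.1 hi (by omega) (by omega) (by omega)
      have e5 : (k.perm (adj n j hj)).1 ⟨i, by omega⟩ = k.1 ⟨i, by omega⟩ :=
        comp_adj_apply k.1 hj (by omega) (by omega) (by omega)
      have e6 : (k.perm (adj n j hj)).1 ⟨i + 1, by omega⟩ = k.1 ⟨i + 1, by omega⟩ :=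
        comp_adj_apply k.1 hj (by omega) (by omega) (by omega)
      rw [e1, e2, e3, e4, e5, e6]
      have h1 := offset_succ k.1 (by omega : i < n)
      have h2 := offset_succ k.1 (by omega : i + 1 < n)
      have h3 := offset_succ k.1 (by omega : j < n)
      have h4 := offset_succ k.1 (by omega : j + 1 < n)
      have h5 := offset_mono k.1 (by omega : i + 1 + 1 ≤ j)
      have h6 := offset_le k.1 (j + 1 + 1)
      have h7 := k.2
      exact blk_comm_blk hs _ _ _ _ _ _ (by omega) (by omega)
    · rw [SemidirectProduct.mul_right, SemidirectProduct.mul_right, mixedGen_right s hi,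
        mixedGen_right s hj]
      exact adj_comm hi hj hij
  · intro i hi'
    have hi : i < n - 1 := by omega
    apply SemidirectProduct.ext
    · funext k
      set a := k.1 ⟨i, by omega⟩ with ha
      set b := k.1 ⟨i + 1, by omega⟩ with hb
      set c := k.1 ⟨i + 1 + 1, by omega⟩ with hc
      set m := offset k.1 i with hm
      have h1 : offset k.1 (i + 1) = m + a := offset_succ k.1 (by omega : i < n)
      have h2 : offset k.1 (i + 1 + 1) = m + a + b := by
        rw [offset_succ k.1 (by omega : i + 1 < n), h1]
      have h3 : offset k.1 (i + 1 + 1 + 1) = m + a + b + c := by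
        rw [offset_succ k.1 (by omega : i + 1 + 1 < n), h2]
      have h4 := offset_le k.1 (i + 1 + 1 + 1)
      have h5 := k.2
      -- the configuration after the first crossing on the left hand side
      set k1 := k.perm (adj n i hi) with hk1
      have l1 : k1.1 ⟨i, by omega⟩ = b := comp_adj_left k.1 hi
      have l2 : k1.1 ⟨i + 1, by omega⟩ = a := comp_adj_right k.1 hi
      have l3 : k1.1 ⟨i + 1 + 1, by omega⟩ = c :=
        comp_adj_apply k.1 hi (by omega) (by omega) (by omega)
      have l4 : offset k1.1 i = m := offset_adj k.1 hi (by omega)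
      have l5 : offset k1.1 (i + 1) = m + b := by
        rw [offset_succ k1.1 (by omega : i < n), l4, l1]
      set k2 := k1.perm (adj n (i + 1) hi') with hk2
      have l6 : k2.1 ⟨i, by omega⟩ = b := by
        rw [← l1]; exact comp_adj_apply k1.1 hi' (by omega) (by omega) (by omega)
      have l7 : k2.1 ⟨i + 1, by omega⟩ = c := by
        rw [← l3]; exact comp_adj_left k1.1 hi'
      have l8 : offset k2.1 i = m := by
        rw [← l4]; exact offset_adj k1.1 hi' (by omega)
      -- the configuration after the first crossing on the right hand side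
      set k3 := k.perm (adj n (i + 1) hi') with hk3
      have r1 : k3.1 ⟨i, by omega⟩ = a := comp_adj_apply k.1 hi' (by omega) (by omega) (by omega)
      have r2 : k3.1 ⟨i + 1, by omega⟩ = c := comp_adj_left k.1 hi'
      have r3 : k3.1 ⟨i + 1 + 1, by omega⟩ = b := comp_adj_right k.1 hi'
      have r4 : offset k3.1 i = m := offset_adj k.1 hi' (by omega)
      set k4 := k3.perm (adj n i hi) with hk4
      have r5 : k4.1 ⟨i + 1, by omega⟩ = a := by
        rw [← r1]; exact comp_adj_right k3.1 hi
      have r6 : k4.1 ⟨i + 1 + 1, by omega⟩ = b := by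
        rw [← r3]; exact comp_adj_apply k3.1 hi (by omega) (by omega) (by omega)
      have r7 : offset k4.1 (i + 1) = m + c := by
        have : offset k4.1 i = m := by rw [← r4]; exact offset_adj k3.1 hi (by omega)
        rw [offset_succ k4.1 (by omega : i < n), this]
        congr 1
        rw [← r2]; exact comp_adj_left k3.1 hi
      have hL : (mixedGen s i * mixedGen s (i + 1) * mixedGen s i : Mixed n N G).left k
          = blk s m a b * blk s (m + b) a c * blk s m b c := by
        rw [SemidirectProduct.mul_left, SemidirectProduct.mul_left, Pi.mul_apply, Pi.mul_apply,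
          permAct_apply, permAct_apply, SemidirectProduct.mul_right, mixedGen_right s hi,
          mixedGen_right s hi', ColVec.perm_mul, ← hk1, ← hk2, mixedGen_left s hi,
          mixedGen_left s hi', mixedGen_left s hi, l2, l3, l5, l6, l7, l8, ← ha, ← hb, ← hm]
      have hR : (mixedGen s (i + 1) * mixedGen s i * mixedGen s (i + 1) : Mixed n N G).left k
          = blk s (m + a) b c * blk s m a c * blk s (m + c) a b := by
        rw [SemidirectProduct.mul_left, SemidirectProduct.mul_left, Pi.mul_apply, Pi.mul_apply,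
          permAct_apply, permAct_apply, SemidirectProduct.mul_right, mixedGen_right s hi,
          mixedGen_right s hi', ColVec.perm_mul, ← hk3, ← hk4, mixedGen_left s hi',
          mixedGen_left s hi, mixedGen_left s hi', r1, r2, r4, r5, r6, r7, ← hb, ← hc, h1]
      rw [hL, hR]
      have e1 : blk s m a (b + c) = blk s m a b * blk s (m + b) a c := blk_add hs m a b c (by omega)
      have e2 : blk s m a (c + b) = blk s m a c * blk s (m + c) a b := blk_add hs m a c b (by omega)
      rw [← e1, conj_blk m b c a (fun j hj hj' => blk_slide hs m a (b + c) (by omega) j hj (by omega)),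
        Nat.add_comm b c, e2, mul_assoc]
    · rw [SemidirectProduct.mul_right, SemidirectProduct.mul_right, SemidirectProduct.mul_right,
        SemidirectProduct.mul_right, mixedGen_right s hi, mixedGen_right s hi']
      exact adj_braid hi hi'

/-! ### The cabling homomorphism -/

/-- The cabling homomorphism for all colour vectors of total `N` at once. -/
def mixedHom (n N : ℕ) : BraidGroup n →* Mixed n N (BraidGroup N) :=
  braidLift (artinSeq_mixedGen (artinSeq_gen N))

lemma mixedHom_gen {n N i : ℕ} (hi : i < n - 1) :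
    mixedHom n N (gen n i) = mixedGen (gen N) i := braidLift_gen _ hi

/-- The permutation in the cabling homomorphism is the permutation of the braid. -/
lemma mixedHom_right {n N : ℕ} (β : BraidGroup n) : (mixedHom n N β).right = permHom n β := by
  have h : (SemidirectProduct.rightHom).comp (mixedHom n N) = permHom n := by
    apply PresentedGroup.ext
    intro g
    have e1 : (PresentedGroup.of g : BraidGroup n) = gen n g := (gen_of_lt g.2).symm
    rw [e1, MonoidHom.comp_apply, mixedHom_gen g.2, permHom_gen g.2]
    exact mixedGen_right (gen N) g.2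
  exact congrArg (fun f => f β) h

/-- The braid obtained from `β` by replacing the strand starting at position `j` by `k j` parallel
strands. -/
def cabled {n N : ℕ} (k : ColVec n N) (β : BraidGroup n) : BraidGroup N := (mixedHom n N β).left k

lemma cabled_gen {n N i : ℕ} (hi : i < n - 1) (k : ColVec n N) :
    cabled k (gen n i) = blk (gen N) (offset k.1 i) (k.1 ⟨i, by omega⟩) (k.1 ⟨i + 1, by omega⟩) := by
  rw [cabled, mixedHom_gen hi, mixedGen_left (gen N) hi]

lemma cabled_one {n N : ℕ} (k : ColVec n N) : cabled k (1 : BraidGroup n) = 1 := by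
  rw [cabled, map_one]
  rfl

lemma cabled_mul {n N : ℕ} (k : ColVec n N) (β γ : BraidGroup n) :
    cabled k (β * γ) = cabled k β * cabled (k.perm (permHom n β)) γ := by
  rw [cabled, map_mul, SemidirectProduct.mul_left, Pi.mul_apply, permAct_apply, mixedHom_right]
  rfl

lemma cabled_mul_pure {n N : ℕ} (k : ColVec n N) {β : BraidGroup n} (hβ : β ∈ pureBraid n)
    (γ : BraidGroup n) : cabled k (β * γ) = cabled k β * cabled k γ := by
  have h : permHom n β = 1 := hβ
  rw [cabled_mul, h, ColVec.perm_one]

/-- Cabling as a homomorphism on pure braids. -/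
def pureCable {n N : ℕ} (k : ColVec n N) : pureBraid n →* BraidGroup N where
  toFun β := cabled k β
  map_one' := cabled_one k
  map_mul' β γ := cabled_mul_pure k β.2 γ

lemma pureCable_apply {n N : ℕ} (k : ColVec n N) (β : pureBraid n) :
    pureCable k β = cabled k (β : BraidGroup n) := rfl

lemma cabled_inv_pure {n N : ℕ} (k : ColVec n N) {β : BraidGroup n} (hβ : β ∈ pureBraid n) :
    cabled k β⁻¹ = (cabled k β)⁻¹ := by
  have h := map_inv (pureCable k) ⟨β, hβ⟩
  exact h

lemma cabled_pow_pure {n N : ℕ} (k : ColVec n N) {β : BraidGroup n} (hβ : β ∈ pureBraid n)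
    (m : ℕ) : cabled k (β ^ m) = (cabled k β) ^ m := by
  have h := map_pow (pureCable k) ⟨β, hβ⟩ m
  exact h

/-- Functoriality of the group of coloured configurations. -/
def mapMixed {n N : ℕ} {G H : Type} [Group G] [Group H] (f : G →* H) :
    Mixed n N G →* Mixed n N H where
  toFun x := ⟨fun k => f (x.left k), x.right⟩
  map_one' := by
    apply SemidirectProduct.ext
    · funext k
      show f ((1 : Mixed n N G).left k) = 1
      rw [SemidirectProduct.one_left]
      exact map_one f
    · rfl
  map_mul' x y := by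
    apply SemidirectProduct.ext
    · funext k
      show f ((x * y).left k) = _
      rw [SemidirectProduct.mul_left, SemidirectProduct.mul_left, Pi.mul_apply, Pi.mul_apply,
        map_mul, permAct_apply, permAct_apply]
    · rfl

lemma mapMixed_gen {n N : ℕ} {G H : Type} [Group G] [Group H] (f : G →* H) (s : ℕ → G) {i : ℕ}
    (hi : i < n - 1) :
    mapMixed f (mixedGen s i : Mixed n N G) = mixedGen (fun j => f (s j)) i := by
  apply SemidirectProduct.ext
  · funext k
    show f ((mixedGen s i : Mixed n N G).left k) = _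
    rw [mixedGen_left s hi, mixedGen_left _ hi, map_blk]
  · show (mixedGen s i : Mixed n N G).right = _
    rw [mixedGen_right s hi, mixedGen_right _ hi]

/-- Squares of block crossings of involutions are trivial. -/
lemma mixedGen_sq {n N : ℕ} {G : Type} [Group G] {s : ℕ → G} (hs : ArtinSeq s (N - 1))
    (h2 : ∀ i < N - 1, s i * s i = 1) {i : ℕ} (hi : i < n - 1) :
    (mixedGen s i * mixedGen s i : Mixed n N G) = 1 := by
  apply SemidirectProduct.ext
  · funext k
    rw [SemidirectProduct.mul_left, Pi.mul_apply, permAct_apply, mixedGen_right s hi,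
      mixedGen_left s hi, mixedGen_left s hi]
    have l1 : (k.perm (adj n i hi)).1 ⟨i, by omega⟩ = k.1 ⟨i + 1, by omega⟩ :=
      comp_adj_left k.1 hi
    have l2 : (k.perm (adj n i hi)).1 ⟨i + 1, by omega⟩ = k.1 ⟨i, by omega⟩ :=
      comp_adj_right k.1 hi
    have l3 : offset (k.perm (adj n i hi)).1 i = offset k.1 i := offset_adj k.1 hi (by omega)
    rw [l1, l2, l3]
    have h3 := offset_succ k.1 (by omega : i < n)
    have h4 := offset_succ k.1 (by omega : i + 1 < n)
    have h5 := offset_le k.1 (i + 1 + 1)
    have h6 := k.2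
    have h7 := blk_inv hs h2 (offset k.1 i) (k.1 ⟨i + 1, by omega⟩) (k.1 ⟨i, by omega⟩) (by omega)
    rw [← h7]
    exact inv_mul_cancel _
  · rw [SemidirectProduct.mul_right, mixedGen_right s hi]
    exact Equiv.swap_mul_self _ _

/-- The cable of a pure braid is a pure braid. -/
lemma cabled_pure {n N : ℕ} (k : ColVec n N) {β : BraidGroup n} (hβ : β ∈ pureBraid n) :
    cabled k β ∈ pureBraid N := by
  let ψ : BraidGroup n →* Mixed n N (Equiv.Perm (Fin N)) :=
    (mapMixed (permHom N)).comp (mixedHom n N)
  have hle : pureBraid n ≤ ψ.ker := by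
    rw [pureBraid_eq]
    apply Subgroup.normalClosure_le_normal
    rintro _ ⟨i, hi, rfl⟩
    show ψ (gen n i * gen n i) = 1
    have hs := (artinSeq_gen N).map (permHom N)
    have h3 : ∀ j < N - 1, permHom N (gen N j) * permHom N (gen N j) = 1 := by
      intro j hj
      rw [permHom_gen hj, Equiv.swap_mul_self]
    have h4 : ψ (gen n i) = mixedGen (fun j => permHom N (gen N j)) i := by
      show mapMixed (permHom N) (mixedHom n N (gen n i)) = _
      rw [mixedHom_gen hi, mapMixed_gen _ _ hi]
    rw [map_mul, h4]
    exact mixedGen_sq hs h3 hi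
  have h1 : ψ β = 1 := hle hβ
  have h2 := congrArg (fun x : Mixed n N (Equiv.Perm (Fin N)) => x.left k) h1
  exact h2

end Pool.Agent.H69.AMU
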