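import Pool.Agent.H69.AMM.Assem
import Pool.Agent.H61.KR.KOut

set_option autoImplicit false

/-! # The AMU conjecture in genus zero -/

namespace Pool.Agent.H69.AMU

open Pool.Agent.H70.KR LaurentPolynomial Matrix

/-- A pure braid with at least three strands which does not fix an essential curve has infinite
projective order at all large levels for some even colours `k 0, ..., k (n-1)` of total `N` and
`c = N - 2` or `c = N - 4`. -/
theorem genus_zero {n : ℕ} (hn : 3 ≤ n) (b : pureBraid n) (hb : ¬ Reducible (b : BraidGroup n)) :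
    ∃ (N : ℕ) (k : ColVec n N) (c : ℕ), (∀ i, 0 < k.1 i ∧ Even (k.1 i)) ∧ Even c ∧
      (c + 2 = N ∨ c + 4 = N) ∧ EventuallyInfinite k c b := by
  let R : KRep n := ⟨Pool.Agent.H61.KR.kr n tU sU, fun k hk => Pool.Agent.H61.KR.kr_gen_entries tU sU hk⟩
  apply exists_colours hn R (Pool.Agent.H61.KR.kr n tU 1)
    (fun k hk => Pool.Agent.H61.KR.kr_gen_entries tU 1 hk) _ b hb
  intro b hfin
  apply Pool.Agent.H61.KR.out2 (by omega) b
  intro k hk hke
  exact hfin k (by omega) hke

end Pool.Agent.H69.AMU
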