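import Pool.Agent.H69.AMM.Cable
import Pool.Agent.H69.AMU.ColRep

set_option autoImplicit false

namespace Pool.Agent.H69.AMU

open FusionPath Matrix

/-- The product of the Jones-Wenzl idempotents of the first `i` blocks, when block `j` has `k j`
strands. -/
noncomputable def mixProj {R : Type*} [Ring R] [Algebra ℂ R] {n : ℕ} (u : ℕ → R) (A : ℂ)
    (k : Fin n → ℕ) : ℕ → R
  | 0 => 1
  | (i + 1) => mixProj u A k i *
      (if h : i < n then jonesWenzl u A (offset k i) (k ⟨i, h⟩) else 1)

section
variable {R : Type*} [Ring R] [Algebra ℂ R] {n : ℕ} {u : ℕ → R} {M : ℕ} {A : ℂ}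

lemma mixProj_succ (k : Fin n → ℕ) {i : ℕ} (hi : i < n) :
    mixProj u A k (i + 1) = mixProj u A k i * jonesWenzl u A (offset k i) (k ⟨i, hi⟩) := by
  rw [mixProj, dif_pos hi]

lemma mixProj_congr (k k' : Fin n → ℕ) (i : ℕ) (hi : i ≤ n)
    (h1 : ∀ j (hj : j < n), j < i → k' ⟨j, hj⟩ = k ⟨j, hj⟩)
    (h2 : ∀ j, j < i → offset k' j = offset k j) : mixProj u A k' i = mixProj u A k i := by
  induction i with
  | zero => rfl
  | succ i ih =>
    rw [mixProj_succ k' (by omega : i < n), mixProj_succ k (by omega : i < n),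
      ih (by omega) (fun j hj hj' => h1 j hj (by omega)) (fun j hj => h2 j (by omega)),
      h1 i (by omega) (by omega), h2 i (by omega)]

lemma mixProj_comm {x : R} (k : Fin n → ℕ) (i : ℕ) (hi : i ≤ n)
    (h : ∀ j, j + 1 < offset k i → x * u j = u j * x) :
    x * mixProj u A k i = mixProj u A k i * x := by
  induction i with
  | zero => simp [mixProj]
  | succ i ih =>
    have h0 := offset_succ k (by omega : i < n)
    rw [mixProj_succ k (by omega : i < n), ← mul_assoc, ih (by omega) (fun j hj => h j (by omega)),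
      mul_assoc, jonesWenzl_comm _ _ (fun j _ hj => h j (by omega)), mul_assoc]

lemma mixProj_comm_jonesWenzl (hu : TLSeq u M A) (k : Fin n → ℕ) (i : ℕ) (hi : i ≤ n) (m' k' : ℕ)
    (h : offset k i ≤ m') (hM : m' + k' ≤ M + 1) :
    mixProj u A k i * jonesWenzl u A m' k' = jonesWenzl u A m' k' * mixProj u A k i := by
  apply Eq.symm
  apply mixProj_comm k i hi
  intro j hj
  apply Eq.symm
  apply jonesWenzl_comm
  intro i' hi hi'
  exact hu.comm j i' (by omega) (by omega)

lemma mixProj_idem (hu : TLSeq u M A) (k : Fin n → ℕ) (i : ℕ) (hi : i ≤ n)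
    (hM : offset k i ≤ M + 1) (hΔ : ∀ (a : Fin n) (j : ℕ), j < k a → unknot A j ≠ 0) :
    mixProj u A k i * mixProj u A k i = mixProj u A k i := by
  induction i with
  | zero => simp [mixProj]
  | succ i ih =>
    have h0 := offset_succ k (by omega : i < n)
    rw [mixProj_succ k (by omega : i < n)]
    set P := mixProj u A k i with hP
    set J := jonesWenzl u A (offset k i) (k ⟨i, by omega⟩) with hJ
    have h1 : P * J = J * P :=
      mixProj_comm_jonesWenzl hu k i (by omega) (offset k i) (k ⟨i, by omega⟩) le_rfl (by omega)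
    have h2 : J * J = J := jonesWenzl_idem hu _ _ (by omega) (hΔ ⟨i, by omega⟩)
    calc P * J * (P * J) = P * (J * P) * J := by simp only [mul_assoc]
      _ = P * (P * J) * J := by rw [h1]
      _ = (P * P) * (J * J) := by simp only [mul_assoc]
      _ = P * J := by rw [ih (by omega) (by omega), h2]

/-- An element which exchanges the blocks `b` and `b + 1` intertwines the colour projectors. -/
lemma mixProj_swap (hu : TLSeq u M A) (k : Fin n → ℕ) {b : ℕ} (hb : b < n - 1) {x : R}
    (h1 : ∀ j, offset k b ≤ j → j + 1 < offset k b + k ⟨b + 1, by omega⟩ →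
      x * u j = u (j + k ⟨b, by omega⟩) * x)
    (h2 : ∀ j, offset k b ≤ j → j + 1 < offset k b + k ⟨b, by omega⟩ →
      x * u (j + k ⟨b + 1, by omega⟩) = u j * x)
    (h3 : ∀ j, j + 1 < offset k b → x * u j = u j * x)
    (hM : offset k n ≤ M + 1)
    (h4 : ∀ j, offset k (b + 2) ≤ j → j + 1 < offset k n → x * u j = u j * x)
    (i : ℕ) (hi : b + 2 ≤ i) (hin : i ≤ n) :
    x * mixProj u A (k ∘ adj n b hb) i = mixProj u A k i * x := by
  obtain ⟨d, rfl⟩ : ∃ d, i = b + 2 + d := ⟨i - (b + 2), by omega⟩
  clear hi
  induction d with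
  | zero =>
    have e1 := offset_succ k (by omega : b < n)
    have e2 := offset_succ k (by omega : b + 1 < n)
    have e3 := offset_mono k (by omega : b + 1 + 1 ≤ n)
    have f1 : offset (k ∘ adj n b hb) b = offset k b := offset_adj k hb (by omega)
    have f2 : offset (k ∘ adj n b hb) (b + 1) = offset k b + k ⟨b + 1, by omega⟩ :=
      offset_adj_succ k hb
    have f3 : (k ∘ adj n b hb) ⟨b, by omega⟩ = k ⟨b + 1, by omega⟩ := comp_adj_left k hb
    have f4 : (k ∘ adj n b hb) ⟨b + 1, by omega⟩ = k ⟨b, by omega⟩ := comp_adj_right k hb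
    have f5 : mixProj u A (k ∘ adj n b hb) b = mixProj u A k b := by
      apply mixProj_congr _ _ b (by omega)
      · intro j hj hj'
        exact comp_adj_apply k hb hj (by omega) (by omega)
      · intro j hj'
        exact offset_adj k hb (by omega)
    show x * mixProj u A (k ∘ adj n b hb) (b + 1 + 1) = mixProj u A k (b + 1 + 1) * x
    rw [mixProj_succ _ (by omega : b + 1 < n), mixProj_succ _ (by omega : b < n),
      mixProj_succ k (by omega : b + 1 < n), mixProj_succ k (by omega : b < n), f1, f2, f3, f4, f5,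
      e1]
    set m := offset k b with hm
    set p := k ⟨b, by omega⟩ with hp
    set q := k ⟨b + 1, by omega⟩ with hq
    have c1 : x * mixProj u A k b = mixProj u A k b * x := mixProj_comm k b (by omega) h3
    have c2 : x * jonesWenzl u A m q = jonesWenzl u A (m + p) q * x :=
      jonesWenzl_conj m p q h1
    have c3 : x * jonesWenzl u A (m + q) p = jonesWenzl u A m p * x :=
      jonesWenzl_conj' m q p h2
    have c4 := jonesWenzl_comm_jonesWenzl hu m p (m + p) q le_rfl (by omega)
    calc x * (mixProj u A k b * jonesWenzl u A m q * jonesWenzl u A (m + q) p)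
        = (x * mixProj u A k b) * jonesWenzl u A m q * jonesWenzl u A (m + q) p := by
          simp only [mul_assoc]
      _ = mixProj u A k b * (x * jonesWenzl u A m q) * jonesWenzl u A (m + q) p := by
          rw [c1]; simp only [mul_assoc]
      _ = mixProj u A k b * jonesWenzl u A (m + p) q * (x * jonesWenzl u A (m + q) p) := by
          rw [c2]; simp only [mul_assoc]
      _ = mixProj u A k b * (jonesWenzl u A (m + p) q * jonesWenzl u A m p) * x := by
          rw [c3]; simp only [mul_assoc]
      _ = (mixProj u A k b * jonesWenzl u A m p * jonesWenzl u A (m + p) q) * x := by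
          rw [← c4]; simp only [mul_assoc]
  | succ d ih =>
    have e1 := offset_succ k (by omega : b + 2 + d < n)
    have e2 := offset_mono k (by omega : b + 2 ≤ b + 2 + d)
    have e3 := offset_mono k (by omega : b + 2 + d + 1 ≤ n)
    have f1 : offset (k ∘ adj n b hb) (b + 2 + d) = offset k (b + 2 + d) :=
      offset_adj k hb (by omega)
    have f2 : (k ∘ adj n b hb) ⟨b + 2 + d, by omega⟩ = k ⟨b + 2 + d, by omega⟩ :=
      comp_adj_apply k hb (by omega) (by omega) (by omega)
    have c1 := ih (by omega)
    have c2 : x * jonesWenzl u A (offset k (b + 2 + d)) (k ⟨b + 2 + d, by omega⟩)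
        = jonesWenzl u A (offset k (b + 2 + d)) (k ⟨b + 2 + d, by omega⟩) * x :=
      jonesWenzl_comm _ _ (fun j hj hj' => h4 j (by omega) (by omega))
    show x * mixProj u A (k ∘ adj n b hb) (b + 2 + d + 1) = mixProj u A k (b + 2 + d + 1) * x
    rw [mixProj_succ _ (by omega : b + 2 + d < n), mixProj_succ k (by omega : b + 2 + d < n), f1, f2,
      ← mul_assoc, c1, mul_assoc, c2, mul_assoc]

lemma map_mixProj {S : Type*} [Ring S] [Algebra ℂ S] (φ : R →ₐ[ℂ] S)
    (hφ : ∀ m j, φ (jonesWenzl u A m j) = jonesWenzl (fun i => φ (u i)) A m j)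
    (k : Fin n → ℕ) (i : ℕ) :
    φ (mixProj u A k i) = mixProj (fun i => φ (u i)) A k i := by
  induction i with
  | zero => simp [mixProj]
  | succ i ih =>
    rw [mixProj, map_mul, ih, mixProj]
    by_cases h : i < n
    · rw [dif_pos h, dif_pos h, hφ]
    · rw [dif_neg h, dif_neg h, map_one]

end

/-- The idempotent matrix projecting the space `V(S^2; 1, ..., 1, c)` with `N` points coloured
`1` onto the space `V(S^2; k 0, ..., k (n-1), c)` with `n` points coloured `k 0, ..., k (n-1)`, of
total colour `N`: the product of the Jones-Wenzl idempotents of the `n` blocks of `k j` strands. -/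
noncomputable def mixIdem {n N : ℕ} (k : ColVec n N) (c L : ℕ) (A : ℂ) :
    Matrix (FusionPath N c L) (FusionPath N c L) ℂ :=
  mixProj (cupcap N c L A) A k.1 n

section
variable {n N c L : ℕ} {A : ℂ}

lemma ColVec.le (k : ColVec n N) (a : Fin n) : k.1 a ≤ N :=
  (Finset.single_le_sum (f := fun j => k.1 j) (fun _ _ => Nat.zero_le _)
    (Finset.mem_univ a)).trans (le_of_eq k.2)

lemma ColVec.offset_last (k : ColVec n N) : offset k.1 n = N := by
  rw [AMU.offset_last, k.2]

lemma mixIdem_idem (k : ColVec n N) (hA : Admissible N L A) (hk : ∀ a, k.1 a ≤ L + 1) :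
    mixIdem k c L A * mixIdem k c L A = mixIdem k c L A := by
  apply mixProj_idem (tlSeq_cupcap hA) k.1 n le_rfl
  · rw [k.offset_last]
    omega
  · intro a j hj
    have := hk a
    exact hA.2.1 j (by omega)

/-- Cabled braids intertwine the colour idempotents. -/
lemma braidRep_cabled_comm (hA : Admissible N L A) (β : BraidGroup n) (k : ColVec n N) :
    (braidRep N c L A hA (cabled k β)).val * mixIdem (k.perm (permHom n β)) c L A
      = mixIdem k c L A * (braidRep N c L A hA (cabled k β)).val := by
  have hgen : ∀ b, b < n - 1 → ∀ k : ColVec n N,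
      (braidRep N c L A hA (cabled k (gen n b))).val * mixIdem (k.perm (permHom n (gen n b))) c L A
      = mixIdem k c L A * (braidRep N c L A hA (cabled k (gen n b))).val := by
    intro b hb k
    have hs := (artinSeq_gen N).map (braidRep N c L A hA)
    have hp : permHom n (gen n b) = adj n b hb := permHom_gen hb
    have e1 := offset_succ k.1 (by omega : b < n)
    have e2 := offset_succ k.1 (by omega : b + 1 < n)
    have e3 := offset_le k.1 (b + 1 + 1)
    have e4 := k.2
    have e5 := k.offset_last
    rw [hp, cabled_gen hb, map_blk]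
    apply mixProj_swap (tlSeq_cupcap hA) k.1 hb
    · intro j hj hj'
      apply slide_cupcap hA (by omega) (by omega)
      exact blk_slide hs (offset k.1 b) (k.1 ⟨b, by omega⟩) (k.1 ⟨b + 1, by omega⟩) (by omega) j hj hj'
    · intro j hj hj'
      apply slide_cupcap hA (by omega) (by omega)
      exact blk_slide' hs (offset k.1 b) (k.1 ⟨b, by omega⟩) (k.1 ⟨b + 1, by omega⟩) (by omega) j hj hj'
    · intro j hj
      apply slide_cupcap hA (by omega) (by omega)
      exact (blk_comm_gen hs (offset k.1 b) (k.1 ⟨b, by omega⟩) (k.1 ⟨b + 1, by omega⟩) j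
        (Or.inl (by omega)) (by omega) (by omega)).symm
    · omega
    · intro j hj hj'
      have hj0 : offset k.1 (b + 1 + 1) ≤ j := hj
      apply slide_cupcap hA (by omega) (by omega)
      exact (blk_comm_gen hs (offset k.1 b) (k.1 ⟨b, by omega⟩) (k.1 ⟨b + 1, by omega⟩) j
        (Or.inr (by omega)) (by omega) (by omega)).symm
    · omega
    · omega
  have hmem : β ∈ Subgroup.closure (gen n '' Set.Iio (n - 1)) := by
    rw [closure_gen]; exact Subgroup.mem_top β
  revert k
  induction hmem using Subgroup.closure_induction with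
  | mem x hx =>
    intro k
    obtain ⟨b, hb, rfl⟩ := hx
    exact hgen b hb k
  | one =>
    intro k
    rw [cabled_one, map_one, map_one, Units.val_one, ColVec.perm_one, Matrix.one_mul, Matrix.mul_one]
  | mul x y _ _ hx hy =>
    intro k
    rw [cabled_mul, map_mul, map_mul, Units.val_mul, ColVec.perm_mul, Matrix.mul_assoc, hy,
      ← Matrix.mul_assoc, hx, Matrix.mul_assoc]
  | inv x _ hx =>
    intro k
    have h0 := hx (k.perm (permHom n x)⁻¹)
    have h1 : cabled k x⁻¹ = (cabled (k.perm (permHom n x)⁻¹) x)⁻¹ := by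
      have h2 := cabled_mul k x⁻¹ x
      rw [inv_mul_cancel, cabled_one, map_inv] at h2
      exact eq_inv_of_mul_eq_one_left h2.symm
    rw [← ColVec.perm_mul, inv_mul_cancel, ColVec.perm_one] at h0
    rw [h1, map_inv, map_inv]
    set g := braidRep N c L A hA (cabled (k.perm (permHom n x)⁻¹) x)
    have h3 : (g⁻¹ : GL (FusionPath N c L) ℂ).val * g.val = 1 := by
      rw [← Units.val_mul, inv_mul_cancel, Units.val_one]
    have h4 : g.val * (g⁻¹ : GL (FusionPath N c L) ℂ).val = 1 := by
      rw [← Units.val_mul, mul_inv_cancel, Units.val_one]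
    calc (g⁻¹ : GL (FusionPath N c L) ℂ).val * mixIdem (k.perm (permHom n x)⁻¹) c L A
        = (g⁻¹ : GL (FusionPath N c L) ℂ).val *
          (mixIdem (k.perm (permHom n x)⁻¹) c L A * g.val) *
          (g⁻¹ : GL (FusionPath N c L) ℂ).val := by
          rw [Matrix.mul_assoc, Matrix.mul_assoc, h4, Matrix.mul_one]
      _ = ((g⁻¹ : GL (FusionPath N c L) ℂ).val * g.val) * mixIdem k c L A *
          (g⁻¹ : GL (FusionPath N c L) ℂ).val := by
          rw [← h0]; simp only [Matrix.mul_assoc]
      _ = mixIdem k c L A * (g⁻¹ : GL (FusionPath N c L) ℂ).val := by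
          rw [h3, Matrix.one_mul]

lemma braidRep_cabled_comm_pure (hA : Admissible N L A) {β : BraidGroup n} (hβ : β ∈ pureBraid n)
    (k : ColVec n N) :
    (braidRep N c L A hA (cabled k β)).val * mixIdem k c L A
      = mixIdem k c L A * (braidRep N c L A hA (cabled k β)).val := by
  have h : permHom n β = 1 := hβ
  have h1 := braidRep_cabled_comm (c := c) hA β k
  rwa [h, ColVec.perm_one] at h1

end

end Pool.Agent.H69.AMU
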