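import Pool.Agent.H69.AMM.SiteIdem

set_option autoImplicit false

/-! # Universal colours -/

namespace Pool.Agent.H69.AMU

open Matrix

/-- Laurent polynomials in `n` variables with integer coefficients. -/
abbrev Lau (n : ℕ) : Type := AddMonoidAlgebra ℤ (Fin n → ℤ)

section
variable {n : ℕ} {K : Type} [CommRing K]

/-- The monomial with exponents `e`. -/
def mon (s : Fin n → Kˣ) (e : Fin n → ℤ) : Kˣ := ∏ j, s j ^ e j

lemma mon_zero (s : Fin n → Kˣ) : mon s 0 = 1 := by
  simp [mon]

lemma mon_add (s : Fin n → Kˣ) (e e' : Fin n → ℤ) : mon s (e + e') = mon s e * mon s e' := by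
  rw [mon, mon, mon, ← Finset.prod_mul_distrib]
  apply Finset.prod_congr rfl
  intro j _
  rw [Pi.add_apply, _root_.zpow_add]

lemma mon_smul (s : Fin n → Kˣ) (m : ℕ) (e : Fin n → ℤ) : mon s (m • e) = mon s e ^ m := by
  induction m with
  | zero => rw [zero_smul, pow_zero, mon_zero]
  | succ m ih => rw [succ_nsmul, mon_add, ih, pow_succ]

/-- The monomials as a homomorphism. -/
def monHom (s : Fin n → Kˣ) : Multiplicative (Fin n → ℤ) →* K where
  toFun e := (mon s (Multiplicative.toAdd e) : Kˣ)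
  map_one' := by rw [toAdd_one, mon_zero, Units.val_one]
  map_mul' e e' := by rw [toAdd_mul, mon_add, Units.val_mul]

/-- Evaluation of Laurent polynomials at units. -/
noncomputable def evL (s : Fin n → Kˣ) : Lau n →+* K :=
  (AddMonoidAlgebra.lift ℤ K (Fin n → ℤ) (monHom s)).toRingHom

lemma evL_single (s : Fin n → Kˣ) (e : Fin n → ℤ) (c : ℤ) :
    evL s (AddMonoidAlgebra.single e c) = c * (mon s e : Kˣ) := by
  show AddMonoidAlgebra.lift ℤ K (Fin n → ℤ) (monHom s) (AddMonoidAlgebra.single e c) = _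
  rw [AddMonoidAlgebra.lift_single, zsmul_eq_mul]
  rfl

/-- The variables. -/
noncomputable def XX (n : ℕ) (j : Fin n) : (Lau n)ˣ where
  val := AddMonoidAlgebra.single (Pi.single j 1) 1
  inv := AddMonoidAlgebra.single (-Pi.single j 1) 1
  val_inv := by
    rw [AddMonoidAlgebra.single_mul_single, add_neg_cancel, mul_one]
    rfl
  inv_val := by
    rw [AddMonoidAlgebra.single_mul_single, neg_add_cancel, mul_one]
    rfl

lemma mon_single (s : Fin n → Kˣ) (j : Fin n) : mon s (Pi.single j 1) = s j := by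
  rw [mon, Finset.prod_eq_single j]
  · rw [Pi.single_eq_same, zpow_one]
  · intro i _ hi
    rw [Pi.single_eq_of_ne hi, zpow_zero]
  · intro h
    exact absurd (Finset.mem_univ _) h

lemma evL_XX (s : Fin n → Kˣ) (j : Fin n) :
    Units.map (evL s).toMonoidHom (XX n j) = s j := by
  apply Units.ext
  show evL s (AddMonoidAlgebra.single (Pi.single j 1) 1) = _
  rw [evL_single, mon_single, Int.cast_one, one_mul]

end

/-! ### Naturality of the walk matrices -/

section
variable {n : ℕ} {R K : Type} [CommRing R] [CommRing K]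

lemma gv_comp {α β : Type} (f : α → β) (d : α) (s : Fin n → α) (j : ℕ) :
    gv (f d) (fun i => f (s i)) j = f (gv d s j) := by
  unfold gv
  split_ifs <;> rfl

/-- Walk matrices are natural in the ring. -/
lemma walkU_map (f : R →+* K) (β : BraidGroup n) (s : Fin n → Rˣ) :
    walkU β (fun j => Units.map f.toMonoidHom (s j))
      = Units.map (f.mapMatrix : Matrix (Fin n) (Fin n) R →+* Matrix (Fin n) (Fin n) K).toMonoidHom
        (walkU β s) := by
  have hmem : β ∈ Subgroup.closure (gen n '' Set.Iio (n - 1)) := by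
    rw [closure_gen]; exact Subgroup.mem_top β
  revert s
  induction hmem using Subgroup.closure_induction with
  | mem y hy =>
    intro s
    obtain ⟨g, hg, rfl⟩ := hy
    have hg' : g < n - 1 := hg
    rw [walkU_gen hg', walkU_gen hg']
    apply Units.ext
    have e := gv_comp (Units.map f.toMonoidHom) 1 s g
    rw [map_one] at e
    rw [e]
    show wmat n g _ = (wmat n g _).map f
    ext r c
    rw [Matrix.map_apply, wmat, wmat]
    have e1 : ((Units.map f.toMonoidHom (gv 1 s g) : Kˣ) : K) = f ((gv 1 s g : Rˣ) : R) := rfl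
    rw [e1]
    split_ifs <;> simp
  | one =>
    intro s
    rw [walkU_one, walkU_one, map_one]
  | mul y z _ _ hy hz =>
    intro s
    have e : (fun j => Units.map f.toMonoidHom (s j)) ∘ (permHom n y : Equiv.Perm (Fin n))
        = fun j => Units.map f.toMonoidHom ((s ∘ permHom n y) j) := rfl
    rw [walkU_mul, walkU_mul, map_mul, hy, e, hz]
  | inv y _ hy =>
    intro s
    have e : (fun j => Units.map f.toMonoidHom (s j)) ∘ ((permHom n y)⁻¹ : Equiv.Perm (Fin n))
        = fun j => Units.map f.toMonoidHom ((s ∘ ((permHom n y)⁻¹ : Equiv.Perm (Fin n))) j) := rfl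
    rw [walkU_inv, walkU_inv, map_inv, e, hy]

/-- The universal traces. -/
noncomputable def utrace (β : BraidGroup n) (m : ℕ) : Lau n :=
  trace ((walkU β (XX n)).val ^ m)

lemma evL_utrace (β : BraidGroup n) (m : ℕ) (s : Fin n → Kˣ) :
    evL s (utrace β m) = trace ((walkU β s).val ^ m) := by
  have h1 := walkU_map (evL s) β (XX n)
  have h2 : (fun j => Units.map (evL s).toMonoidHom (XX n j)) = s := by
    funext j
    exact evL_XX s j
  rw [h2] at h1
  have h3 : (walkU β s).val = (walkU β (XX n)).val.map (evL s) := by rw [h1]; rfl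
  have h4 : (walkU β s).val ^ m = ((walkU β (XX n)).val ^ m).map (evL s) := by
    rw [h3]
    exact (map_pow (evL s).mapMatrix (walkU β (XX n)).val m).symm
  rw [h4, utrace, Matrix.trace, map_sum]
  rfl

end

/-! ### One variable -/

/-- Evaluation of Laurent polynomials in one variable. -/
noncomputable def ev1 (A : ℂˣ) : AddMonoidAlgebra ℤ ℤ →+* ℂ :=
  (AddMonoidAlgebra.lift ℤ ℂ ℤ
    { toFun := fun e => ((A ^ (Multiplicative.toAdd e) : ℂˣ) : ℂ)
      map_one' := by simp
      map_mul' := fun e e' => by rw [toAdd_mul, _root_.zpow_add, Units.val_mul] }).toRingHom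

lemma ev1_single (A : ℂˣ) (e c : ℤ) :
    ev1 A (AddMonoidAlgebra.single e c) = c * ((A ^ e : ℂˣ) : ℂ) := by
  show AddMonoidAlgebra.lift ℤ ℂ ℤ _ (AddMonoidAlgebra.single e c) = _
  rw [AddMonoidAlgebra.lift_single, zsmul_eq_mul]
  rfl

lemma eq_zero_of_ev1 (p : AddMonoidAlgebra ℤ ℤ)
    (h : ∀ (t : ℕ) (ht : (t : ℂ) ≠ 0), 2 ≤ t → ev1 (Units.mk0 (t : ℂ) ht) p = 0) : p = 0 := by
  obtain ⟨b, q, hq⟩ := LaurentPolynomial.exists_T_pow (R := ℤ) p
  have hev : ∀ (A : ℂˣ) (f : Polynomial ℤ), ev1 A (Polynomial.toLaurent f)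
      = Polynomial.eval₂ (Int.castRingHom ℂ) (A : ℂ) f := by
    intro A f
    have e : (ev1 A).comp (Polynomial.toLaurent : Polynomial ℤ →+* _)
        = Polynomial.eval₂RingHom (Int.castRingHom ℂ) (A : ℂ) := by
      apply Polynomial.ringHom_ext
      · intro a
        simp
      · rw [RingHom.comp_apply, Polynomial.toLaurent_X, Polynomial.coe_eval₂RingHom,
          Polynomial.eval₂_X]
        show ev1 A (AddMonoidAlgebra.single 1 1) = _
        rw [ev1_single, Int.cast_one, one_mul, zpow_one]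
    exact congrArg (fun g => g f) e
  have hroot : ∀ t : ℕ, 2 ≤ t → Polynomial.eval (t : ℂ) (q.map (Int.castRingHom ℂ)) = 0 := by
    intro t ht
    have ht0 : (t : ℂ) ≠ 0 := by exact_mod_cast (by omega : t ≠ 0)
    rw [Polynomial.eval_map]
    have e1 := hev (Units.mk0 (t : ℂ) ht0) q
    rw [Units.val_mk0] at e1
    rw [← e1, hq, map_mul, h t ht0 ht, zero_mul]
  have hq0 : q.map (Int.castRingHom ℂ) = 0 := by
    apply Polynomial.eq_zero_of_infinite_isRoot
    apply Set.Infinite.mono (s := (fun t : ℕ => (t : ℂ)) '' Set.Ici 2)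
    · rintro _ ⟨t, ht, rfl⟩
      exact hroot t ht
    · exact (Set.Ici_infinite 2).image (Nat.cast_injective.injOn)
  have hq1 : q = 0 := by
    apply Polynomial.map_injective (Int.castRingHom ℂ) Int.cast_injective
    rw [hq0, Polynomial.map_zero]
  rw [hq1, map_zero] at hq
  have e2 : p = p * LaurentPolynomial.T (b : ℤ) * LaurentPolynomial.T (-(b : ℤ)) := by
    rw [mul_assoc, ← LaurentPolynomial.T_add, add_neg_cancel, LaurentPolynomial.T_zero, mul_one]
  rw [e2, ← hq, zero_mul]

lemma admissible_natCast (N : ℕ) (t : ℕ) (ht : 2 ≤ t) : Admissible N N (t : ℂ) := by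
  have ht0 : (t : ℂ) ≠ 0 := by exact_mod_cast (by omega : t ≠ 0)
  have hp : ∀ j : ℕ, 0 < j → (t : ℂ) ^ j ≠ 1 := by
    intro j hj h
    have h1 : t ^ j = 1 := by exact_mod_cast h
    have h2 : 1 < t ^ j := Nat.one_lt_pow hj.ne' (by omega)
    omega
  refine ⟨ht0, ?_, Or.inr (le_refl N)⟩
  intro j _ h0
  rw [unknot_eq_zero_iff _ ht0 (hp 4 (by norm_num)), ← pow_mul] at h0
  exact hp _ (by positivity) h0

end Pool.Agent.H69.AMU
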