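import Pool.Agent.H69.AMM.Laurent

set_option autoImplicit false

/-! # The traces of the powers of a quantum finite pure braid in the walk representation -/

namespace Pool.Agent.H69.AMU

open Matrix

section
variable {n : ℕ}

/-- The linear form on exponents given by the colours. -/
def lin (k : Fin n → ℕ) : (Fin n → ℤ) →+ ℤ where
  toFun e := -4 * ∑ j, (k j : ℤ) * e j
  map_zero' := by simp
  map_add' e e' := by
    simp only [Pi.add_apply, mul_add, Finset.sum_add_distrib]

/-- Substitution of powers of one variable. -/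
noncomputable def psi (k : Fin n → ℕ) : Lau n →+* AddMonoidAlgebra ℤ ℤ :=
  AddMonoidAlgebra.mapDomainRingHom ℤ (lin k)

lemma psi_single (k : Fin n → ℕ) (e : Fin n → ℤ) (c : ℤ) :
    psi k (AddMonoidAlgebra.single e c) = AddMonoidAlgebra.single (lin k e) c := by
  show AddMonoidAlgebra.mapDomain (lin k) (AddMonoidAlgebra.single e c) = _
  rw [AddMonoidAlgebra.mapDomain_single]

lemma prod_zpow_sum {G ι : Type} [CommGroup G] (a : G) (s : Finset ι) (f : ι → ℤ) :
    ∏ i ∈ s, a ^ f i = a ^ ∑ i ∈ s, f i := by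
  classical
  induction s using Finset.induction_on with
  | empty => simp
  | insert i s hi ih => rw [Finset.prod_insert hi, Finset.sum_insert hi, ih, _root_.zpow_add]

lemma mon_pow_colour (k : Fin n → ℕ) (A : ℂˣ) (e : Fin n → ℤ) :
    mon (fun j => ((A ^ 4)⁻¹) ^ k j) e = A ^ (lin k e) := by
  have h1 : ∀ j, (((A ^ 4)⁻¹) ^ k j) ^ e j = A ^ (-4 * ((k j : ℤ) * e j)) := by
    intro j
    have e1 : ((A ^ 4)⁻¹) = A ^ (-4 : ℤ) := by
      rw [_root_.zpow_neg]
      rfl
    rw [e1, ← zpow_natCast (A ^ (-4 : ℤ)), ← _root_.zpow_mul, ← _root_.zpow_mul]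
  rw [mon, Finset.prod_congr rfl fun j _ => h1 j, prod_zpow_sum, ← Finset.mul_sum]
  rfl

lemma ev1_psi (k : Fin n → ℕ) (A : ℂˣ) (p : Lau n) :
    ev1 A (psi k p) = evL (fun j => ((A ^ 4)⁻¹) ^ k j) p := by
  induction p using AddMonoidAlgebra.induction_linear with
  | zero => rw [map_zero, map_zero, map_zero]
  | add x y hx hy => rw [map_add, map_add, map_add, hx, hy]
  | single e c => rw [psi_single, ev1_single, evL_single, mon_pow_colour]

/-- Sums of monomials in one variable. -/
noncomputable def msum {M : Type} [AddMonoid M] (E : Multiset M) : AddMonoidAlgebra ℤ M :=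
  (E.map fun e => AddMonoidAlgebra.single e 1).sum

lemma coeff_msum {M : Type} [AddMonoid M] [DecidableEq M] (E : Multiset M) (x : M) :
    (msum E).coeff x = E.count x := by
  induction E using Multiset.induction_on with
  | empty => simp [msum]
  | cons a E ih =>
    have e1 : msum (a ::ₘ E) = AddMonoidAlgebra.single a 1 + msum E := by
      simp [msum]
    rw [e1, AddMonoidAlgebra.coeff_add, Finsupp.add_apply, ih, AddMonoidAlgebra.coeff_single,
      Finsupp.single_apply, Multiset.count_cons]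
    by_cases h : a = x
    · rw [if_pos h, if_pos h.symm]
      push_cast
      ring
    · rw [if_neg h, if_neg (fun h' => h h'.symm)]
      simp

lemma msum_injective {M : Type} [AddMonoid M] (E E' : Multiset M) (h : msum E = msum E') :
    E = E' := by
  classical
  ext x
  have h1 := coeff_msum E x
  rw [h, coeff_msum] at h1
  exact_mod_cast h1.symm

lemma psi_msum (k : Fin n → ℕ) (E : Multiset (Fin n → ℤ)) :
    psi k (msum E) = msum (E.map (lin k)) := by
  rw [msum, map_multiset_sum, Multiset.map_map, msum, Multiset.map_map]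
  congr 1
  apply Multiset.map_congr rfl
  intro e _
  exact psi_single k e 1

/-- One colour vector. -/
lemma psi_utrace {N : ℕ} (k : ColVec n N) (hk : ∀ i, 0 < k.1 i) (hN : 2 ≤ N) (β : pureBraid n)
    (hcase : ¬ EventuallyInfinite k (N - 2) β) :
    ∃ μ : Multiset ℤ, 0 ∈ μ ∧ ∀ m : ℕ, psi k.1 (utrace (β : BraidGroup n) m)
      = msum (μ.map fun h => (m : ℤ) * h) := by
  obtain ⟨μ, hμ⟩ := mixed_criterion k (N - 2) β hcase
  set ε : ℤ := Multiplicative.toAdd (expSum N (cabled k (β : BraidGroup n))) with hε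
  refine ⟨0 ::ₘ μ.map (fun h => h - ε), Multiset.mem_cons_self _ _, ?_⟩
  intro m
  rw [← sub_eq_zero]
  apply eq_zero_of_ev1
  intro t ht0 ht
  have hadm := admissible_natCast N t ht
  have h1 := trace_mixIdem k hk hadm (c := N - 2) (by omega) β.2 m
  rw [hμ (t : ℂ) hadm m] at h1
  have h2 := evL_utrace (β : BraidGroup n) m (fun j => vA (t : ℂ) hadm.1 ^ k.1 j)
  rw [← h2] at h1
  have h3 := ev1_psi k.1 (Units.mk0 (t : ℂ) ht0) (utrace (β : BraidGroup n) m)
  have h4 : (fun j => ((Units.mk0 (t : ℂ) ht0 ^ 4)⁻¹) ^ k.1 j)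
      = fun j => vA (t : ℂ) hadm.1 ^ k.1 j := rfl
  rw [h4] at h3
  rw [map_sub, h3, sub_eq_zero]
  set A : ℂˣ := Units.mk0 (t : ℂ) ht0 with hA
  have hchi : chi (t : ℂ) (cabled k (β : BraidGroup n)) = ((A ^ ε : ℂˣ) : ℂ) := by
    rw [chi, Units.val_zpow_eq_zpow_val]
    rfl
  have hms : ∀ ν : Multiset ℤ, ev1 A (msum (ν.map fun h => (m : ℤ) * h))
      = (ν.map fun h => ((A ^ ((m : ℤ) * h) : ℂˣ) : ℂ)).sum := by
    intro ν
    rw [msum, map_multiset_sum, Multiset.map_map, Multiset.map_map]
    congr 1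
    apply Multiset.map_congr rfl
    intro h _
    show ev1 A (AddMonoidAlgebra.single ((m : ℤ) * h) 1) = _
    rw [ev1_single, Int.cast_one, one_mul]
  rw [hms, Multiset.map_cons, Multiset.sum_cons, Multiset.map_map, mul_zero, zpow_zero,
    Units.val_one]
  have hchi0 : chi (t : ℂ) (cabled k (β : BraidGroup n)) ^ m ≠ 0 :=
    pow_ne_zero _ (chi_ne_zero ht0 _)
  have h5 : (μ.map ((fun h => ((A ^ ((m : ℤ) * h) : ℂˣ) : ℂ)) ∘ fun h => h - ε)).sum
      * chi (t : ℂ) (cabled k (β : BraidGroup n)) ^ m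
      = (μ.map fun h => (t : ℂ) ^ ((m : ℤ) * h)).sum := by
    rw [← Multiset.sum_map_mul_right]
    congr 1
    apply Multiset.map_congr rfl
    intro h _
    rw [hchi, Function.comp_apply, ← Units.val_pow_eq_pow_val, ← Units.val_mul, ← zpow_natCast (A ^ ε),
      ← _root_.zpow_mul, ← _root_.zpow_add, Units.val_zpow_eq_zpow_val]
    congr 1
    ring
  rw [h1, mul_comm] at h5
  have h6 := mul_left_cancel₀ hchi0 h5
  rw [h6]
  ring

/-- The coefficients after a substitution which is injective on the exponents. -/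
lemma psi_coeff (k : Fin n → ℕ) (F : Finset (Fin n → ℤ)) (hF : Set.InjOn (lin k) F) (p : Lau n)
    (hp : p.coeff.support ⊆ F) {e : Fin n → ℤ} (he : e ∈ F) :
    (psi k p).coeff (lin k e) = p.coeff e := by
  show (Finsupp.mapDomain (lin k) p.coeff) (lin k e) = _
  exact Finsupp.mapDomain_apply' (F : Set (Fin n → ℤ)) p.coeff (by exact_mod_cast hp) hF
    (by exact_mod_cast he)

/-- There are even positive colours separating finitely many exponents. -/
lemma exists_spread (F : Finset (Fin n → ℤ)) :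
    ∃ k : Fin n → ℕ, (∀ j, 0 < k j ∧ Even (k j)) ∧ Set.InjOn (lin k) F := by
  classical
  let q : (Fin n → ℤ) → Polynomial ℤ := fun d => ∑ j : Fin n, Polynomial.C (d j) * Polynomial.X ^ (j : ℕ)
  have hq : ∀ d, d ≠ 0 → q d ≠ 0 := by
    intro d hd hq
    apply hd
    funext j
    have h1 := congrArg (fun p => Polynomial.coeff p (j : ℕ)) hq
    simp only [q, Polynomial.finsetSum_coeff, Polynomial.coeff_C_mul, Polynomial.coeff_X_pow,
      Polynomial.coeff_zero] at h1
    rw [Finset.sum_eq_single j] at h1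
    · simpa using h1
    · intro i _ hi
      rw [if_neg, mul_zero]
      intro h
      exact hi (Fin.ext h.symm)
    · intro h
      exact absurd (Finset.mem_univ _) h
  let D : Finset (Fin n → ℤ) := ((F ×ˢ F).image fun p => p.1 - p.2).erase 0
  let Q : Polynomial ℤ := ∏ d ∈ D, q d
  have hQ : Q ≠ 0 := by
    rw [Finset.prod_ne_zero_iff]
    intro d hd
    exact hq d (Finset.ne_of_mem_erase hd)
  obtain ⟨t, ht, ht'⟩ : ∃ t : ℕ, 1 ≤ t ∧ Q.eval (t : ℤ) ≠ 0 := by
    by_contra hcon
    push Not at hcon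
    apply hQ
    apply Polynomial.eq_zero_of_infinite_isRoot
    apply Set.Infinite.mono (s := (fun t : ℕ => (t : ℤ)) '' Set.Ici 1)
    · rintro _ ⟨t, ht, rfl⟩
      exact hcon t ht
    · exact (Set.Ici_infinite 1).image (Nat.cast_injective.injOn)
  refine ⟨fun j => 2 * t ^ (j : ℕ), ?_, ?_⟩
  · intro j
    refine ⟨by positivity, ⟨t ^ (j : ℕ), by ring⟩⟩
  · intro e he e' he' hee
    by_contra hne
    have hd : e - e' ∈ D := by
      apply Finset.mem_erase_of_ne_of_mem (sub_ne_zero.2 hne)
      apply Finset.mem_image.2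
      exact ⟨(e, e'), Finset.mem_product.2 ⟨he, he'⟩, rfl⟩
    have h1 : (q (e - e')).eval (t : ℤ) ≠ 0 := by
      intro h0
      apply ht'
      rw [Polynomial.eval_prod]
      exact Finset.prod_eq_zero hd h0
    apply h1
    have h2 : lin (fun j : Fin n => 2 * t ^ (j : ℕ)) (e - e') = 0 := by
      rw [map_sub, hee, sub_self]
    have h3 : lin (fun j : Fin n => 2 * t ^ (j : ℕ)) (e - e')
        = -8 * (q (e - e')).eval (t : ℤ) := by
      show -4 * ∑ j : Fin n, ((2 * t ^ (j : ℕ) : ℕ) : ℤ) * (e - e') j = _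
      rw [Polynomial.eval_finsetSum, Finset.mul_sum, Finset.mul_sum]
      apply Finset.sum_congr rfl
      intro j _
      rw [Polynomial.eval_mul, Polynomial.eval_C, Polynomial.eval_pow, Polynomial.eval_X]
      push_cast
      ring
    rw [h3] at h2
    omega

lemma exists_msum (P : Lau n) (h : ∀ e, 0 ≤ P.coeff e) :
    ∃ E : Multiset (Fin n → ℤ), P = msum E := by
  classical
  refine ⟨∑ e ∈ P.coeff.support, Multiset.replicate (P.coeff e).toNat e, ?_⟩
  apply AddMonoidAlgebra.coeff_injective
  ext x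
  rw [coeff_msum]
  have h1 : Multiset.count x (∑ e ∈ P.coeff.support, Multiset.replicate (P.coeff e).toNat e)
      = ∑ e ∈ P.coeff.support, Multiset.count x (Multiset.replicate (P.coeff e).toNat e) :=
    map_sum (Multiset.countAddMonoidHom x) _ _
  rw [h1]
  simp only [Multiset.count_replicate]
  rw [Finset.sum_ite_eq']
  split_ifs with hx
  · rw [Int.toNat_of_nonneg (h x)]
  · rw [Finsupp.notMem_support_iff.1 hx]
    rfl

/-- A pure braid is quantum finite if for all even positive colours `k`, it does not have infinite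
projective order on `V_r(S^2; k, N - 2)` for all sufficiently large levels `r`, where `N` is the
sum of the colours. -/
def QFinite (β : pureBraid n) : Prop :=
  ∀ (N : ℕ) (k : ColVec n N), (∀ i, 0 < k.1 i ∧ Even (k.1 i)) → ¬ EventuallyInfinite k (N - 2) β

/-- **OUT1**, universal form. -/
theorem out1_universal (hn : 0 < n) (β : pureBraid n) (hfin : QFinite β) :
    ∃ E : Multiset (Fin n → ℤ), 0 ∈ E ∧ ∀ m : ℕ, utrace (β : BraidGroup n) m
      = msum (E.map fun e => m • e) := by
  classical
  -- the statement for one colour vector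
  have hone : ∀ k : Fin n → ℕ, (∀ j, 0 < k j ∧ Even (k j)) → ∃ μ : Multiset ℤ, 0 ∈ μ ∧
      ∀ m : ℕ, psi k (utrace (β : BraidGroup n) m) = msum (μ.map fun h => (m : ℤ) * h) := by
    intro k hk
    have hN : 2 ≤ ∑ j, k j := by
      have h1 : k ⟨0, hn⟩ ≤ ∑ j, k j :=
        Finset.single_le_sum (f := k) (fun _ _ => Nat.zero_le _) (Finset.mem_univ _)
      obtain ⟨h2, r, hr⟩ := hk ⟨0, hn⟩
      omega
    exact psi_utrace (⟨k, rfl⟩ : ColVec n (∑ j, k j)) (fun i => (hk i).1) hN β
      (hfin _ ⟨k, rfl⟩ hk)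
  -- the coefficients are nonnegative
  have hnn : ∀ e, 0 ≤ (utrace (β : BraidGroup n) 1).coeff e := by
    intro e
    obtain ⟨k, hk, hinj⟩ := exists_spread (insert e (utrace (β : BraidGroup n) 1).coeff.support)
    obtain ⟨μ, _, hμ⟩ := hone k hk
    have h1 := psi_coeff k _ hinj (utrace (β : BraidGroup n) 1) (Finset.subset_insert _ _)
      (Finset.mem_insert_self e _)
    rw [← h1, hμ 1, coeff_msum]
    positivity
  obtain ⟨E, hE⟩ := exists_msum _ hnn
  -- the multisets for one colour vector
  have hμE : ∀ (k : Fin n → ℕ), (∀ j, 0 < k j ∧ Even (k j)) →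
      0 ∈ E.map (lin k) ∧ ∀ m : ℕ, psi k (utrace (β : BraidGroup n) m)
        = msum ((E.map (lin k)).map fun h => (m : ℤ) * h) := by
    intro k hk
    obtain ⟨μ, h0, hμ⟩ := hone k hk
    have h1 := hμ 1
    rw [hE, psi_msum] at h1
    have h2 := msum_injective _ _ h1
    have h3 : μ.map (fun h => ((1 : ℕ) : ℤ) * h) = μ := by
      rw [show (fun h : ℤ => ((1 : ℕ) : ℤ) * h) = id by funext h; simp, Multiset.map_id]
    rw [h3] at h2
    rw [h2]
    exact ⟨h0, hμ⟩
  refine ⟨E, ?_, ?_⟩
  · obtain ⟨k, hk, hinj⟩ := exists_spread (insert 0 E.toFinset)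
    obtain ⟨h0, _⟩ := hμE k hk
    obtain ⟨e, he, he0⟩ := Multiset.mem_map.1 h0
    have h1 : e = 0 := by
      apply hinj
      · simp [he]
      · simp
      · rw [he0, map_zero]
    rwa [h1] at he
  · intro m
    rw [← sub_eq_zero]
    set D := utrace (β : BraidGroup n) m - msum (E.map fun e => m • e) with hD
    obtain ⟨k, hk, hinj⟩ := exists_spread D.coeff.support
    obtain ⟨_, hμ⟩ := hμE k hk
    have hpsi : psi k D = 0 := by
      rw [hD, map_sub, hμ m, psi_msum, Multiset.map_map, Multiset.map_map, sub_eq_zero]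
      congr 1
      apply Multiset.map_congr rfl
      intro e _
      show (m : ℤ) * lin k e = lin k (m • e)
      rw [map_nsmul, nsmul_eq_mul]
    apply AddMonoidAlgebra.coeff_injective
    ext e
    by_cases he : e ∈ D.coeff.support
    · rw [← psi_coeff k _ hinj D (Finset.Subset.refl _) he, hpsi]
      rfl
    · rw [Finsupp.notMem_support_iff.1 he]
      rfl

/-- **OUT1.** The traces of the powers of a quantum finite pure braid in the coloured walk
representation over any commutative ring are sums of monomials. -/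
theorem out1 (hn : 0 < n) (β : pureBraid n) (hfin : QFinite β) :
    ∃ E : Multiset (Fin n → ℤ), 0 ∈ E ∧ ∀ (K : Type) [CommRing K] (s : Fin n → Kˣ) (m : ℕ),
      trace ((walkU (β : BraidGroup n) s).val ^ m) = (E.map fun e => ((mon s e : Kˣ) : K) ^ m).sum := by
  obtain ⟨E, h0, hE⟩ := out1_universal hn β hfin
  refine ⟨E, h0, ?_⟩
  intro K _ s m
  rw [← evL_utrace, hE m, msum, map_multiset_sum, Multiset.map_map, Multiset.map_map]
  congr 1
  apply Multiset.map_congr rfl
  intro e _
  show evL s (AddMonoidAlgebra.single (m • e) 1) = _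
  rw [evL_single, Int.cast_one, one_mul, mon_smul, Units.val_pow_eq_pow_val]

end

end Pool.Agent.H69.AMU
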