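import Pool.Agent.H69.AMM.Twist

set_option autoImplicit false

/-! # OUT1 for conjugates and for products with powers of the full twist -/

namespace Pool.Agent.H69.AMU

open Matrix Pool.Agent.H70.KR

section
variable {n : ℕ}

/-- The traces of the powers in the coloured walk representation are the power sums of the
monomials with exponents `E`, over every commutative ring. -/
def MonTraces (β : BraidGroup n) (E : Multiset (Fin n → ℤ)) : Prop :=
  ∀ (K : Type) [CommRing K] (s : Fin n → Kˣ) (m : ℕ),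
    trace ((walkU β s).val ^ m) = (E.map fun e => ((mon s e : Kˣ) : K) ^ m).sum

/-- Powers of a matrix which is `c W` up to a matrix with constant columns. -/
lemma pow_two {K : Type} [CommRing K] {c : K} {M W : Matrix (Fin n) (Fin n) K}
    (hW : W *ᵥ (fun _ => 1) = fun _ => 1) (h : ∃ L : Fin n → K, M = c • W + Matrix.of (fun _ j => L j))
    (m : ℕ) : ∃ L : Fin n → K, M ^ m = c ^ m • W ^ m + Matrix.of (fun _ j => L j) := by
  have hW' : ∀ m : ℕ, W ^ m *ᵥ (fun _ => 1) = fun _ => 1 := by
    intro m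
    induction m with
    | zero => rw [pow_zero, Matrix.one_mulVec]
    | succ m ih => rw [pow_succ, ← Matrix.mulVec_mulVec, hW, ih]
  induction m with
  | zero =>
    refine ⟨0, ?_⟩
    ext x y
    simp
  | succ m ih =>
    obtain ⟨L, hL⟩ := ih
    obtain ⟨L', hL'⟩ := h
    refine ⟨fun j => c ^ m * L' j + c * ∑ i, L i * W i j + (∑ i, L i) * L' j, ?_⟩
    rw [pow_succ, hL]
    nth_rewrite 1 [hL']
    rw [Matrix.add_mul, Matrix.mul_add, Matrix.mul_add, Matrix.smul_mul, Matrix.mul_smul,
      ← pow_succ, smul_smul, ← pow_succ]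
    ext x y
    simp only [Matrix.add_apply, Matrix.smul_apply, smul_eq_mul, Matrix.mul_apply, Matrix.of_apply]
    have h1 := congrFun (hW' m) x
    rw [Matrix.mulVec, dotProduct] at h1
    simp only [mul_one] at h1
    have h2 : ∑ j, (c ^ m • W ^ m) x j * L' y = c ^ m * L' y := by
      rw [← Finset.sum_mul]
      have h3 : ∑ j, (c ^ m • W ^ m) x j = c ^ m := by
        simp only [Matrix.smul_apply, smul_eq_mul]
        rw [← Finset.mul_sum, h1, mul_one]
      rw [h3]
    simp only [Matrix.smul_apply, smul_eq_mul] at h2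
    rw [h2, ← Finset.sum_mul]
    have h4 : ∑ j, L j * (c * W j y) = c * ∑ i, L i * W i y := by
      rw [Finset.mul_sum]
      apply Finset.sum_congr rfl
      intro j _
      ring
    rw [h4]
    ring

/-- Traces of the powers of such a matrix. -/
lemma trace_two {K : Type} [CommRing K] (hn : 0 < n) {c : K} {M W : Matrix (Fin n) (Fin n) K}
    (hM : M *ᵥ (fun _ => 1) = fun _ => 1)
    (hW : W *ᵥ (fun _ => 1) = fun _ => 1) (h : ∃ L : Fin n → K, M = c • W + Matrix.of (fun _ j => L j))
    (m : ℕ) : trace (M ^ m) = c ^ m * (trace (W ^ m) - 1) + 1 := by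
  have hpow : ∀ (V : Matrix (Fin n) (Fin n) K), V *ᵥ (fun _ => 1) = (fun _ => 1) →
      ∀ m : ℕ, V ^ m *ᵥ (fun _ => 1) = fun _ => 1 := by
    intro V hV m
    induction m with
    | zero => rw [pow_zero, Matrix.one_mulVec]
    | succ m ih => rw [pow_succ, ← Matrix.mulVec_mulVec, hV, ih]
  obtain ⟨L, hL⟩ := pow_two hW h m
  have h1 := congrFun (hpow M hM m) ⟨0, hn⟩
  rw [hL, Matrix.add_mulVec, Matrix.smul_mulVec, hpow W hW m, Pi.add_apply, Pi.smul_apply,
    smul_eq_mul, mul_one, Matrix.mulVec, dotProduct] at h1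
  simp only [Matrix.of_apply, mul_one] at h1
  have h2 : trace (Matrix.of (fun _ j => L j) : Matrix (Fin n) (Fin n) K) = ∑ j, L j := by
    simp [Matrix.trace]
  rw [hL, trace_add, trace_smul, h2, smul_eq_mul]
  linear_combination h1

lemma mon_const (K : Type) [CommRing K] (s : Fin n → Kˣ) (z : ℤ) :
    mon s (fun _ => z) = colProd s ^ z := by
  rw [mon, colProd, Finset.prod_zpow]

/-- Products with powers of the full twist. -/
lemma MonTraces.twist (hn : 0 < n) {β : BraidGroup n} {E' : Multiset (Fin n → ℤ)}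
    (h : MonTraces β (0 ::ₘ E')) (z : ℤ) :
    MonTraces (th n ^ z * β) (0 ::ₘ E'.map fun e => e + fun _ => z) := by
  intro K _ s m
  have hth : th n ^ z ∈ pureBraid n := Subgroup.zpow_mem _ (perm_th n) z
  rw [walkU_mul_pure hth, Units.val_mul]
  obtain ⟨L, hL⟩ := twoType_th_zpow (K := K) hn s z
  have hW := walkU_mulVec_one (K := K) β s 1
  have hT := walkU_mulVec_one (K := K) (th n ^ z) s 1
  set W := (walkU β s).val with hWdef
  have h1 : ∃ L' : Fin n → K, (walkU (th n ^ z) s).val * W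
      = ((colProd s ^ z : Kˣ) : K) • W + Matrix.of (fun _ j => L' j) := by
    refine ⟨fun j => ∑ i, L i * W i j, ?_⟩
    rw [hL, Matrix.add_mul, Matrix.smul_mul, Matrix.one_mul]
    congr 1
  have h2 := trace_two hn (c := ((colProd s ^ z : Kˣ) : K)) (by
    rw [← Matrix.mulVec_mulVec, hW, hT]) hW h1 m
  rw [h2, h K s m, Multiset.map_cons, Multiset.sum_cons, Multiset.map_cons, Multiset.sum_cons,
    Multiset.map_map, mon_zero, Units.val_one, one_pow, add_sub_cancel_left,
    ← Multiset.sum_map_mul_left, add_comm]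
  congr 2
  apply Multiset.map_congr rfl
  intro e _
  show _ = ((mon s (e + fun _ => z) : Kˣ) : K) ^ m
  rw [mon_add, mon_const, Units.val_mul, mul_pow, mul_comm]

lemma mon_comp {K : Type} [CommRing K] (s : Fin n → Kˣ) (π : Equiv.Perm (Fin n)) (e : Fin n → ℤ) :
    mon (s ∘ (π⁻¹ : Equiv.Perm (Fin n))) e = mon s (e ∘ π) := by
  rw [mon, mon, ← Equiv.prod_comp π]
  apply Finset.prod_congr rfl
  intro j _
  have h1 : π⁻¹ (π j) = j := π.symm_apply_apply j
  show s (π⁻¹ (π j)) ^ e (π j) = s j ^ e (π j)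
  rw [h1]

/-- Conjugates. -/
lemma MonTraces.conj {γ : BraidGroup n} (hγ : γ ∈ pureBraid n) {E : Multiset (Fin n → ℤ)}
    (h : MonTraces γ E) (a : BraidGroup n) :
    MonTraces (a⁻¹ * γ * a) (E.map fun e => e ∘ permHom n a) := by
  intro K _ s m
  set s' := s ∘ ((permHom n a)⁻¹ : Equiv.Perm (Fin n)) with hs'
  have h1 : walkU (a⁻¹ * γ * a) s = (walkU a s')⁻¹ * walkU γ s' * walkU a s' := by
    rw [mul_assoc, walkU_mul, walkU_inv, map_inv, ← hs', walkU_mul_pure hγ, mul_assoc]
  have h2 : (walkU (a⁻¹ * γ * a) s) ^ m = (walkU a s')⁻¹ * walkU γ s' ^ m * walkU a s' := by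
    have h3 := conj_pow (i := m) (a := (walkU a s')⁻¹) (b := walkU γ s')
    rw [inv_inv] at h3
    rw [h1, h3]
  have h3 : (walkU (a⁻¹ * γ * a) s).val ^ m
      = ((walkU a s')⁻¹).val * ((walkU γ s').val ^ m * (walkU a s').val) := by
    rw [← Units.val_pow_eq_pow_val, h2, Units.val_mul, Units.val_mul, Units.val_pow_eq_pow_val,
      Matrix.mul_assoc]
  have h4 : (walkU a s').val * ((walkU a s')⁻¹).val = 1 := by
    rw [← Units.val_mul, mul_inv_cancel, Units.val_one]
  rw [h3, Matrix.trace_mul_comm, Matrix.mul_assoc, h4, Matrix.mul_one, h K s' m, Multiset.map_map]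
  congr 1
  apply Multiset.map_congr rfl
  intro e _
  rw [Function.comp_apply, hs', mon_comp]

/-- **OUT1** for the conjugates of the products with powers of the full twist. -/
theorem out1_conj (hn : 0 < n) (b : pureBraid n) (hfin : QFinite b) (a : BraidGroup n) (μ : ℤ) :
    ∃ E : Multiset (Fin n → ℤ), 0 ∈ E ∧
      MonTraces (a⁻¹ * th n ^ (-μ) * (b : BraidGroup n) * a) E := by
  obtain ⟨E, h0, hE⟩ := out1 hn b hfin
  obtain ⟨E', rfl⟩ := Multiset.exists_cons_of_mem h0
  have h1 : MonTraces (b : BraidGroup n) (0 ::ₘ E') := fun K _ s m => hE K s m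
  have h2 := h1.twist hn (-μ)
  have hpure : th n ^ (-μ) * (b : BraidGroup n) ∈ pureBraid n :=
    Subgroup.mul_mem _ (Subgroup.zpow_mem _ (perm_th n) _) b.2
  have h3 := h2.conj hpure a
  refine ⟨_, ?_, by rw [mul_assoc a⁻¹]; exact h3⟩
  rw [Multiset.map_cons]
  exact Multiset.mem_cons_self _ _

end

end Pool.Agent.H69.AMU
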