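import Pool.Agent.H69.AMM.Out1b
import Pool.Agent.H70.AG.Def
import Pool.Agent.H70.KR.Newt
import Pool.Agent.H72.AM5.StepWall

set_option autoImplicit false

/-! # From the traces of the walk matrices to rigid diagrams -/

namespace Pool.Agent.H69.AMU

open Matrix Pool.Agent.H70.AG Pool.Agent.H72.AM5

section
variable {n : ℕ} (D : Dia n)

/-- The position of a strand, as a bijection. -/
noncomputable def posE (t : ℤ) : Fin n ≃ Fin n :=
  Equiv.ofBijective (fun a => ⟨D.pos t a, D.lt t a⟩)
    (Finite.injective_iff_bijective.1 fun _ _ h => D.inj t (Fin.mk.inj_iff.1 h))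

lemma posE_val (t : ℤ) (a : Fin n) : ((posE D t a : Fin n) : ℕ) = D.pos t a := rfl

/-- A function of the strands as a function of the positions. -/
noncomputable def toPos {C : Type} (t : ℤ) (g : Fin n → C) : Fin n → C := g ∘ (posE D t).symm

lemma gv_toPos {C : Type} (d : C) (t : ℤ) (g : Fin n → C) (a : Fin n) :
    gv d (toPos D t g) (D.pos t a) = g a := by
  rw [gv_of_lt d _ (D.lt t a)]
  have e : (⟨D.pos t a, D.lt t a⟩ : Fin n) = posE D t a := rfl
  rw [e, toPos, Function.comp_apply, Equiv.symm_apply_apply]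

lemma toPos_ext {C : Type} (t : ℤ) (f : Fin n → C) (g : Fin n → C) (d : C)
    (h : ∀ a, gv d f (D.pos t a) = g a) : f = toPos D t g := by
  funext p
  have h1 := h ((posE D t).symm p)
  have e : D.pos t ((posE D t).symm p) = p := by
    rw [← posE_val, Equiv.apply_symm_apply]
  rw [e, gv_val] at h1
  exact h1

lemma lm_ne_rm (t : ℤ) : D.lm t ≠ D.rm t := by
  intro h
  have := D.adj t
  rw [h] at this
  omega

lemma pos_rm_lt (t : ℤ) : D.pos t (D.rm t) < n - 1 := by
  have h1 := D.adj t
  have h2 := D.lt t (D.lm t)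
  omega

section
variable {K : Type} [CommRing K]

/-- The step matrix in the basis of the strands, read in time order. -/
def Ep (s : Fin n → K) (t : ℤ) : Matrix (Fin n) (Fin n) K := fun i j =>
  if i = D.lm t then (if j = D.lm t then s (D.rm t) else 0) + (if j = D.rm t then 1 - s (D.rm t) else 0)
  else if i = j then 1 else 0

lemma Ep_mulVec (s : Fin n → K) (t : ℤ) (g : Fin n → K) (x : Fin n) :
    (Ep D s t *ᵥ g) x = if x = D.lm t then s (D.rm t) * g (D.lm t) + (1 - s (D.rm t)) * g (D.rm t)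
      else g x := by
  rw [Matrix.mulVec, dotProduct]
  by_cases h : x = D.lm t
  · rw [if_pos h]
    have e : ∀ j : Fin n, Ep D s t x j * g j = (if j = D.lm t then s (D.rm t) * g j else 0)
        + (if j = D.rm t then (1 - s (D.rm t)) * g j else 0) := by
      intro j
      rw [Ep, if_pos h, add_mul, ite_mul, ite_mul, zero_mul]
    rw [Finset.sum_congr rfl fun j _ => e j, Finset.sum_add_distrib, Finset.sum_ite_eq',
      Finset.sum_ite_eq', if_pos (Finset.mem_univ _), if_pos (Finset.mem_univ _)]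
  · rw [if_neg h]
    have e : ∀ j : Fin n, Ep D s t x j * g j = if x = j then g j else 0 := by
      intro j
      rw [Ep, if_neg h, ite_mul, one_mul, zero_mul]
    rw [Finset.sum_congr rfl fun j _ => e j, Finset.sum_ite_eq, if_pos (Finset.mem_univ _)]

/-- One step. -/
lemma walk_step (u : Fin n → Kˣ) (t : ℤ) (g : Fin n → K) :
    (walkU (gen n (D.pos t (D.rm t))) (toPos D t u)).val *ᵥ toPos D (t + 1) g
      = toPos D t (Ep D (fun i => (u i : K)) t *ᵥ g) := by
  apply toPos_ext D t _ _ 0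
  intro a
  have hi := pos_rm_lt D t
  rw [walk_gen_col hi, gv_toPos, Ep_mulVec]
  have e1 : gv 0 (toPos D (t + 1) g) (D.pos t (D.rm t) + 1) = g (D.rm t) := by
    rw [← D.adj t, ← D.step_rm t, gv_toPos]
  have e2 : gv 0 (toPos D (t + 1) g) (D.pos t (D.rm t)) = g (D.lm t) := by
    rw [← D.step_lm t, gv_toPos]
  rw [e1, e2]
  by_cases h1 : a = D.rm t
  · subst h1
    rw [if_pos rfl, if_neg (lm_ne_rm D t).symm]
  · by_cases h2 : a = D.lm t
    · subst h2
      rw [if_neg (by rw [D.adj t]; omega), if_pos (D.adj t), if_pos rfl]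
    · have h3 : D.pos t a ≠ D.pos t (D.rm t) := fun h => h1 (D.inj t h)
      have h4 : D.pos t a ≠ D.pos t (D.rm t) + 1 := by
        rw [← D.adj t]
        exact fun h => h2 (D.inj t h)
      rw [if_neg h3, if_neg h4, if_neg h2, ← D.step t a h2 h1, gv_toPos]

/-- The product of the step matrices in time order. -/
def Wp (s : Fin n → K) : ℕ → Matrix (Fin n) (Fin n) K
  | 0 => 1
  | m + 1 => Wp s m * Ep D s m

lemma colour_upTo {C : Type} (u : Fin n → C) (m : ℕ) :
    toPos D 0 u ∘ permHom n (braidUpTo D m) = toPos D (m : ℤ) u := by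
  induction m with
  | zero =>
    have e : braidUpTo D 0 = 1 := rfl
    rw [e, map_one]
    rfl
  | succ m ih =>
    have e : braidUpTo D (m + 1)
        = braidUpTo D m * gen n (D.pos (m : ℤ) (D.rm (m : ℤ))) := rfl
    have hi := pos_rm_lt D (m : ℤ)
    rw [e, map_mul, permHom_gen hi]
    have e2 : toPos D 0 u ∘ ((permHom n (braidUpTo D m) * Equiv.swap ⟨D.pos (m : ℤ) (D.rm (m : ℤ)), by omega⟩
        ⟨D.pos (m : ℤ) (D.rm (m : ℤ)) + 1, by omega⟩ : Equiv.Perm (Fin n)) : Fin n → Fin n)
        = (toPos D 0 u ∘ permHom n (braidUpTo D m)) ∘ adj n (D.pos (m : ℤ) (D.rm (m : ℤ))) hi := rfl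
    rw [e2, ih]
    rcases n with _ | n
    · exact absurd hi (by omega)
    apply toPos_ext D _ _ _ (u 0)
    intro a
    push_cast
    have hstep_lm := D.step_lm (m : ℤ)
    have hstep_rm := D.step_rm (m : ℤ)
    have hadj := D.adj (m : ℤ)
    rw [gv_adj]
    by_cases h1 : a = D.rm (m : ℤ)
    · subst h1
      rw [hstep_rm, hadj, if_neg (by omega), if_pos rfl, gv_toPos]
    · by_cases h2 : a = D.lm (m : ℤ)
      · subst h2
        rw [hstep_lm, if_pos rfl, ← hadj, gv_toPos]
      · have h3 : D.pos (m : ℤ) a ≠ D.pos (m : ℤ) (D.rm (m : ℤ)) := fun h => h1 (D.inj _ h)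
        have h4 : D.pos (m : ℤ) a ≠ D.pos (m : ℤ) (D.rm (m : ℤ)) + 1 := by
          rw [← hadj]
          exact fun h => h2 (D.inj _ h)
        rw [D.step _ a h2 h1, if_neg h3, if_neg h4, gv_toPos]

/-- Several steps. -/
lemma walk_upTo (u : Fin n → Kˣ) (m : ℕ) (g : Fin n → K) :
    (walkU (braidUpTo D m) (toPos D 0 u)).val *ᵥ toPos D (m : ℤ) g
      = toPos D 0 (Wp D (fun i => (u i : K)) m *ᵥ g) := by
  induction m generalizing g with
  | zero =>
    have e : braidUpTo D 0 = 1 := rfl
    rw [e, walkU_one, Units.val_one, Matrix.one_mulVec, Wp, Matrix.one_mulVec]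
    rfl
  | succ m ih =>
    have e : braidUpTo D (m + 1)
        = braidUpTo D m * gen n (D.pos (m : ℤ) (D.rm (m : ℤ))) := rfl
    rw [e, walkU_mul, colour_upTo, Units.val_mul, ← Matrix.mulVec_mulVec]
    push_cast
    rw [walk_step, ih, Matrix.mulVec_mulVec]
    rfl

lemma posE_period : posE D (D.T : ℤ) = posE D 0 := by
  apply Equiv.ext
  intro a
  apply Fin.ext
  rw [posE_val, posE_val]
  have h := D.per_pos 0
  rw [zero_add] at h
  rw [h]

/-- The traces of the powers of the walk matrix of the braid of a diagram. -/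
lemma trace_dbraid (u : Fin n → Kˣ) (m : ℕ) :
    trace ((walkU (dbraid D) (toPos D 0 u)).val ^ m)
      = trace (Wp D (fun i => (u i : K)) D.T ^ m) := by
  set V := (walkU (dbraid D) (toPos D 0 u)).val with hV
  set W := Wp D (fun i => (u i : K)) D.T with hW
  have h1 : ∀ g : Fin n → K, V *ᵥ toPos D 0 g = toPos D 0 (W *ᵥ g) := by
    intro g
    have h := walk_upTo D u D.T g
    have e : toPos D (D.T : ℤ) g = toPos D 0 g := by
      rw [toPos, toPos, posE_period]
    rw [e] at h
    exact h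
  have h2 : ∀ (m : ℕ) (g : Fin n → K), V ^ m *ᵥ toPos D 0 g = toPos D 0 (W ^ m *ᵥ g) := by
    intro m
    induction m with
    | zero => intro g; rw [pow_zero, pow_zero, Matrix.one_mulVec, Matrix.one_mulVec]
    | succ m ih =>
      intro g
      rw [pow_succ, pow_succ, ← Matrix.mulVec_mulVec, ← Matrix.mulVec_mulVec, h1, ih]
  have h3 : ∀ a : Fin n, (V ^ m) (posE D 0 a) (posE D 0 a) = (W ^ m) a a := by
    intro a
    have h := congrFun (h2 m (Pi.single a 1)) (posE D 0 a)
    have e1 : toPos D 0 (Pi.single a (1 : K)) = Pi.single (posE D 0 a) 1 := by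
      funext p
      rw [toPos, Function.comp_apply, Pi.single_apply, Pi.single_apply]
      by_cases hp : p = posE D 0 a
      · rw [if_pos hp, if_pos (by rw [hp, Equiv.symm_apply_apply])]
      · rw [if_neg hp, if_neg (fun h => hp (by rw [← h, Equiv.apply_symm_apply]))]
    rw [e1, Matrix.mulVec_single_one, toPos, Function.comp_apply, Equiv.symm_apply_apply,
      Matrix.mulVec_single_one] at h
    exact h
  rw [Matrix.trace, Matrix.trace, ← Equiv.sum_comp (posE D 0)]
  exact Finset.sum_congr rfl fun a _ => h3 a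

end

/-! ### The change of the gauge -/

/-- The strands on the left of `x`. -/
def lefts (t : ℤ) (x : Fin n) : Finset (Fin n) := Finset.univ.filter fun y => D.pos t y < D.pos t x

lemma mem_lefts {t : ℤ} {x y : Fin n} : y ∈ lefts D t x ↔ D.pos t y < D.pos t x := by
  simp [lefts]

lemma lefts_lm (t : ℤ) : lefts D t (D.lm t) = insert (D.rm t) (lefts D t (D.rm t)) := by
  ext y
  rw [Finset.mem_insert, mem_lefts, mem_lefts, D.adj t]
  constructor
  · intro h
    rcases Nat.lt_succ_iff_lt_or_eq.1 h with h | h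
    · exact Or.inr h
    · exact Or.inl (D.inj t h)
  · rintro (h | h)
    · subst h; omega
    · omega

lemma lefts_lm_succ (t : ℤ) : lefts D (t + 1) (D.lm t) = lefts D t (D.rm t) := by
  ext y
  rw [mem_lefts, mem_lefts, D.step_lm t]
  by_cases h1 : y = D.rm t
  · subst h1
    rw [D.step_rm t, D.adj t]
    omega
  · by_cases h2 : y = D.lm t
    · subst h2
      rw [D.step_lm t, D.adj t]
      omega
    · rw [D.step t y h2 h1]

lemma lefts_rm_succ (t : ℤ) : lefts D (t + 1) (D.rm t) = insert (D.lm t) (lefts D t (D.rm t)) := by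
  ext y
  rw [Finset.mem_insert, mem_lefts, mem_lefts, D.step_rm t, D.adj t]
  by_cases h1 : y = D.rm t
  · subst h1
    rw [D.step_rm t, D.adj t]
    constructor
    · intro h; omega
    · rintro (h | h)
      · exact absurd h.symm (lm_ne_rm D t)
      · omega
  · by_cases h2 : y = D.lm t
    · subst h2
      rw [D.step_lm t]
      constructor
      · intro _; exact Or.inl rfl
      · intro _; omega
    · rw [D.step t y h2 h1]
      constructor
      · intro h
        rcases Nat.lt_succ_iff_lt_or_eq.1 h with h | h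
        · exact Or.inr h
        · exact absurd (D.inj t h) h1
      · rintro (h | h)
        · exact absurd h h2
        · omega

lemma lefts_other (t : ℤ) {x : Fin n} (hl : x ≠ D.lm t) (hr : x ≠ D.rm t) :
    lefts D (t + 1) x = lefts D t x := by
  ext y
  have h3 : D.pos t x ≠ D.pos t (D.rm t) := fun h => hr (D.inj t h)
  have h4 : D.pos t x ≠ D.pos t (D.rm t) + 1 := by
    rw [← D.adj t]
    exact fun h => hl (D.inj t h)
  rw [mem_lefts, mem_lefts, D.step t x hl hr]
  by_cases h1 : y = D.rm t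
  · subst h1
    rw [D.step_rm t, D.adj t]
    omega
  · by_cases h2 : y = D.lm t
    · subst h2
      rw [D.step_lm t, D.adj t]
      omega
    · rw [D.step t y h2 h1]

/-- The gauge. -/
noncomputable def dd (s : Fin n → ℝ) (t : ℤ) (x : Fin n) : ℝ :=
  (1 - s x) * (s x)⁻¹ * ∏ y ∈ lefts D t x, (s y)⁻¹

lemma dd_lm (s : Fin n → ℝ) (hs : ∀ i, s i ≠ 0) (t : ℤ) :
    dd D s (t + 1) (D.lm t) = s (D.rm t) * dd D s t (D.lm t) := by
  rw [dd, dd, lefts_lm_succ, lefts_lm, Finset.prod_insert (by rw [mem_lefts]; omega)]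
  have := hs (D.rm t)
  field_simp

lemma dd_rm (s : Fin n → ℝ) (hs : ∀ i, s i ≠ 0) (t : ℤ) :
    s (D.lm t) * dd D s (t + 1) (D.rm t) = dd D s t (D.rm t) := by
  rw [dd, dd, lefts_rm_succ, Finset.prod_insert (by rw [mem_lefts, D.adj t]; omega)]
  have := hs (D.lm t)
  field_simp

lemma dd_mixed (s : Fin n → ℝ) (t : ℤ) :
    (1 - s (D.rm t)) * dd D s t (D.lm t) = dd D s (t + 1) (D.rm t) * (1 - s (D.lm t)) := by
  rw [dd, dd, lefts_rm_succ, lefts_lm, Finset.prod_insert (by rw [mem_lefts]; omega),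
    Finset.prod_insert (by rw [mem_lefts, D.adj t]; omega)]
  ring

lemma gauge_step (s : Fin n → ℝ) (hs : ∀ i, s i ≠ 0) (t : ℤ) :
    (Ep D s t)ᵀ * Matrix.diagonal (dd D s t) = Matrix.diagonal (dd D s (t + 1)) * D.E s t := by
  ext i j
  rw [Matrix.mul_diagonal, Matrix.diagonal_mul, Matrix.transpose_apply, Ep, Dia.E]
  have hne := lm_ne_rm D t
  by_cases hj : j = D.lm t
  · subst hj
    rw [if_pos rfl]
    by_cases hi : i = D.rm t
    · subst hi
      rw [if_neg hne.symm, if_pos rfl, if_pos rfl, if_neg hne, if_pos rfl, zero_add, zero_add]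
      exact dd_mixed D s t
    · by_cases hi2 : i = D.lm t
      · subst hi2
        rw [if_pos rfl, if_neg hne, if_neg hne, if_pos rfl, add_zero, mul_one, dd_lm D s hs]
      · rw [if_neg hi2, if_neg hi, if_neg hi, if_neg hi2]
        ring
  · rw [if_neg hj]
    by_cases hi : i = D.rm t
    · subst hi
      rw [if_pos rfl, if_neg hj]
      by_cases hj2 : j = D.rm t
      · subst hj2
        rw [if_pos rfl, if_pos rfl, one_mul, add_zero, mul_comm, dd_rm D s hs]
      · rw [if_neg hj2, if_neg hj2]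
        ring
    · rw [if_neg hi]
      by_cases hij : j = i
      · subst hij
        rw [if_pos rfl, one_mul, mul_one, dd, dd, lefts_other D t hj hi]
      · rw [if_neg hij, if_neg (fun h => hij h.symm)]
        ring

lemma gauge (s : Fin n → ℝ) (hs : ∀ i, s i ≠ 0) (m : ℕ) :
    (Wp D s m)ᵀ * Matrix.diagonal (dd D s 0) = Matrix.diagonal (dd D s m) * D.W s 0 m := by
  induction m with
  | zero =>
    rw [Wp, Dia.W, Matrix.transpose_one, Matrix.one_mul, Matrix.mul_one]
    rfl
  | succ m ih =>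
    have e : D.W s 0 (m + 1) = D.E s (0 + (m : ℤ)) * D.W s 0 m := rfl
    rw [Wp, e, zero_add, Matrix.transpose_mul, Matrix.mul_assoc, ih, ← Matrix.mul_assoc,
      gauge_step D s hs, Matrix.mul_assoc]
    push_cast
    rfl

lemma dd_period (s : Fin n → ℝ) : dd D s (D.T : ℤ) = dd D s 0 := by
  funext x
  have h := D.per_pos 0
  rw [zero_add] at h
  rw [dd, dd, lefts, lefts, h]

/-- The traces for colours in the open interval. -/
lemma trace_W_open (s : Fin n → ℝ) (h0 : ∀ i, 0 < s i) (h1 : ∀ i, s i < 1) (m : ℕ) :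
    trace ((D.W s 0 D.T) ^ m) = trace ((Wp D s D.T) ^ m) := by
  have hs : ∀ i, s i ≠ 0 := fun i => (h0 i).ne'
  have hd : ∀ x, dd D s 0 x ≠ 0 := by
    intro x
    rw [dd]
    have h2 : ∏ y ∈ lefts D 0 x, (s y)⁻¹ ≠ 0 :=
      Finset.prod_ne_zero_iff.2 fun y _ => inv_ne_zero (hs y)
    exact mul_ne_zero (mul_ne_zero (sub_pos.2 (h1 x)).ne' (inv_ne_zero (hs x))) h2
  have hg := gauge D s hs D.T
  rw [dd_period] at hg
  set W := D.W s 0 D.T
  set V := Wp D s D.T
  set Δ := Matrix.diagonal (dd D s 0) with hΔ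
  set Δ' := Matrix.diagonal (fun x => (dd D s 0 x)⁻¹) with hΔ'
  have hinv : Δ * Δ' = 1 := by
    rw [hΔ, hΔ', Matrix.diagonal_mul_diagonal]
    have : (fun x => dd D s 0 x * (dd D s 0 x)⁻¹) = fun _ => (1 : ℝ) := by
      funext x
      exact mul_inv_cancel₀ (hd x)
    rw [this, Matrix.diagonal_one]
  have hpow : ∀ m : ℕ, (Vᵀ) ^ m * Δ = Δ * W ^ m := by
    intro m
    induction m with
    | zero => simp
    | succ m ih => rw [pow_succ, Matrix.mul_assoc, hg, ← Matrix.mul_assoc, ih, Matrix.mul_assoc,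
        ← pow_succ]
  have h3 : trace ((Vᵀ) ^ m) = trace (W ^ m) := by
    calc trace ((Vᵀ) ^ m) = trace ((Vᵀ) ^ m * (Δ * Δ')) := by rw [hinv, Matrix.mul_one]
      _ = trace (Δ * W ^ m * Δ') := by rw [← Matrix.mul_assoc, hpow]
      _ = trace (Δ' * (Δ * W ^ m)) := Matrix.trace_mul_comm _ _
      _ = trace (W ^ m) := by
        rw [← Matrix.mul_assoc]
        have : Δ' * Δ = 1 := mul_eq_one_comm.1 hinv
        rw [this, Matrix.one_mul]
  rw [← h3, ← Matrix.transpose_pow, Matrix.trace_transpose]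

end

end Pool.Agent.H69.AMU
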