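import Pool.Agent.H69.AMM.Rigid

set_option autoImplicit false

/-! # Rigidity of the diagrams of quantum finite braids -/

namespace Pool.Agent.H69.AMU

open Matrix Polynomial Pool.Agent.H70.AG Pool.Agent.H72.AM5 Pool.Agent.H70.KR

section
variable {n : ℕ} (D : Dia n)

/-! ### Stochastic matrices -/

/-- Row stochastic matrices. -/
def Stoch (M : Matrix (Fin n) (Fin n) ℝ) : Prop := (∀ i j, 0 ≤ M i j) ∧ ∀ i, ∑ j, M i j = 1

lemma Stoch.one : Stoch (1 : Matrix (Fin n) (Fin n) ℝ) := by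
  refine ⟨fun i j => ?_, fun i => ?_⟩
  · rw [Matrix.one_apply]; split_ifs <;> norm_num
  · simp [Matrix.one_apply]

lemma Stoch.mul {M M' : Matrix (Fin n) (Fin n) ℝ} (h : Stoch M) (h' : Stoch M') :
    Stoch (M * M') := by
  refine ⟨fun i j => ?_, fun i => ?_⟩
  · rw [Matrix.mul_apply]
    exact Finset.sum_nonneg fun k _ => mul_nonneg (h.1 i k) (h'.1 k j)
  · simp only [Matrix.mul_apply]
    rw [Finset.sum_comm]
    simp only [← Finset.mul_sum, h'.2, mul_one, h.2]

lemma Stoch.trace_le {M : Matrix (Fin n) (Fin n) ℝ} (h : Stoch M) : trace M ≤ n := by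
  have h1 : ∀ i, M i i ≤ 1 := by
    intro i
    rw [← h.2 i]
    exact Finset.single_le_sum (fun j _ => h.1 i j) (Finset.mem_univ i)
  calc trace M = ∑ i, M i i := rfl
    _ ≤ ∑ _i : Fin n, (1 : ℝ) := Finset.sum_le_sum fun i _ => h1 i
    _ = n := by simp

lemma stoch_E (s : Fin n → ℝ) (h0 : ∀ i, 0 ≤ s i) (h1 : ∀ i, s i ≤ 1) (t : ℤ) :
    Stoch (D.E s t) := by
  refine ⟨fun i j => ?_, fun i => ?_⟩
  · rw [Dia.E]
    have := h0 (D.lm t)
    have := h1 (D.lm t)
    split_ifs <;> linarith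
  · simp only [Dia.E]
    by_cases h : i = D.rm t
    · simp only [if_pos h]
      rw [Finset.sum_add_distrib, Finset.sum_ite_eq', Finset.sum_ite_eq',
        if_pos (Finset.mem_univ _), if_pos (Finset.mem_univ _)]
      ring
    · simp only [if_neg h]
      rw [Finset.sum_ite_eq, if_pos (Finset.mem_univ _)]

lemma stoch_W (s : Fin n → ℝ) (h0 : ∀ i, 0 ≤ s i) (h1 : ∀ i, s i ≤ 1) (t : ℤ) (m : ℕ) :
    Stoch (D.W s t m) := by
  induction m with
  | zero => exact Stoch.one
  | succ m ih => exact (stoch_E D s h0 h1 _).mul ih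

/-! ### Periodicity -/

lemma E_period (s : Fin n → ℝ) (t : ℤ) : D.E s (t + D.T) = D.E s t := by
  funext i j
  rw [Dia.E, Dia.E, D.per_lm, D.per_rm]

lemma W_period (s : Fin n → ℝ) (t : ℤ) (m : ℕ) : D.W s (t + D.T) m = D.W s t m := by
  induction m with
  | zero => rfl
  | succ m ih =>
    have e1 : D.W s (t + D.T) (m + 1) = D.E s (t + D.T + m) * D.W s (t + D.T) m := rfl
    have e2 : D.W s t (m + 1) = D.E s (t + m) * D.W s t m := rfl
    rw [e1, e2, ih, show t + (D.T : ℤ) + m = t + m + D.T by ring, E_period]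

lemma W_add (s : Fin n → ℝ) (t : ℤ) (a b : ℕ) :
    D.W s t (a + b) = D.W s (t + a) b * D.W s t a := by
  induction b with
  | zero =>
    have e : D.W s (t + a) 0 = 1 := rfl
    rw [Nat.add_zero, e, Matrix.one_mul]
  | succ b ih =>
    have e1 : D.W s t (a + (b + 1)) = D.E s (t + ((a + b : ℕ) : ℤ)) * D.W s t (a + b) := rfl
    have e2 : D.W s (t + a) (b + 1) = D.E s (t + a + b) * D.W s (t + a) b := rfl
    rw [e1, e2, ih, Matrix.mul_assoc]
    congr 2
    push_cast
    ring

lemma W_mul_period (s : Fin n → ℝ) (m : ℕ) : D.W s 0 (m * D.T) = D.W s 0 D.T ^ m := by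
  have key : ∀ m : ℕ, D.W s ((m * D.T : ℕ) : ℤ) D.T = D.W s 0 D.T := by
    intro m
    induction m with
    | zero => rw [Nat.zero_mul]; rfl
    | succ m ih =>
      have e : (((m + 1) * D.T : ℕ) : ℤ) = ((m * D.T : ℕ) : ℤ) + D.T := by push_cast; ring
      rw [e, W_period, ih]
  induction m with
  | zero =>
    rw [Nat.zero_mul, pow_zero]
    rfl
  | succ m ih =>
    rw [Nat.succ_mul, W_add, zero_add, key, ih, pow_succ']

/-! ### Nonnegative exponents -/

lemma prod_zpow_pos (s : Fin n → ℝ) (h0 : ∀ i, 0 < s i) (e : Fin n → ℤ) :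
    0 < ∏ i, s i ^ e i := Finset.prod_pos fun i _ => zpow_pos (h0 i) _

lemma exponent_nonneg (E : Multiset (Fin n → ℤ))
    (hE : ∀ s : Fin n → ℝ, (∀ i, 0 < s i) → (∀ i, s i < 1) →
      (E.map fun e => ∏ i, s i ^ e i).sum ≤ n) {e : Fin n → ℤ} (he : e ∈ E) (i : Fin n) :
    0 ≤ e i := by
  classical
  by_contra hneg
  push Not at hneg
  set tot : ℤ := ∑ j ∈ Finset.univ.erase i, e j with htot
  set N : ℕ := tot.toNat + n + 1 with hN
  let s : Fin n → ℝ := fun j => if j = i then (1 / 2) ^ N else 1 / 2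
  have h0 : ∀ j, 0 < s j := by
    intro j
    show 0 < (if j = i then ((1 : ℝ) / 2) ^ N else 1 / 2)
    split_ifs <;> positivity
  have h1 : ∀ j, s j < 1 := by
    intro j
    show (if j = i then ((1 : ℝ) / 2) ^ N else 1 / 2) < 1
    split_ifs
    · exact pow_lt_one₀ (by norm_num) (by norm_num) (by omega)
    · norm_num
  have h2 := hE s h0 h1
  have h3 : ∏ j, s j ^ e j ≤ (E.map fun e => ∏ i, s i ^ e i).sum := by
    obtain ⟨E', rfl⟩ := Multiset.exists_cons_of_mem he
    rw [Multiset.map_cons, Multiset.sum_cons]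
    have h4 : 0 ≤ (E'.map fun e => ∏ i, s i ^ e i).sum := by
      apply Multiset.sum_nonneg
      intro x hx
      obtain ⟨e', _, rfl⟩ := Multiset.mem_map.1 hx
      exact (prod_zpow_pos s h0 e').le
    linarith
  have h4 : ∏ j, s j ^ e j = (2 : ℝ) ^ (-(N : ℤ) * e i - tot) := by
    rw [← Finset.mul_prod_erase _ _ (Finset.mem_univ i)]
    have e1 : s i = (2 : ℝ) ^ (-(N : ℤ)) := by
      show (if i = i then ((1 : ℝ) / 2) ^ N else 1 / 2) = _
      rw [if_pos rfl, _root_.zpow_neg, zpow_natCast, one_div, inv_pow]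
    have e2 : ∏ j ∈ Finset.univ.erase i, s j ^ e j = (2 : ℝ) ^ (-tot) := by
      have e3 : ∀ j ∈ Finset.univ.erase i, s j ^ e j = ((2 : ℝ)⁻¹) ^ e j := by
        intro j hj
        have : s j = (2 : ℝ)⁻¹ := by
          show (if j = i then ((1 : ℝ) / 2) ^ N else 1 / 2) = _
          rw [if_neg (Finset.ne_of_mem_erase hj), one_div]
        rw [this]
      rw [Finset.prod_congr rfl e3]
      have e4 : ∀ (t : Finset (Fin n)), ∏ j ∈ t, ((2 : ℝ)⁻¹) ^ e j = (2 : ℝ) ^ (-∑ j ∈ t, e j) := by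
        intro t
        induction t using Finset.induction_on with
        | empty => simp
        | insert a t ha ih =>
          rw [Finset.prod_insert ha, Finset.sum_insert ha, ih, neg_add,
            zpow_add₀ (by norm_num : (2 : ℝ) ≠ 0), _root_.inv_zpow', _root_.zpow_neg]
      exact e4 _
    rw [e1, e2, ← _root_.zpow_mul, ← zpow_add₀ (by norm_num : (2 : ℝ) ≠ 0)]
    congr 1
  have h5 : ((n : ℤ) + 1) ≤ -(N : ℤ) * e i - tot := by
    have h6 : (N : ℤ) ≤ -(N : ℤ) * e i := by nlinarith [Int.natCast_nonneg N]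
    have h7 : tot + n + 1 ≤ (N : ℤ) := by
      have := Int.self_le_toNat tot
      push_cast [hN]
      omega
    omega
  have h6 : ((2 : ℝ)) ^ ((n : ℤ) + 1) ≤ (2 : ℝ) ^ (-(N : ℤ) * e i - tot) :=
    zpow_le_zpow_right₀ (by norm_num) h5
  have h7 : (n : ℝ) < (2 : ℝ) ^ ((n : ℤ) + 1) := by
    have h8 : n < 2 ^ (n + 1) := (Nat.lt_two_pow_self).trans (Nat.pow_lt_pow_right (by norm_num) (by omega))
    have h9 : ((2 : ℝ)) ^ ((n : ℤ) + 1) = ((2 ^ (n + 1) : ℕ) : ℝ) := by
      push_cast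
      rw [← zpow_natCast]
      congr 1
    rw [h9]
    exact_mod_cast h8
  rw [h4] at h3
  linarith

/-! ### Continuity -/

lemma continuous_E (t : ℤ) : Continuous fun s : Fin n → ℝ => D.E s t := by
  apply continuous_matrix
  intro i j
  simp only [Dia.E]
  split_ifs <;> fun_prop

lemma continuous_W (t : ℤ) (m : ℕ) : Continuous fun s : Fin n → ℝ => D.W s t m := by
  induction m with
  | zero =>
    have : (fun s : Fin n → ℝ => D.W s t 0) = fun _ => 1 := rfl
    rw [this]
    exact continuous_const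
  | succ m ih =>
    have : (fun s : Fin n → ℝ => D.W s t (m + 1))
        = fun s => D.E s (t + m) * D.W s t m := rfl
    rw [this]
    exact (continuous_E D _).matrix_mul ih

lemma continuous_trace_pow (m : ℕ) :
    Continuous fun s : Fin n → ℝ => trace ((D.W s 0 D.T) ^ m) := by
  have h1 : Continuous fun s : Fin n → ℝ => (D.W s 0 D.T) ^ m := by
    induction m with
    | zero => simp only [pow_zero]; exact continuous_const
    | succ m ih => simp only [pow_succ]; exact ih.matrix_mul (continuous_W D _ _)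
  exact h1.matrix_trace

/-- **Rigidity.** If the traces of the powers of the braid of one period are sums of monomials,
the diagram is rigid. -/
theorem rigid_of_monTraces {E : Multiset (Fin n → ℤ)} (hE : MonTraces (dbraid D) E) : D.Rigid := by
  classical
  obtain ⟨E1, hE1⟩ : ∃ E1 : Multiset (Fin n → ℤ), E1 = E.map fun e => e ∘ posE D 0 := ⟨_, rfl⟩
  -- the traces for colours in the open interval
  have hopen : ∀ s : Fin n → ℝ, (∀ i, 0 < s i) → (∀ i, s i < 1) → ∀ m : ℕ,
      trace ((D.W s 0 D.T) ^ m) = (E1.map fun e => (∏ i, s i ^ e i) ^ m).sum := by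
    intro s h0 h1 m
    let u : Fin n → ℝˣ := fun i => Units.mk0 (s i) (h0 i).ne'
    have hu : (fun i => (u i : ℝ)) = s := rfl
    have h2 := trace_dbraid D u m
    rw [hu, ← trace_W_open D s h0 h1 m] at h2
    rw [← h2, hE ℝ (toPos D 0 u) m, hE1, Multiset.map_map]
    congr 1
    apply Multiset.map_congr rfl
    intro e _
    rw [Function.comp_apply]
    congr 1
    rw [mon, Units.coe_prod, ← Equiv.prod_comp (posE D 0)]
    apply Finset.prod_congr rfl
    intro j _
    rw [Units.val_zpow_eq_zpow_val, toPos, Function.comp_apply, Equiv.symm_apply_apply]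
    rfl
  -- the exponents are nonnegative
  have hnn : ∀ e ∈ E1, ∀ i, 0 ≤ e i := by
    intro e he i
    apply exponent_nonneg E1 _ he i
    intro s h0 h1
    have h2 := hopen s h0 h1 1
    rw [pow_one] at h2
    simp only [pow_one] at h2
    rw [← h2]
    exact (stoch_W D s (fun i => (h0 i).le) (fun i => (h1 i).le) 0 D.T).trace_le
  obtain ⟨Ex, hEx⟩ : ∃ Ex : Multiset (Fin n → ℕ), Ex = E1.map fun e i => (e i).toNat := ⟨_, rfl⟩
  have hopen' : ∀ s : Fin n → ℝ, (∀ i, 0 < s i) → (∀ i, s i < 1) → ∀ m : ℕ,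
      trace ((D.W s 0 D.T) ^ m) = (Ex.map fun e => (∏ i, s i ^ e i) ^ m).sum := by
    intro s h0 h1 m
    rw [hopen s h0 h1 m, hEx, Multiset.map_map]
    congr 1
    apply Multiset.map_congr rfl
    intro e he
    rw [Function.comp_apply]
    congr 1
    apply Finset.prod_congr rfl
    intro i _
    have h2 : ((e i).toNat : ℤ) = e i := Int.toNat_of_nonneg (hnn e he i)
    rw [← zpow_natCast, h2]
  -- continuity
  have hcont : ∀ m : ℕ, Continuous fun s : Fin n → ℝ => (Ex.map fun e => (∏ i, s i ^ e i) ^ m).sum := by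
    intro m
    have h1 := continuous_multiset_sum (f := fun (e : Fin n → ℕ) (s : Fin n → ℝ) =>
      (∏ i, s i ^ e i) ^ m) Ex (fun e _ => by fun_prop)
    exact h1
  have hclosed : ∀ s : Fin n → ℝ, (∀ i, 0 ≤ s i) → (∀ i, s i ≤ 1) → ∀ m : ℕ,
      trace ((D.W s 0 D.T) ^ m) = (Ex.map fun e => (∏ i, s i ^ e i) ^ m).sum := by
    intro s h0 h1 m
    have h2 : Set.EqOn (fun s : Fin n → ℝ => trace ((D.W s 0 D.T) ^ m))
        (fun s => (Ex.map fun e => (∏ i, s i ^ e i) ^ m).sum)
        (Set.pi Set.univ fun _ : Fin n => Set.Ioo (0 : ℝ) 1) := by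
      intro s hs
      exact hopen' s (fun i => (hs i (Set.mem_univ i)).1) (fun i => (hs i (Set.mem_univ i)).2) m
    have h3 := h2.closure (continuous_trace_pow D m) (hcont m)
    apply h3
    rw [closure_pi_set]
    intro i _
    rw [closure_Ioo (by norm_num)]
    exact ⟨h0 i, h1 i⟩
  refine ⟨Ex, ?_⟩
  intro m s h0 h1
  have h2 : (Ex.map fun e => (X - C (∏ i, s i ^ (m * e i)) : ℝ[X]))
      = (Ex.map fun e => ∏ i, s i ^ (m * e i)).map fun x => X - C x := by
    rw [Multiset.map_map]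
    rfl
  rw [h2]
  apply charpoly_of_traces
  intro j
  rw [W_mul_period, ← pow_mul, hclosed s h0 h1 (m * j), Multiset.map_map]
  congr 1
  apply Multiset.map_congr rfl
  intro e _
  rw [Function.comp_apply, pow_mul, ← Finset.prod_pow]
  congr 2
  funext i
  rw [← pow_mul, mul_comm]

end

end Pool.Agent.H69.AMU
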