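import Pool.Agent.H69.AMM.Walk
import Pool.Agent.H61.AMU.Similar

set_option autoImplicit false

/-! # Fusion paths with one descent and functions on the sites -/

namespace Pool.Agent.H69.AMU

open FusionPath Matrix Pool.Agent.H61.AMU

/-- The value of the function of the path with initial ascent `j` on the sites below `j`. -/
noncomputable def al (A : ℂ) (j : ℕ) : ℂ := (-1) ^ j * A ^ 2 / (unknot A (j - 1) * unknot A j)

/-- The value of the function of the path with initial ascent `j` at the site `j`. -/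
noncomputable def be (A : ℂ) (j : ℕ) : ℂ := ((A ^ 2)⁻¹) ^ j / unknot A j

/-- The function of the path with initial ascent `j`. -/
noncomputable def sf (A : ℂ) (j x : ℕ) : ℂ := if x < j then al A j else if x = j then be A j else 0

lemma sf_lt (A : ℂ) {j x : ℕ} (h : x < j) : sf A j x = al A j := if_pos h

lemma sf_self (A : ℂ) {j x : ℕ} (h : x = j) : sf A j x = be A j := by
  rw [sf, if_neg (by omega), if_pos h]

lemma sf_gt (A : ℂ) {j x : ℕ} (h : j < x) : sf A j x = 0 := by
  rw [sf, if_neg (by omega), if_neg (by omega)]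

/-- The intertwiner from paths with one descent to functions on the sites. -/
noncomputable def Phi1 (N c : ℕ) (A : ℂ) : Matrix (Fin N) (FusionPath N c N) ℂ :=
  fun x p => sf A (hgt p) x

lemma unknot_rel (A : ℂ) (hA : A ≠ 0) (g : ℕ) :
    unknot A g + A ^ 2 * unknot A (g + 1) = (-1) ^ (g + 1) * (A ^ 2) ^ (g + 2) := by
  induction g with
  | zero =>
    simp only [unknot]
    field_simp
    ring
  | succ g ih =>
    have h2 : unknot A (g + 2) = (-A ^ 2 - (A ^ 2)⁻¹) * unknot A (g + 1) - unknot A g := rfl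
    have h3 : unknot A (g + 1) + A ^ 2 * unknot A (g + 2)
        = -A ^ 2 * (unknot A g + A ^ 2 * unknot A (g + 1)) := by
      rw [h2]
      field_simp
      ring
    rw [show g + 1 + 1 = g + 2 from rfl, h3, ih]
    ring

/-- The differences of the functions of the paths. -/
lemma sf_diff {A : ℂ} (hA : A ≠ 0) {g j : ℕ} (hg : unknot A g ≠ 0) (hg1 : unknot A (g + 1) ≠ 0) :
    sf A j g - sf A j (g + 1) = if j = g ∨ j = g + 1 then be A g else 0 := by
  unfold sf
  rcases lt_trichotomy j g with h | h | h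
  · rw [if_neg (by omega), if_neg (by omega), if_neg (by omega), if_neg (by omega),
      if_neg (by omega), sub_zero]
  · subst h
    rw [if_neg (by omega), if_pos rfl, if_neg (by omega), if_neg (by omega), if_pos (Or.inl rfl),
      sub_zero]
  · by_cases h2 : j = g + 1
    · subst h2
      rw [if_pos (by omega), if_neg (by omega), if_pos rfl, if_pos (Or.inr rfl), al, be, be,
        Nat.add_sub_cancel]
      have h3 := unknot_rel A hA g
      have hA2 : (A ^ 2) ^ (g + 1) ≠ 0 := pow_ne_zero _ (pow_ne_zero _ hA)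
      have h4 : (A ^ 2) ^ (g + 2) = (A ^ 2) ^ (g + 1) * A ^ 2 := pow_succ _ _
      have h5 : (A ^ 2) ^ (g + 1) = (A ^ 2) ^ g * A ^ 2 := pow_succ _ _
      have hA3 : (A ^ 2) ^ g ≠ 0 := pow_ne_zero _ (pow_ne_zero _ hA)
      rw [h4, h5] at h3
      rw [inv_pow, inv_pow, h5]
      field_simp
      linear_combination -h3
    · rw [if_pos (by omega), if_pos (by omega), if_neg (by omega), sub_self]

/-- The value of the cup-cap element composed with the intertwiner. -/
lemma Phi1_cupcap {N c : ℕ} {A : ℂ} (hA : Admissible N N A) (hc : c + 2 = N) {g : ℕ}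
    (hg : g + 1 < N) (x : Fin N) (p : FusionPath N c N) :
    (Phi1 N c A * cupcap N c N A g) x p =
      if hgt p = g ∨ hgt p = g + 1 then
        be A g * ((if (x : ℕ) = g + 1 then (A ^ 2)⁻¹ else 0) - (if (x : ℕ) = g then A ^ 2 else 0))
      else 0 := by
  classical
  rw [Matrix.mul_apply]
  have hlg := lab_eq hc p g (by omega)
  have hlg2 := lab_eq hc p (g + 2) (by omega)
  have h1 := one_le_hgt hc p
  by_cases hh : hgt p = g ∨ hgt p = g + 1
  · rw [if_pos hh]
    have e1 : p.lab g = g := by
      rw [hlg, if_pos (by omega)]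
    have e2 : p.lab (g + 2) = g := by
      rw [hlg2, if_neg (by omega)]
      omega
    have e12 : p.lab g = p.lab (g + 2) := by rw [e1, e2]
    let F : ℕ → ℂ := fun b => (if b = g + 1 then sf A (g + 1) x else sf A g x) *
      (unknot A b / unknot A g)
    have hsum : ∀ q : FusionPath N c N, Phi1 N c A x q * cupcap N c N A g q p
        = if AgreeOff (g + 1) q p then F (q.lab (g + 1)) else 0 := by
      intro q
      by_cases hq : AgreeOff (g + 1) q p
      · rw [cupcap_apply_pos hq e12, if_pos hq, e1]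
        have hq1 : q.lab g = g := by rw [hq g (by omega), e1]
        have hq2 : q.lab (g + 2) = g := by rw [hq (g + 2) (by omega), e2]
        show Phi1 N c A x q * _ = (if q.lab (g + 1) = g + 1 then sf A (g + 1) x
          else sf A g x) * _
        congr 1
        by_cases hb : q.lab (g + 1) = g + 1
        · rw [if_pos hb]
          have hh' : hgt q = g + 1 := by
            apply hgt_eq hc q (g + 1) (by omega) hb
            rw [show g + 1 + 1 = g + 2 from rfl, hq2]
            omega
          simp only [Phi1, hh']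
        · rw [if_neg hb]
          have hh' : hgt q = g := hgt_eq hc q g (by omega) hq1 hb
          simp only [Phi1, hh']
      · rw [if_neg hq, cupcap_apply_neg (fun h => hq h.1), mul_zero]
    rw [Finset.sum_congr rfl (fun q _ => hsum q), sum_agreeOff p g hg e12 F, e1,
      sum_range_neighbors F g N (by omega), if_pos (by omega : g + 1 ≤ N)]
    have hA0 := hA.1
    have d1 : unknot A g ≠ 0 := hA.2.1 g (by omega)
    have d2 : unknot A (g + 1) ≠ 0 := hA.2.1 (g + 1) (by omega)
    have hF1 : F (g + 1) = sf A (g + 1) x * (unknot A (g + 1) / unknot A g) := by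
      show (if g + 1 = g + 1 then sf A (g + 1) x else sf A g x) * _ = _
      rw [if_pos rfl]
    have hrel := unknot_rel A hA0 g
    have hA3 : (A ^ 2) ^ g ≠ 0 := pow_ne_zero _ (pow_ne_zero _ hA0)
    have h5 : (A ^ 2) ^ (g + 1) = (A ^ 2) ^ g * A ^ 2 := pow_succ _ _
    have h6 : (A ^ 2) ^ (g + 2) = (A ^ 2) ^ g * A ^ 2 * A ^ 2 := by rw [pow_succ, h5]
    have vF1 : F (g + 1) = if (x : ℕ) < g + 1 then (-1) ^ (g + 1) * A ^ 2 / (unknot A g) ^ 2
        else if (x : ℕ) = g + 1 then (A ^ 2)⁻¹ * be A g else 0 := by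
      rw [hF1]
      rcases lt_trichotomy (x : ℕ) (g + 1) with h | h | h
      · rw [if_pos h, sf_lt A h, al, Nat.add_sub_cancel]
        field_simp
      · rw [if_neg (by omega), if_pos h, sf_self A h, be, be, pow_succ]
        field_simp
      · rw [if_neg (by omega), if_neg (by omega), sf_gt A h, zero_mul]
    rcases Nat.eq_zero_or_pos g with h0 | h0
    · subst h0
      have u0 : unknot A 0 = 1 := rfl
      have b0 : be A 0 = 1 := by rw [be, u0, pow_zero, div_one]
      rw [if_neg (by omega : ¬ 1 ≤ 0), add_zero, vF1, b0, u0]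
      by_cases hx : (x : ℕ) = 0
      · rw [if_pos (by omega), if_neg (by omega), if_pos hx]
        ring
      · by_cases hx1 : (x : ℕ) = 0 + 1
        · rw [if_neg (by omega), if_pos hx1, if_pos hx1, if_neg hx]
          ring
        · rw [if_neg (by omega), if_neg hx1, if_neg hx1, if_neg hx]
          ring
    · obtain ⟨k, rfl⟩ : ∃ k, g = k + 1 := ⟨g - 1, by omega⟩
      have d0 : unknot A k ≠ 0 := hA.2.1 k (by omega)
      have hF0 : F (k + 1 - 1) = sf A (k + 1) x * (unknot A k / unknot A (k + 1)) := by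
        show (if k + 1 - 1 = k + 1 + 1 then sf A (k + 1 + 1) x
          else sf A (k + 1) x) * (unknot A (k + 1 - 1) / unknot A (k + 1)) = _
        rw [if_neg (by omega), Nat.add_sub_cancel]
      have hrel0 := unknot_rel A hA0 k
      have hm : ((-1 : ℂ)) ^ (k + 1 + 1) = - (-1) ^ (k + 1) := by rw [pow_succ]; ring
      have vF0 : F (k + 1 - 1) = if (x : ℕ) < k + 1 then (-1) ^ (k + 1) * A ^ 2 / (unknot A (k + 1)) ^ 2
          else if (x : ℕ) = k + 1 then be A (k + 1) * (unknot A k / unknot A (k + 1)) else 0 := by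
        rw [hF0]
        rcases lt_trichotomy (x : ℕ) (k + 1) with h | h | h
        · rw [if_pos h, sf_lt A h, al, Nat.add_sub_cancel]
          field_simp
        · rw [if_neg (by omega), if_pos h, sf_self A h]
        · rw [if_neg (by omega), if_neg (by omega), sf_gt A h, zero_mul]
      rw [if_pos (by omega : 1 ≤ k + 1), vF1, vF0, hm]
      rcases lt_trichotomy (x : ℕ) (k + 1) with h | h | h
      · rw [if_pos (by omega), if_pos h, if_neg (by omega), if_neg (by omega)]
        ring
      · rw [if_pos (by omega), if_neg (by omega), if_pos h, if_neg (by omega), if_pos h, be, inv_pow]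
        have h7 : (A ^ 2) ^ (k + 2) = (A ^ 2) ^ (k + 1) * A ^ 2 := pow_succ _ _
        have hA4 : (A ^ 2) ^ (k + 1) ≠ 0 := pow_ne_zero _ (pow_ne_zero _ hA0)
        rw [h7] at hrel0
        generalize (A ^ 2) ^ (k + 1) = Y at *
        generalize ((-1 : ℂ)) ^ (k + 1) = e at *
        field_simp
        linear_combination hrel0
      · by_cases hx1 : (x : ℕ) = k + 1 + 1
        · rw [if_neg (by omega), if_pos hx1, if_neg (by omega), if_neg (by omega), if_pos hx1,
            if_neg (by omega)]
          ring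
        · rw [if_neg (by omega), if_neg hx1, if_neg (by omega), if_neg (by omega), if_neg (by omega),
            if_neg (by omega)]
          ring
  · rw [if_neg hh]
    apply Finset.sum_eq_zero
    intro q _
    rw [cupcap_apply_neg, mul_zero]
    rintro ⟨_, h2⟩
    rw [hlg, hlg2] at h2
    split_ifs at h2 <;> omega

/-- The intertwining relation for the cup-cap elements. -/
lemma Phi1_cupcap' {N c : ℕ} {A : ℂ} (hA : Admissible N N A) (hc : c + 2 = N) {g : ℕ}
    (hg : g < N - 1) :
    Phi1 N c A * cupcap N c N A g = A ^ 2 • ((wmat N g (A ^ 4)⁻¹ - 1) * Phi1 N c A) := by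
  have hA0 := hA.1
  ext x p
  rw [Phi1_cupcap hA hc (by omega) x p, Matrix.smul_apply, Matrix.sub_mul, Matrix.one_mul,
    Matrix.sub_apply, smul_eq_mul]
  have e1 : (wmat N g (A ^ 4)⁻¹ * Phi1 N c A) x p
      = gv 0 (wmat N g (A ^ 4)⁻¹ *ᵥ fun y => Phi1 N c A y p) x := by
    rw [gv_val]
    rfl
  have e2 : ∀ j, j < N → gv 0 (fun y => Phi1 N c A y p) j = sf A (hgt p) j := by
    intro j hj
    rw [gv_of_lt 0 _ hj]
    rfl
  have hd := sf_diff (j := hgt p) hA0 (hA.2.1 g (by omega)) (hA.2.1 (g + 1) (by omega))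
  have e3 : Phi1 N c A x p = sf A (hgt p) x := rfl
  rw [e1, wmat_mulVec hg, e2 _ (by omega : g + 1 < N), e2 _ (by omega : g < N), e2 _ x.2, e3]
  by_cases h1 : (x : ℕ) = g
  · have v1 : (if (x : ℕ) = g + 1 then (A ^ 2)⁻¹ else 0) = 0 := if_neg (by omega)
    have v2 : (if (x : ℕ) = g then A ^ 2 else 0) = A ^ 2 := if_pos h1
    rw [v1, v2, if_pos h1, h1]
    have h3 : sf A (hgt p) (g + 1) - sf A (hgt p) g
        = - (if hgt p = g ∨ hgt p = g + 1 then be A g else 0) := by
      rw [← hd]
      ring
    rw [h3]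
    split_ifs <;> ring
  · by_cases h2 : (x : ℕ) = g + 1
    · have v1 : (if (x : ℕ) = g + 1 then (A ^ 2)⁻¹ else 0) = (A ^ 2)⁻¹ := if_pos h2
      have v2 : (if (x : ℕ) = g then A ^ 2 else 0) = 0 := if_neg h1
      rw [v1, v2, if_neg h1, if_pos h2, h2]
      have h3 : (A ^ 4)⁻¹ * sf A (hgt p) g + (1 - (A ^ 4)⁻¹) * sf A (hgt p) (g + 1)
            - sf A (hgt p) (g + 1)
          = (A ^ 4)⁻¹ * (if hgt p = g ∨ hgt p = g + 1 then be A g else 0) := by
        rw [← hd]
        ring
      rw [h3]
      split_ifs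
      · field_simp
        ring
      · ring
    · have v1 : (if (x : ℕ) = g + 1 then (A ^ 2)⁻¹ else 0) = 0 := if_neg h2
      have v2 : (if (x : ℕ) = g then A ^ 2 else 0) = 0 := if_neg h1
      rw [v1, v2, if_neg h1, if_neg h2]
      split_ifs <;> ring

/-- The inverse of the fourth power of the Kauffman variable. -/
noncomputable def vA (A : ℂ) (hA : A ≠ 0) : ℂˣ := ((Units.mk0 A hA) ^ 4)⁻¹

lemma vA_val (A : ℂ) (hA : A ≠ 0) : ((vA A hA : ℂˣ) : ℂ) = (A ^ 4)⁻¹ := by
  rw [vA, Units.val_inv_eq_inv_val, Units.val_pow_eq_pow_val]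
  rfl

lemma artinSeq_const {G : Type} [Group G] (x : G) (M : ℕ) : ArtinSeq (fun _ => x) M :=
  ⟨fun _ _ _ _ => rfl, fun _ _ => rfl⟩

/-- The exponent sum of a braid. -/
noncomputable def expSum (N : ℕ) : BraidGroup N →* Multiplicative ℤ :=
  braidLift (artinSeq_const (Multiplicative.ofAdd (1 : ℤ)) (N - 1))

lemma expSum_gen {N i : ℕ} (hi : i < N - 1) : expSum N (gen N i) = Multiplicative.ofAdd (1 : ℤ) :=
  braidLift_gen _ hi

/-- The factor by which the walk matrix has to be multiplied. -/
noncomputable def chi {N : ℕ} (A : ℂ) (β : BraidGroup N) : ℂ := A ^ (Multiplicative.toAdd (expSum N β))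

lemma chi_gen {N i : ℕ} (A : ℂ) (hi : i < N - 1) : chi A (gen N i) = A := by
  rw [chi, expSum_gen hi, toAdd_ofAdd, zpow_one]

lemma chi_one {N : ℕ} (A : ℂ) : chi A (1 : BraidGroup N) = 1 := by
  rw [chi, map_one, toAdd_one, zpow_zero]

lemma chi_mul {N : ℕ} {A : ℂ} (hA : A ≠ 0) (β γ : BraidGroup N) :
    chi A (β * γ) = chi A β * chi A γ := by
  rw [chi, map_mul, toAdd_mul, zpow_add₀ hA]
  rfl

lemma chi_inv {N : ℕ} {A : ℂ} (β : BraidGroup N) : chi A β⁻¹ = (chi A β)⁻¹ := by
  rw [chi, map_inv, toAdd_inv, _root_.zpow_neg]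
  rfl

lemma chi_ne_zero {N : ℕ} {A : ℂ} (hA : A ≠ 0) (β : BraidGroup N) : chi A β ≠ 0 :=
  zpow_ne_zero _ hA

section
variable {n : ℕ} {K : Type} [CommRing K]

lemma walkU_mul_const (β γ : BraidGroup n) (v : Kˣ) :
    walkU (β * γ) (fun _ => v) = walkU β (fun _ => v) * walkU γ (fun _ => v) := by
  rw [walkU_mul]
  rfl

lemma walkU_inv_const (β : BraidGroup n) (v : Kˣ) :
    walkU β⁻¹ (fun _ => v) = (walkU β (fun _ => v))⁻¹ := by
  rw [walkU_inv]
  rfl

end

/-- The intertwining relation. -/
lemma Phi1_braid {N c : ℕ} {A : ℂ} (hA : Admissible N N A) (hc : c + 2 = N) (β : BraidGroup N) :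
    Phi1 N c A * (braidRep N c N A hA β).val
      = chi A β • ((walkU β (fun _ => vA A hA.1)).val * Phi1 N c A) := by
  have hA0 := hA.1
  have hmem : β ∈ Subgroup.closure (gen N '' Set.Iio (N - 1)) := by
    rw [closure_gen]; exact Subgroup.mem_top β
  induction hmem using Subgroup.closure_induction with
  | mem x hx =>
    obtain ⟨g, hg, rfl⟩ := hx
    have hg' : g < N - 1 := hg
    have e1 : (braidRep N c N A hA (gen N g)).val = crossing N c N A g := by
      rw [gen_of_lt hg', braidRep_of]
      rfl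
    have e2 : (walkU (gen N g) (fun _ : Fin N => vA A hA0)).val = wmat N g (A ^ 4)⁻¹ := by
      rw [walkU_gen hg', ← vA_val A hA0]
      show wmat N g _ = _
      rw [gv_of_lt 1 _ (by omega : g < N)]
    rw [e1, e2, chi_gen A hg', crossing, Matrix.mul_add, Matrix.mul_smul, Matrix.mul_one,
      Matrix.mul_smul, Phi1_cupcap' hA hc hg', smul_smul, Matrix.sub_mul, Matrix.one_mul, smul_sub]
    have e3 : A⁻¹ * A ^ 2 = A := by field_simp
    rw [e3]
    abel
  | one => rw [map_one, walkU_one, chi_one, Units.val_one, Units.val_one, Matrix.mul_one,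
      Matrix.one_mul, one_smul]
  | mul x y _ _ hx hy =>
    rw [map_mul, Units.val_mul, ← Matrix.mul_assoc, hx, Matrix.smul_mul, Matrix.mul_assoc, hy,
      walkU_mul_const, chi_mul hA0, Units.val_mul, Matrix.mul_smul, smul_smul, Matrix.mul_assoc]
  | inv x _ hx =>
    rw [map_inv, walkU_inv_const, chi_inv]
    set g := braidRep N c N A hA x
    set w := walkU x (fun _ : Fin N => vA A hA0)
    have h3 : g.val * (g⁻¹).val = 1 := by rw [← Units.val_mul, mul_inv_cancel, Units.val_one]
    have h4 : (w⁻¹).val * w.val = 1 := by rw [← Units.val_mul, inv_mul_cancel, Units.val_one]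
    have h5 : Phi1 N c A = chi A x • (w.val * Phi1 N c A) * (g⁻¹).val := by
      rw [← hx, Matrix.mul_assoc, h3, Matrix.mul_one]
    have h6 : (w⁻¹).val * Phi1 N c A = chi A x • (Phi1 N c A * (g⁻¹).val) := by
      calc (w⁻¹).val * Phi1 N c A = (w⁻¹).val * (chi A x • (w.val * Phi1 N c A) * (g⁻¹).val) := by
            rw [← h5]
        _ = chi A x • (((w⁻¹).val * w.val) * Phi1 N c A * (g⁻¹).val) := by
            simp only [Matrix.smul_mul, Matrix.mul_smul, Matrix.mul_assoc]
        _ = _ := by rw [h4, Matrix.one_mul]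
    rw [h6, smul_smul, inv_mul_cancel₀ (chi_ne_zero hA0 x), one_smul]

end Pool.Agent.H69.AMU
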