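import Pool.Agent.H69.AMM.Block
import Pool.Agent.H69.AMM.Mixed

set_option autoImplicit false

/-! # The coloured space with one descent and block constant functions -/

namespace Pool.Agent.H69.AMU

open FusionPath Matrix Pool.Agent.H61.AMU

/-! ### The Jones-Wenzl idempotents -/

lemma jonesWenzl_mulVec {ι : Type} [Fintype ι] [DecidableEq ι] (u : ℕ → Matrix ι ι ℂ) (A : ℂ)
    (m k : ℕ) (y : ι → ℂ) (h : ∀ i, m ≤ i → i + 1 < m + k → u i *ᵥ y = 0) :
    jonesWenzl u A m k *ᵥ y = y := by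
  induction k using Nat.strong_induction_on with
  | _ k ih =>
    rcases k with _ | _ | k
    · simp [jonesWenzl]
    · simp [jonesWenzl]
    · have h1 := ih (k + 1) (by omega) (fun i hi hi' => h i hi (by omega))
      have h2 := h (m + k) (by omega) (by omega)
      rw [jonesWenzl_succ, Matrix.sub_mulVec, Matrix.smul_mulVec, ← Matrix.mulVec_mulVec,
        ← Matrix.mulVec_mulVec, h1, h2, Matrix.mulVec_zero, smul_zero, sub_zero]

lemma mixProj_mulVec {ι : Type} [Fintype ι] [DecidableEq ι] {n : ℕ} (u : ℕ → Matrix ι ι ℂ) (A : ℂ)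
    (k : Fin n → ℕ) (y : ι → ℂ)
    (h : ∀ (i : Fin n) (g : ℕ), offset k i ≤ g → g + 1 < offset k i + k i → u g *ᵥ y = 0)
    (i : ℕ) : mixProj u A k i *ᵥ y = y := by
  induction i with
  | zero => rw [mixProj, Matrix.one_mulVec]
  | succ i ih =>
    by_cases hi : i < n
    · rw [mixProj_succ k hi, ← Matrix.mulVec_mulVec,
        jonesWenzl_mulVec u A _ _ y (fun g hg hg' => h ⟨i, hi⟩ g hg hg'), ih]
    · rw [mixProj, dif_neg hi, Matrix.mul_one, ih]

lemma mixProj_annihilate {R : Type*} [Ring R] [Algebra ℂ R] {n : ℕ} {u : ℕ → R} {M : ℕ} {A : ℂ}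
    (hu : TLSeq u M A) (k : Fin n → ℕ) (hM : offset k n ≤ M + 1)
    (hΔ : ∀ (a : Fin n) (j : ℕ), j < k a → unknot A j ≠ 0) (b : Fin n) {g : ℕ}
    (hg : offset k b ≤ g) (hg' : g + 1 < offset k b + k b) (i : ℕ) (hi : (b : ℕ) < i) (hin : i ≤ n) :
    u g * mixProj u A k i = 0 := by
  obtain ⟨d, rfl⟩ : ∃ d, i = b + 1 + d := ⟨i - (b + 1), by omega⟩
  clear hi
  induction d with
  | zero =>
    have h0 := offset_succ k b.2
    have h1 := offset_mono k (by omega : (b : ℕ) + 1 ≤ n)
    have e : k ⟨b, b.2⟩ = k b := rfl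
    show u g * mixProj u A k (b + 1) = 0
    rw [mixProj_succ k b.2, ← mul_assoc, mixProj_comm (x := u g) k b (by omega) (fun j hj =>
      (hu.comm j g (by omega) (by omega)).symm), mul_assoc, e]
    obtain ⟨l, hl⟩ : ∃ l, k b = l + 1 := ⟨k b - 1, by omega⟩
    have h2 := (jonesWenzl_spec hu (offset k b) l (by omega)
      (fun i hi => hΔ b i (by omega))).2.2.2.2 g hg (by omega)
    rw [hl, h2.1, mul_zero]
  | succ d ih =>
    show u g * mixProj u A k (b + 1 + d + 1) = 0
    rw [mixProj_succ k (by omega : b + 1 + d < n), ← mul_assoc, ih (by omega), zero_mul]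

section
variable {n N c : ℕ} {A : ℂ}

/-- The cup-cap elements correspond to differences. -/
lemma SM_cupcap (hA : Admissible N N A) (hc : c + 2 = N) {g : ℕ} (hg : g < N - 1) :
    SM N c A * extM (cupcap N c N A g) 0 = (A ^ 2 • (wmat N g (A ^ 4)⁻¹ - 1)) * SM N c A := by
  apply SM_mul_extM
  · rw [Phi1_cupcap' hA hc hg, Matrix.smul_mul]
  · rw [Matrix.smul_mulVec, Matrix.sub_mulVec, wmat_mulVec_one hg _ _ (1 : ℂ) rfl,
      Matrix.one_mulVec, sub_self, smul_zero]
    rfl

lemma extM_mulVec_inl (M : Matrix (FusionPath N c N) (FusionPath N c N) ℂ) (κ : ℂ)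
    (y : FusionPath N c N ⊕ Unit → ℂ) (p : FusionPath N c N) :
    (extM M κ *ᵥ y) (Sum.inl p) = (M *ᵥ fun q => y (Sum.inl q)) p := by
  rw [Matrix.mulVec, dotProduct, Matrix.mulVec, dotProduct, Fintype.sum_sum_type]
  simp [extM]

lemma extM_mulVec_inr (M : Matrix (FusionPath N c N) (FusionPath N c N) ℂ) (κ : ℂ)
    (y : FusionPath N c N ⊕ Unit → ℂ) (u : Unit) :
    (extM M κ *ᵥ y) (Sum.inr u) = κ * y (Sum.inr u) := by
  rw [Matrix.mulVec, dotProduct, Fintype.sum_sum_type]
  simp [extM]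

/-- The trace on the coloured space in terms of the coloured walk matrix. -/
theorem trace_mixIdem (k : ColVec n N) (hk : ∀ i, 0 < k.1 i) (hA : Admissible N N A)
    (hc : c + 2 = N) {β : BraidGroup n} (hβ : β ∈ pureBraid n) (m : ℕ) :
    trace ((braidRep N c N A hA (cabled k β)).val ^ m * mixIdem k c N A)
      = chi A (cabled k β) ^ m * (trace ((walkU β (fun j => vA A hA.1 ^ k.1 j)).val ^ m) - 1) := by
  classical
  obtain ⟨S', h1, h2⟩ := exists_SM_inv (c := c) hA hc
  have hA0 := hA.1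
  have hA2 : A ^ 2 ≠ 0 := pow_ne_zero _ hA0
  set S := SM N c A with hS
  set E := mixIdem k c N A with hE
  set J := blockMat k ℂ with hJ
  set Q := S * extM E 1 * S' with hQ
  have hΔ : ∀ (a : Fin n) (j : ℕ), j < k.1 a → unknot A j ≠ 0 := by
    intro a j hj
    have := ColVec.le k a
    exact hA.2.1 j (by omega)
  have hoff := ColVec.offset_last k
  have htl := tlSeq_cupcap (c := c) hA
  -- the idempotent fixes the block constant functions
  have hQJ : Q * J = J := by
    apply Matrix.ext_of_mulVec_single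
    intro i
    set f : Fin n → ℂ := Pi.single i 1 with hf
    set y := S' *ᵥ (J *ᵥ f) with hy
    have hSy : S *ᵥ y = J *ᵥ f := by
      rw [hy, Matrix.mulVec_mulVec, h1, Matrix.one_mulVec]
    have hzero : ∀ (b : Fin n) (g : ℕ), offset k.1 b ≤ g → g + 1 < offset k.1 b + k.1 b →
        cupcap N c N A g *ᵥ (fun q => y (Sum.inl q)) = 0 := by
      intro b g hg hg'
      have h0 := offset_succ k.1 b.2
      have h3 := offset_le k.1 (b + 1)
      have h4 := k.2
      have e : k.1 ⟨b, b.2⟩ = k.1 b := rfl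
      have hgN : g < N - 1 := by omega
      have hz : extM (cupcap N c N A g) 0 *ᵥ y = 0 := by
        apply SM_injective hA hc
        rw [Matrix.mulVec_mulVec, SM_cupcap hA hc hgN, ← Matrix.mulVec_mulVec, ← hS, hSy,
          Matrix.smul_mulVec, Matrix.sub_mulVec, Matrix.one_mulVec]
        have hfix : wmat N g (A ^ 4)⁻¹ *ᵥ (J *ᵥ f) = J *ᵥ f := by
          funext x
          have e1 := wmat_mulVec hgN (A ^ 4)⁻¹ (J *ᵥ f) x
          have g1 : gv 0 (J *ᵥ f) g = f b := blockMat_mulVec k f (by omega) ⟨hg, by omega⟩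
          have g2 : gv 0 (J *ᵥ f) (g + 1) = f b :=
            blockMat_mulVec k f (by omega) ⟨by omega, by omega⟩
          rw [gv_val, g1, g2, gv_val] at e1
          rw [e1]
          by_cases hx1 : (x : ℕ) = g
          · rw [if_pos hx1, ← g1, ← hx1, gv_val]
          · by_cases hx2 : (x : ℕ) = g + 1
            · rw [if_neg hx1, if_pos hx2]
              have : (J *ᵥ f) x = f b := by rw [← g2, ← hx2, gv_val]
              rw [this]
              ring
            · rw [if_neg hx1, if_neg hx2]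
        rw [hfix, sub_self, smul_zero]
      funext p
      rw [← extM_mulVec_inl (cupcap N c N A g) 0 y p, hz]
      rfl
    have hfixE : E *ᵥ (fun q => y (Sum.inl q)) = fun q => y (Sum.inl q) :=
      mixProj_mulVec (cupcap N c N A) A k.1 _ hzero n
    have hfix : extM E 1 *ᵥ y = y := by
      funext a
      rcases a with p | u
      · rw [extM_mulVec_inl, hfixE]
      · rw [extM_mulVec_inr, one_mul]
    calc (Q * J) *ᵥ f = S *ᵥ (extM E 1 *ᵥ y) := by
          rw [hQ, hy]
          simp only [Matrix.mulVec_mulVec, Matrix.mul_assoc]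
      _ = J *ᵥ f := by rw [hfix, hSy]
  -- the image of the idempotent consists of block constant functions
  have hQconst : ∀ (b : Fin n) (g : ℕ), offset k.1 b ≤ g → g + 1 < offset k.1 b + k.1 b →
      ∀ (h3 : g < N) (h4 : g + 1 < N) (y : Fin N), Q ⟨g + 1, h4⟩ y = Q ⟨g, h3⟩ y := by
    intro b g hg hg' h3 h4 y
    have hgN : g < N - 1 := by omega
    have hann : cupcap N c N A g * E = 0 :=
      mixProj_annihilate htl k.1 (by omega) hΔ b hg hg' n b.2 le_rfl
    have hz : (A ^ 2 • (wmat N g (A ^ 4)⁻¹ - 1)) * Q = 0 := by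
      have e1 : (A ^ 2 • (wmat N g (A ^ 4)⁻¹ - 1)) * Q
          = ((A ^ 2 • (wmat N g (A ^ 4)⁻¹ - 1)) * S) * extM E 1 * S' := by
        rw [hQ]
        simp only [Matrix.mul_assoc]
      have e2 : extM (0 : Matrix (FusionPath N c N) (FusionPath N c N) ℂ) 0 = 0 := by
        rw [extM, zero_smul, Matrix.fromBlocks_zero]
      rw [e1, ← SM_cupcap hA hc hgN, Matrix.mul_assoc S, extM_mul, hann, zero_mul, e2,
        Matrix.mul_zero, Matrix.zero_mul]
    have hz' : wmat N g (A ^ 4)⁻¹ * Q = Q := by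
      rw [Matrix.smul_mul] at hz
      have e1 := (smul_eq_zero.1 hz).resolve_left hA2
      rw [Matrix.sub_mul, Matrix.one_mul] at e1
      exact sub_eq_zero.1 e1
    have e1 := congrFun (congrFun hz' ⟨g, h3⟩) y
    have e2 := wmat_mulVec hgN (A ^ 4)⁻¹ (fun x => Q x y) g
    rw [gv_of_lt 0 _ h3, if_pos rfl, gv_of_lt 0 _ h4] at e2
    have e3 : (wmat N g (A ^ 4)⁻¹ * Q) ⟨g, h3⟩ y = (wmat N g (A ^ 4)⁻¹ *ᵥ fun x => Q x y) ⟨g, h3⟩ :=
      rfl
    rw [e3, e2] at e1
    exact e1
  have hsite : ∀ b : Fin n, offset k.1 b < N := by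
    intro b
    have h0 := offset_succ k.1 b.2
    have h3 := offset_le k.1 (b + 1)
    have h4 := k.2
    have h5 := hk b
    have e : k.1 ⟨b, b.2⟩ = k.1 b := rfl
    omega
  have hblock : ∀ (b : Fin n) (d : ℕ) (hd : d < k.1 b) (h3 : offset k.1 b + d < N) (y : Fin N),
      Q ⟨offset k.1 b + d, h3⟩ y = Q ⟨offset k.1 b, hsite b⟩ y := by
    intro b d
    induction d with
    | zero => intro _ _ _; rfl
    | succ d ih =>
      intro hd h3 y
      rw [← ih (by omega) (by omega) y]
      exact hQconst b (offset k.1 b + d) (by omega) (by omega) (by omega) h3 y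
  set R : Matrix (Fin n) (Fin N) ℂ := fun b y => Q ⟨offset k.1 b, hsite b⟩ y with hR
  have hJR : J * R = Q := by
    ext x y
    obtain ⟨b, hb⟩ := exists_block k x.2
    have e1 := blockMat_mulVec k (fun i => R i y) x.2 hb
    rw [gv_val] at e1
    have e2 : (J * R) x y = (blockMat k ℂ *ᵥ fun i => R i y) x := rfl
    rw [e2, e1]
    have e3 := hblock b ((x : ℕ) - offset k.1 b) (by omega) (by omega) y
    have e4 : (⟨offset k.1 b + ((x : ℕ) - offset k.1 b), by omega⟩ : Fin N) = x := by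
      apply Fin.ext
      show offset k.1 b + ((x : ℕ) - offset k.1 b) = x
      omega
    rw [e4] at e3
    rw [e3]
  have hRJ : R * J = 1 := by
    ext b i
    have e1 : (R * J) b i = (Q * J) ⟨offset k.1 b, hsite b⟩ i := rfl
    rw [e1, hQJ, hJ, blockMat, Matrix.one_apply]
    have h5 := hk b
    by_cases hbi : b = i
    · subst hbi
      rw [if_pos rfl, if_pos ⟨le_rfl, by show offset k.1 b < _; omega⟩]
    · rw [if_neg hbi, if_neg]
      intro h
      exact hbi (block_unique k (x := offset k.1 b) ⟨le_rfl, by omega⟩ h)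
  apply trace_of_site hA hc (cabled k β) E J R _ _ hRJ (walk_blockMat_pure hβ k _)
  rw [hJR, hQ, Matrix.mul_assoc _ S', ← hS, h2, Matrix.mul_one]

end

end Pool.Agent.H69.AMU
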