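import Pool.Agent.H69.AMM.Out1
import Pool.Agent.H70.KR.Def

set_option autoImplicit false

/-! # The walk matrix of the full twist -/

namespace Pool.Agent.H69.AMU

open Matrix Pool.Agent.H70.KR

lemma desc_succ_left {G : Type} [Group G] (s : ℕ → G) (m k : ℕ) :
    desc s m (k + 1) = s (m + k) * desc s m k := by
  induction k generalizing m with
  | zero => simp [desc]
  | succ k ih => rw [desc, ih (m + 1), desc, mul_assoc, show m + 1 + k = m + (k + 1) by omega]

section
variable {n : ℕ} {K : Type} [CommRing K]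

/-- The formula for the half twist. -/
def AA (p : ℕ → K) (f : ℕ → K) (m i : ℕ) : K :=
  ∑ j ∈ Finset.range i, (p j - p (j + 1)) * f (m - j) + p i * f (m - i)

lemma AA_congr {p p' f f' : ℕ → K} {m m' i : ℕ} (hp : ∀ j, j ≤ i → p j = p' j)
    (hf : ∀ j, j ≤ i → f (m - j) = f' (m' - j)) : AA p f m i = AA p' f' m' i := by
  unfold AA
  congr 1
  · apply Finset.sum_congr rfl
    intro j hj
    rw [Finset.mem_range] at hj
    rw [hp j (by omega), hp (j + 1) (by omega), hf j (by omega)]
  · rw [hp i le_rfl, hf i le_rfl]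

lemma AA_diff (p f : ℕ → K) (m i : ℕ) :
    AA p f m (i + 1) - AA p f m i = p (i + 1) * (f (m - (i + 1)) - f (m - i)) := by
  unfold AA
  rw [Finset.sum_range_succ]
  ring

/-- Partial products of the colours. -/
def PS (s : Fin n → Kˣ) (j : ℕ) : K := ∏ l ∈ Finset.range j, ((gv 1 s l : Kˣ) : K)

lemma walk_gen_col {g : ℕ} (hg : g < n - 1) (c : Fin n → Kˣ) (F : Fin n → K) (j : ℕ) :
    gv 0 ((walkU (gen n g) c).val *ᵥ F) j = if j = g then gv 0 F (g + 1)
      else if j = g + 1 then ((gv 1 c g : Kˣ) : K) * gv 0 F g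
        + (1 - ((gv 1 c g : Kˣ) : K)) * gv 0 F (g + 1) else gv 0 F j := by
  rw [walkU_gen hg]
  exact wmat_mulVec hg _ F j

/-- The strand at position `k` moves to the left over all others. -/
lemma walk_desc (k : ℕ) (hk : k ≤ n - 1) (c : Fin n → Kˣ) (f : Fin n → K) (i : ℕ) :
    gv 0 ((walkU (desc (gen n) 0 k) c).val *ᵥ f) i =
      if i < k then gv 0 f (i + 1)
      else if i = k then AA (fun j => ∏ l ∈ Finset.range j, ((gv 1 c (k - 1 - l) : Kˣ) : K))
        (gv 0 f) k k
      else gv 0 f i := by
  induction k generalizing c i with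
  | zero =>
    have e : desc (gen n) 0 0 = 1 := rfl
    rw [e, walkU_one, Units.val_one, Matrix.one_mulVec]
    by_cases h : i = 0
    · rw [if_neg (by omega), if_pos h, h, AA]
      simp
    · rw [if_neg (by omega), if_neg h]
  | succ k ih =>
    have hk' : k < n - 1 := by omega
    have hp : permHom n (gen n k) = adj n k hk' := permHom_gen hk'
    rw [desc_succ_left, Nat.zero_add, walkU_mul, Units.val_mul, ← Matrix.mulVec_mulVec,
      walk_gen_col hk', ih (by omega), ih (by omega), ih (by omega), hp]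
    by_cases h1 : i = k
    · rw [if_pos h1, if_neg (by omega), if_neg (by omega), if_pos (by omega), h1]
    · by_cases h2 : i = k + 1
      · rw [if_neg h1, if_pos h2, if_neg (by omega), if_pos rfl, if_neg (by omega),
          if_neg (by omega), if_neg (by omega), if_pos h2]
        -- the main case
        have e1 : AA (fun j => ∏ l ∈ Finset.range j,
            ((gv 1 (c ∘ adj n k hk') (k - 1 - l) : Kˣ) : K)) (gv 0 f) k k
            = AA (fun j => ∏ l ∈ Finset.range j, ((gv 1 c (k - 1 - l) : Kˣ) : K)) (gv 0 f) k k := by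
          apply AA_congr
          · intro j hj
            apply Finset.prod_congr rfl
            intro l hl
            rw [Finset.mem_range] at hl
            rw [gv_adj, if_neg (by omega), if_neg (by omega)]
          · intro j _
            rfl
        rw [e1]
        unfold AA
        have e2 : ∀ j, ∏ l ∈ Finset.range (j + 1), ((gv 1 c (k + 1 - 1 - l) : Kˣ) : K)
            = ((gv 1 c k : Kˣ) : K) * ∏ l ∈ Finset.range j, ((gv 1 c (k - 1 - l) : Kˣ) : K) := by
          intro j
          rw [Finset.prod_range_succ', mul_comm, Nat.add_sub_cancel, Nat.sub_zero]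
          congr 1
          apply Finset.prod_congr rfl
          intro l _
          rw [show k - (l + 1) = k - 1 - l by omega]
        rw [Finset.sum_range_succ' _ k]
        simp only [e2]
        have e3 : ∀ j, k + 1 - (j + 1) = k - j := fun j => by omega
        simp only [e3]
        simp only [Finset.range_zero, Finset.prod_empty, Nat.sub_zero, Nat.sub_self]
        rw [mul_add, Finset.mul_sum]
        have e4 : ∀ j ∈ Finset.range k,
            (((gv 1 c k : Kˣ) : K) * ∏ l ∈ Finset.range j, ((gv 1 c (k - 1 - l) : Kˣ) : K)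
              - ((gv 1 c k : Kˣ) : K) * ∏ l ∈ Finset.range (j + 1), ((gv 1 c (k - 1 - l) : Kˣ) : K))
              * gv 0 f (k - j)
            = ((gv 1 c k : Kˣ) : K) * ((∏ l ∈ Finset.range j, ((gv 1 c (k - 1 - l) : Kˣ) : K)
              - ∏ l ∈ Finset.range (j + 1), ((gv 1 c (k - 1 - l) : Kˣ) : K)) * gv 0 f (k - j)) := by
          intro j _
          ring
        rw [Finset.sum_congr rfl e4]
        ring
      · rw [if_neg h1, if_neg h2]
        by_cases h3 : i < k
        · rw [if_pos h3, if_pos (by omega)]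
        · rw [if_neg h3, if_neg h1, if_neg (by omega), if_neg h2]

/-- The colours after the strand at position `k` has moved to the left. -/
lemma colour_desc {C : Type} (d : C) (k : ℕ) (hk : k ≤ n - 1) (c : Fin n → C) (j : ℕ) :
    gv d (c ∘ permHom n (desc (gen n) 0 k)) j =
      if j = 0 then gv d c k else if j ≤ k then gv d c (j - 1) else gv d c j := by
  induction k generalizing c j with
  | zero =>
    have e : desc (gen n) 0 0 = 1 := rfl
    rw [e, map_one]
    have e2 : c ∘ ((1 : Equiv.Perm (Fin n)) : Fin n → Fin n) = c := rfl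
    rw [e2]
    by_cases h : j = 0
    · rw [if_pos h, h]
    · rw [if_neg h, if_neg (by omega)]
  | succ k ih =>
    have hk' : k < n - 1 := by omega
    have hp : permHom n (gen n k) = adj n k hk' := permHom_gen hk'
    rw [desc_succ_left, Nat.zero_add, map_mul, hp]
    have e : c ∘ ((adj n k hk' * permHom n (desc (gen n) 0 k) : Equiv.Perm (Fin n)) : Fin n → Fin n)
        = (c ∘ adj n k hk') ∘ permHom n (desc (gen n) 0 k) := rfl
    rw [e, ih (by omega), gv_adj, gv_adj, gv_adj]
    by_cases h0 : j = 0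
    · rw [if_pos h0, if_pos rfl, if_pos h0]
    · by_cases h1 : j ≤ k
      · rw [if_neg h0, if_pos h1, if_neg (by omega), if_neg (by omega), if_neg h0,
          if_pos (by omega)]
      · by_cases h2 : j = k + 1
        · rw [if_neg h0, if_neg h1, if_neg (by omega), if_pos h2, if_neg h0, if_pos (by omega), h2,
            Nat.add_sub_cancel]
        · rw [if_neg h0, if_neg h1, if_neg (by omega), if_neg h2, if_neg h0, if_neg (by omega)]

/-- The colours after the half twist. -/
lemma colour_Dl {C : Type} (d : C) (m : ℕ) (hm : m ≤ n - 1) (s : Fin n → C) (j : ℕ) :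
    gv d (s ∘ permHom n (Dl n m)) j = if j ≤ m then gv d s (m - j) else gv d s j := by
  induction m generalizing j with
  | zero =>
    have e : Dl n 0 = 1 := rfl
    rw [e, map_one]
    have e2 : s ∘ ((1 : Equiv.Perm (Fin n)) : Fin n → Fin n) = s := rfl
    rw [e2]
    by_cases h : j ≤ 0
    · rw [if_pos h, Nat.zero_sub]
      congr 1
      omega
    · rw [if_neg h]
  | succ m ih =>
    rw [Dl, map_mul]
    have e : s ∘ ((permHom n (Dl n m) * permHom n (desc (gen n) 0 (m + 1)) : Equiv.Perm (Fin n)) :
        Fin n → Fin n) = (s ∘ permHom n (Dl n m)) ∘ permHom n (desc (gen n) 0 (m + 1)) := rfl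
    rw [e, colour_desc d (m + 1) (by omega), ih (by omega), ih (by omega), ih (by omega)]
    by_cases h0 : j = 0
    · rw [if_pos h0, if_neg (by omega), if_pos (by omega), h0, Nat.sub_zero]
    · by_cases h1 : j ≤ m + 1
      · rw [if_neg h0, if_pos h1, if_pos (by omega), if_pos h1]
        congr 1
        omega
      · rw [if_neg h0, if_neg h1, if_neg (by omega), if_neg h1]

/-- The walk matrix of the half twist. -/
lemma walk_Dl (m : ℕ) (hm : m ≤ n - 1) (s : Fin n → Kˣ) (f : Fin n → K) (i : ℕ) :
    gv 0 ((walkU (Dl n m) s).val *ᵥ f) i =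
      if i ≤ m then AA (PS s) (gv 0 f) m i else gv 0 f i := by
  induction m generalizing f i with
  | zero =>
    have e : Dl n 0 = 1 := rfl
    rw [e, walkU_one, Units.val_one, Matrix.one_mulVec]
    by_cases h : i ≤ 0
    · have h' : i = 0 := by omega
      rw [if_pos h, h', AA, PS]
      simp
    · rw [if_neg h]
  | succ m ih =>
    rw [Dl, walkU_mul, Units.val_mul, ← Matrix.mulVec_mulVec, ih (by omega)]
    have hd := fun i => walk_desc (m + 1) (by omega) (s ∘ permHom n (Dl n m)) f i
    by_cases h1 : i ≤ m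
    · rw [if_pos h1, if_pos (by omega)]
      apply AA_congr
      · intro j _
        rfl
      · intro j hj
        rw [hd, if_pos (by omega)]
        congr 1
        omega
    · by_cases h2 : i = m + 1
      · rw [if_neg h1, hd, if_neg (by omega), if_pos h2, if_pos (by omega), h2]
        apply AA_congr
        · intro j hj
          apply Finset.prod_congr rfl
          intro l hl
          rw [Finset.mem_range] at hl
          rw [colour_Dl 1 m (by omega), if_pos (by omega)]
          congr 3
          omega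
        · intro j _
          rfl
      · rw [if_neg h1, hd, if_neg (by omega), if_neg h2, if_neg (by omega)]

/-- The full twist multiplies differences by the product of all colours. -/
lemma walk_th_diff (s : Fin n → Kˣ) (f : Fin n → K) {i : ℕ} (hi : i + 1 < n) :
    gv 0 ((walkU (th n) s).val *ᵥ f) (i + 1) - gv 0 ((walkU (th n) s).val *ᵥ f) i
      = (∏ j, (s j : K)) * (gv 0 f (i + 1) - gv 0 f i) := by
  have e : th n = Dl n (n - 1) * Dl n (n - 1) := rfl
  set s' := s ∘ permHom n (Dl n (n - 1)) with hs'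
  have h1 : (walkU (th n) s).val *ᵥ f
      = (walkU (Dl n (n - 1)) s).val *ᵥ ((walkU (Dl n (n - 1)) s').val *ᵥ f) := by
    rw [e, walkU_mul, Units.val_mul, ← Matrix.mulVec_mulVec]
  generalize hG : (walkU (Dl n (n - 1)) s').val *ᵥ f = G at h1
  rw [h1, walk_Dl (n - 1) le_rfl, walk_Dl (n - 1) le_rfl, if_pos (by omega), if_pos (by omega),
    AA_diff]
  have h2 : gv 0 G (n - 1 - (i + 1)) - gv 0 G (n - 1 - i)
      = - (PS s' (n - 1 - (i + 1) + 1) * (gv 0 f i - gv 0 f (i + 1))) := by
    have e1 : n - 1 - i = n - 1 - (i + 1) + 1 := by omega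
    have e2 := AA_diff (PS s') (gv 0 f) (n - 1) (n - 1 - (i + 1))
    have e3 : n - 1 - (n - 1 - (i + 1) + 1) = i := by omega
    have e4 : n - 1 - (n - 1 - (i + 1)) = i + 1 := by omega
    rw [e3, e4] at e2
    rw [← hG, e1, walk_Dl (n - 1) le_rfl, walk_Dl (n - 1) le_rfl, if_pos (by omega),
      if_pos (by omega), ← e2]
    ring
  rw [h2]
  have h3 : PS s (i + 1) * PS s' (n - 1 - (i + 1) + 1) = ∏ j, (s j : K) := by
    have e1 : ∏ j, (s j : K) = ∏ l ∈ Finset.range n, ((gv 1 s l : Kˣ) : K) := by
      rw [← Fin.prod_univ_eq_prod_range (fun l => ((gv 1 s l : Kˣ) : K)) n]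
      apply Finset.prod_congr rfl
      intro j _
      rw [gv_val]
    have e2 : PS s' (n - 1 - (i + 1) + 1)
        = ∏ l ∈ Finset.range (n - (i + 1)), ((gv 1 s (i + 1 + l) : Kˣ) : K) := by
      rw [PS, show n - 1 - (i + 1) + 1 = n - (i + 1) by omega, ← Finset.prod_range_reflect]
      apply Finset.prod_congr rfl
      intro l hl
      rw [Finset.mem_range] at hl
      rw [hs', colour_Dl 1 (n - 1) le_rfl, if_pos (by omega)]
      congr 2
      omega
    rw [e1, e2, PS, ← Finset.prod_range_add, show i + 1 + (n - (i + 1)) = n by omega]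
  rw [← h3]
  ring

/-- The matrices `c + 1 ⊗ L`. -/
def TwoType (c : K) (M : Matrix (Fin n) (Fin n) K) : Prop :=
  ∃ L : Fin n → K, M = c • (1 : Matrix (Fin n) (Fin n) K) + Matrix.of (fun _ j => L j)

lemma twoType_th (hn : 0 < n) (s : Fin n → Kˣ) :
    TwoType (∏ j, (s j : K)) (walkU (th n) s).val := by
  set T := (walkU (th n) s).val with hT
  set S : K := ∏ j, (s j : K) with hS
  refine ⟨fun j => T ⟨0, hn⟩ j - (S • (1 : Matrix (Fin n) (Fin n) K)) ⟨0, hn⟩ j, ?_⟩
  ext x y
  rw [Matrix.add_apply, Matrix.of_apply]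
  -- all rows of the difference are equal
  have key : ∀ i (hi : i < n), T ⟨i, hi⟩ y - (S • (1 : Matrix (Fin n) (Fin n) K)) ⟨i, hi⟩ y
      = T ⟨0, hn⟩ y - (S • (1 : Matrix (Fin n) (Fin n) K)) ⟨0, hn⟩ y := by
    intro i
    induction i with
    | zero => intro _; rfl
    | succ i ih =>
      intro hi
      have hi' : i < n := by omega
      rw [← ih hi']
      have h1 := walk_th_diff s (Pi.single y 1) hi
      rw [gv_of_lt 0 _ hi, gv_of_lt 0 _ hi', gv_of_lt 0 _ hi, gv_of_lt 0 _ hi'] at h1
      rw [← hT, ← hS, Matrix.mulVec_single_one] at h1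
      have e1 : ∀ x, (S • (1 : Matrix (Fin n) (Fin n) K)) x y = S * (Pi.single y (1 : K) : Fin n → K) x := by
        intro x
        rw [Matrix.smul_apply, smul_eq_mul, Matrix.one_apply, Pi.single_apply]
      rw [e1, e1]
      have h2 : T ⟨i + 1, hi⟩ y - T ⟨i, hi'⟩ y
          = S * ((Pi.single y (1 : K) : Fin n → K) ⟨i + 1, hi⟩ - (Pi.single y (1 : K) : Fin n → K) ⟨i, hi'⟩) := h1
      linear_combination h2
  have h1 := key x x.2
  show T x y = (S • (1 : Matrix (Fin n) (Fin n) K)) x y
    + (T ⟨0, hn⟩ y - (S • (1 : Matrix (Fin n) (Fin n) K)) ⟨0, hn⟩ y)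
  rw [← h1]
  ring

lemma TwoType.mul {c c' : K} {M M' : Matrix (Fin n) (Fin n) K} (h : TwoType c M)
    (h' : TwoType c' M') : TwoType (c * c') (M * M') := by
  obtain ⟨L, rfl⟩ := h
  obtain ⟨L', rfl⟩ := h'
  refine ⟨fun j => c * L' j + c' * L j + (∑ i, L i) * L' j, ?_⟩
  ext x y
  rw [Matrix.mul_apply]
  simp only [Matrix.add_apply, Matrix.smul_apply, Matrix.one_apply, Matrix.of_apply, smul_eq_mul]
  have e : ∀ z : Fin n, (c * (if x = z then 1 else 0) + L z) * (c' * (if z = y then 1 else 0) + L' y)
      = (if x = z then c * (c' * (if z = y then 1 else 0) + L' y) else 0)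
        + (if z = y then c' * L z else 0) + L z * L' y := by
    intro z
    split_ifs <;> ring
  rw [Finset.sum_congr rfl fun z _ => e z, Finset.sum_add_distrib, Finset.sum_add_distrib,
    Finset.sum_ite_eq, Finset.sum_ite_eq', if_pos (Finset.mem_univ _), if_pos (Finset.mem_univ _),
    ← Finset.sum_mul]
  ring

lemma TwoType.inv {c : Kˣ} {M : GL (Fin n) K} (h : TwoType (c : K) M.val) :
    TwoType ((c⁻¹ : Kˣ) : K) (M⁻¹).val := by
  obtain ⟨L, hL⟩ := h
  refine ⟨fun j => - ((c⁻¹ : Kˣ) : K) * ∑ i, L i * (M⁻¹).val i j, ?_⟩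
  have h1 : M.val * (M⁻¹).val = 1 := by rw [← Units.val_mul, mul_inv_cancel, Units.val_one]
  rw [hL, Matrix.add_mul, Matrix.smul_mul, Matrix.one_mul] at h1
  have hc : ((c⁻¹ : Kˣ) : K) * (c : K) = 1 := by
    rw [← Units.val_mul, inv_mul_cancel, Units.val_one]
  ext x y
  have h2 := congrFun (congrFun h1 x) y
  rw [Matrix.add_apply, Matrix.smul_apply, smul_eq_mul, Matrix.mul_apply] at h2
  simp only [Matrix.of_apply] at h2
  rw [Matrix.add_apply, Matrix.smul_apply, smul_eq_mul, Matrix.of_apply, ← h2]
  linear_combination -((M⁻¹).val x y) * hc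

lemma twoType_one : TwoType (1 : K) (1 : Matrix (Fin n) (Fin n) K) :=
  ⟨0, by ext x y; simp⟩

lemma perm_th (n : ℕ) : th n ∈ pureBraid n := by
  show permHom n (th n) = 1
  apply Equiv.ext
  intro x
  apply Fin.ext
  have h1 := colour_Dl (0 : ℕ) (n - 1) le_rfl (fun i : Fin n => (i : ℕ))
  have e1 : ∀ y : Fin n, ((permHom n (Dl n (n - 1)) y : Fin n) : ℕ) = n - 1 - y := by
    intro y
    have h2 := h1 y
    rw [gv_val, if_pos (by omega), gv_of_lt 0 _ (by omega)] at h2
    exact h2
  have e2 : permHom n (th n) x = permHom n (Dl n (n - 1)) (permHom n (Dl n (n - 1)) x) := by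
    have : th n = Dl n (n - 1) * Dl n (n - 1) := rfl
    rw [this, map_mul]
    rfl
  rw [e2, e1, e1, Equiv.Perm.one_apply]
  omega

/-- The product of the colours. -/
def colProd (s : Fin n → Kˣ) : Kˣ := ∏ j, s j

lemma twoType_th_zpow (hn : 0 < n) (s : Fin n → Kˣ) (z : ℤ) :
    TwoType ((colProd s ^ z : Kˣ) : K) (walkU (th n ^ z) s).val := by
  have h0 : TwoType ((colProd s : Kˣ) : K) (walkU (th n) s).val := by
    have h1 := twoType_th hn s
    have h2 : ∏ j, (s j : K) = ((colProd s : Kˣ) : K) := by
      rw [colProd, Units.coe_prod]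
    rwa [h2] at h1
  have hth := perm_th n
  have hinv : walkU (th n)⁻¹ s = (walkU (th n) s)⁻¹ := by
    have h1 := walkU_mul_pure (Subgroup.inv_mem _ hth) (th n) s
    rw [inv_mul_cancel, walkU_one] at h1
    exact eq_inv_of_mul_eq_one_left h1.symm
  have hpos : ∀ m : ℕ, TwoType ((colProd s ^ m : Kˣ) : K) (walkU (th n ^ m) s).val := by
    intro m
    induction m with
    | zero => rw [pow_zero, pow_zero, walkU_one, Units.val_one, Units.val_one]; exact twoType_one
    | succ m ih =>
      rw [pow_succ, pow_succ, walkU_mul_pure (Subgroup.pow_mem _ hth m), Units.val_mul,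
        Units.val_mul]
      exact ih.mul h0
  have hneg : ∀ m : ℕ, TwoType (((colProd s)⁻¹ ^ m : Kˣ) : K) (walkU ((th n)⁻¹ ^ m) s).val := by
    have h1 : TwoType (((colProd s)⁻¹ : Kˣ) : K) (walkU (th n)⁻¹ s).val := by
      rw [hinv]
      exact h0.inv
    intro m
    induction m with
    | zero => rw [pow_zero, pow_zero, walkU_one, Units.val_one, Units.val_one]; exact twoType_one
    | succ m ih =>
      rw [pow_succ, pow_succ, walkU_mul_pure (Subgroup.pow_mem _ (Subgroup.inv_mem _ hth) m),
        Units.val_mul, Units.val_mul]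
      exact ih.mul h1
  rcases z with m | m
  · rw [Int.ofNat_eq_natCast, zpow_natCast, zpow_natCast]
    exact hpos m
  · have e1 : ∀ {G : Type} [Group G] (g : G), g ^ (Int.negSucc m) = g⁻¹ ^ (m + 1) := by
      intro G _ g
      rw [zpow_negSucc, inv_pow]
    rw [e1, e1]
    exact hneg (m + 1)

end

end Pool.Agent.H69.AMU
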