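import Pool.Agent.H69.AMM.Cable

set_option autoImplicit false

/-! # Coloured walk matrices (coloured unreduced Burau matrices) -/

namespace Pool.Agent.H69.AMU

open Matrix

/-- Value of a function on `Fin n` at a natural number (`d` outside). -/
def gv {n : ℕ} {α : Type} (d : α) (f : Fin n → α) (j : ℕ) : α := if h : j < n then f ⟨j, h⟩ else d

lemma gv_of_lt {n : ℕ} {α : Type} (d : α) (f : Fin n → α) {j : ℕ} (h : j < n) :
    gv d f j = f ⟨j, h⟩ := by
  rw [gv, dif_pos h]

lemma gv_val {n : ℕ} {α : Type} (d : α) (f : Fin n → α) (j : Fin n) : gv d f j = f j := by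
  rw [gv_of_lt d f j.2]

lemma gv_adj {n : ℕ} {α : Type} (d : α) (f : Fin n → α) {i : ℕ} (hi : i < n - 1) (j : ℕ) :
    gv d (f ∘ adj n i hi) j = if j = i then gv d f (i + 1) else if j = i + 1 then gv d f i
      else gv d f j := by
  by_cases hj : j < n
  · rw [gv_of_lt d _ hj]
    have e : (adj n i hi ⟨j, hj⟩ : ℕ) = if j = i then i + 1 else if j = i + 1 then i else j :=
      adj_val hi ⟨j, hj⟩
    have e2 : (f ∘ adj n i hi) ⟨j, hj⟩ = gv d f (adj n i hi ⟨j, hj⟩ : ℕ) := by
      rw [gv_val]
      rfl
    rw [e2, e]
    split_ifs <;> rfl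
  · rw [if_neg (by omega), if_neg (by omega), gv, gv, dif_neg hj, dif_neg hj]

section
variable {n : ℕ} {K : Type} [CommRing K]

/-- The walk matrix at the places `i`, `i + 1` with weight `a` (and `b` for the other direction). -/
def wmat (n i : ℕ) (a : K) : Matrix (Fin n) (Fin n) K := fun r c =>
  if (r : ℕ) = i then (if (c : ℕ) = i + 1 then 1 else 0)
  else if (r : ℕ) = i + 1 then (if (c : ℕ) = i then a else if (c : ℕ) = i + 1 then 1 - a else 0)
  else if r = c then 1 else 0

/-- The inverse of the walk matrix if `a * b = 1`. -/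
def wmatInv (n i : ℕ) (b : K) : Matrix (Fin n) (Fin n) K := fun r c =>
  if (r : ℕ) = i then (if (c : ℕ) = i then 1 - b else if (c : ℕ) = i + 1 then b else 0)
  else if (r : ℕ) = i + 1 then (if (c : ℕ) = i then 1 else 0)
  else if r = c then 1 else 0

lemma sum_ite_val {i : ℕ} (hi : i < n) (f : Fin n → K) :
    ∑ c : Fin n, (if (c : ℕ) = i then f c else 0) = f ⟨i, hi⟩ := by
  rw [Finset.sum_eq_single ⟨i, hi⟩]
  · simp
  · intro c _ hc
    rw [if_neg]
    intro h
    exact hc (Fin.ext h)
  · intro h
    exact absurd (Finset.mem_univ _) h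

lemma wmat_mulVec {i : ℕ} (hi : i < n - 1) (a : K) (f : Fin n → K) (j : ℕ) :
    gv 0 (wmat n i a *ᵥ f) j = if j = i then gv 0 f (i + 1)
      else if j = i + 1 then a * gv 0 f i + (1 - a) * gv 0 f (i + 1) else gv 0 f j := by
  have hi0 : i < n := by omega
  have hi1 : i + 1 < n := by omega
  by_cases hj : j < n
  · rw [gv_of_lt 0 _ hj, Matrix.mulVec, dotProduct]
    by_cases h1 : j = i
    · rw [if_pos h1]
      have e : ∀ c : Fin n, wmat n i a ⟨j, hj⟩ c * f c = if (c : ℕ) = i + 1 then f c else 0 := by
        intro c
        rw [wmat, if_pos h1]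
        split_ifs <;> ring
      rw [Finset.sum_congr rfl fun c _ => e c, sum_ite_val hi1, gv_of_lt 0 f hi1]
    · by_cases h2 : j = i + 1
      · rw [if_neg h1, if_pos h2]
        have e : ∀ c : Fin n, wmat n i a ⟨j, hj⟩ c * f c
            = (if (c : ℕ) = i then a * f c else 0) + (if (c : ℕ) = i + 1 then (1 - a) * f c else 0) := by
          intro c
          rw [wmat, if_neg h1, if_pos h2]
          by_cases h3 : (c : ℕ) = i
          · rw [if_pos h3, if_pos h3, if_neg (by omega)]
            ring
          · rw [if_neg h3, if_neg h3]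
            split_ifs <;> ring
        rw [Finset.sum_congr rfl fun c _ => e c, Finset.sum_add_distrib, sum_ite_val hi0,
          sum_ite_val hi1, gv_of_lt 0 f hi1, gv_of_lt 0 f hi0]
      · rw [if_neg h1, if_neg h2]
        have e : ∀ c : Fin n, wmat n i a ⟨j, hj⟩ c * f c = if (c : ℕ) = j then f c else 0 := by
          intro c
          rw [wmat, if_neg h1, if_neg h2]
          by_cases h3 : (c : ℕ) = j
          · rw [if_pos h3, if_pos (Fin.ext h3.symm), one_mul]
          · rw [if_neg h3, if_neg, zero_mul]
            rintro rfl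
            exact h3 rfl
        rw [Finset.sum_congr rfl fun c _ => e c, sum_ite_val hj, gv_of_lt 0 f hj]
  · rw [if_neg (by omega), if_neg (by omega), gv, gv, dif_neg hj, dif_neg hj]

lemma wmatInv_mulVec {i : ℕ} (hi : i < n - 1) (b : K) (f : Fin n → K) (j : ℕ) :
    gv 0 (wmatInv n i b *ᵥ f) j = if j = i then (1 - b) * gv 0 f i + b * gv 0 f (i + 1)
      else if j = i + 1 then gv 0 f i else gv 0 f j := by
  have hi0 : i < n := by omega
  have hi1 : i + 1 < n := by omega
  by_cases hj : j < n
  · rw [gv_of_lt 0 _ hj, Matrix.mulVec, dotProduct]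
    by_cases h1 : j = i
    · rw [if_pos h1]
      have e : ∀ c : Fin n, wmatInv n i b ⟨j, hj⟩ c * f c
          = (if (c : ℕ) = i then (1 - b) * f c else 0) + (if (c : ℕ) = i + 1 then b * f c else 0) := by
        intro c
        rw [wmatInv, if_pos h1]
        by_cases h3 : (c : ℕ) = i
        · rw [if_pos h3, if_pos h3, if_neg (by omega)]
          ring
        · rw [if_neg h3, if_neg h3]
          split_ifs <;> ring
      rw [Finset.sum_congr rfl fun c _ => e c, Finset.sum_add_distrib, sum_ite_val hi0,
        sum_ite_val hi1, gv_of_lt 0 f hi1, gv_of_lt 0 f hi0]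
    · by_cases h2 : j = i + 1
      · rw [if_neg h1, if_pos h2]
        have e : ∀ c : Fin n, wmatInv n i b ⟨j, hj⟩ c * f c = if (c : ℕ) = i then f c else 0 := by
          intro c
          rw [wmatInv, if_neg h1, if_pos h2]
          split_ifs <;> ring
        rw [Finset.sum_congr rfl fun c _ => e c, sum_ite_val hi0, gv_of_lt 0 f hi0]
      · rw [if_neg h1, if_neg h2]
        have e : ∀ c : Fin n, wmatInv n i b ⟨j, hj⟩ c * f c = if (c : ℕ) = j then f c else 0 := by
          intro c
          rw [wmatInv, if_neg h1, if_neg h2]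
          by_cases h3 : (c : ℕ) = j
          · rw [if_pos h3, if_pos (Fin.ext h3.symm), one_mul]
          · rw [if_neg h3, if_neg, zero_mul]
            rintro rfl
            exact h3 rfl
        rw [Finset.sum_congr rfl fun c _ => e c, sum_ite_val hj, gv_of_lt 0 f hj]
  · rw [if_neg (by omega), if_neg (by omega), gv, gv, dif_neg hj, dif_neg hj]

/-- Matrices are determined by their values. -/
lemma ext_gv {M M' : Matrix (Fin n) (Fin n) K}
    (h : ∀ (f : Fin n → K) (j : ℕ), gv 0 (M *ᵥ f) j = gv 0 (M' *ᵥ f) j) : M = M' := by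
  apply Matrix.ext_of_mulVec_single
  intro c
  funext r
  have h1 := h (Pi.single c 1) r
  rwa [gv_val, gv_val] at h1

lemma wmat_mul_inv {i : ℕ} (hi : i < n - 1) {a b : K} (hab : a * b = 1) :
    wmat n i a * wmatInv n i b = 1 := by
  apply ext_gv
  intro f j
  rw [← Matrix.mulVec_mulVec, Matrix.one_mulVec, wmat_mulVec hi, wmatInv_mulVec hi,
    wmatInv_mulVec hi, wmatInv_mulVec hi]
  by_cases h1 : j = i
  · subst h1
    rw [if_pos rfl, if_neg (by omega), if_pos rfl]
  · by_cases h2 : j = i + 1
    · subst h2
      rw [if_neg (by omega), if_pos rfl, if_pos rfl, if_neg (by omega), if_pos rfl]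
      linear_combination (gv 0 f (i + 1) - gv 0 f i) * hab
    · rw [if_neg h1, if_neg h2, if_neg h1, if_neg h2]

lemma wmatInv_mul {i : ℕ} (hi : i < n - 1) {a b : K} (hab : a * b = 1) :
    wmatInv n i b * wmat n i a = 1 := by
  apply ext_gv
  intro f j
  rw [← Matrix.mulVec_mulVec, Matrix.one_mulVec, wmatInv_mulVec hi, wmat_mulVec hi,
    wmat_mulVec hi, wmat_mulVec hi]
  by_cases h1 : j = i
  · subst h1
    rw [if_pos rfl, if_pos rfl, if_neg (by omega), if_pos rfl]
    linear_combination (gv 0 f j - gv 0 f (j + 1)) * hab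
  · by_cases h2 : j = i + 1
    · subst h2
      rw [if_neg (by omega), if_pos rfl, if_pos rfl]
    · rw [if_neg h1, if_neg h2, if_neg h1, if_neg h2]

/-- The walk matrix as an invertible matrix. -/
def wunit (n i : ℕ) (hi : i < n - 1) (a : Kˣ) : GL (Fin n) K where
  val := wmat n i (a : K)
  inv := wmatInv n i ((a⁻¹ : Kˣ) : K)
  val_inv := wmat_mul_inv hi (by rw [← Units.val_mul, mul_inv_cancel, Units.val_one])
  inv_val := wmatInv_mul hi (by rw [← Units.val_mul, mul_inv_cancel, Units.val_one])

end

/-- The action of permutations on functions of the colours. -/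
def colAct (n : ℕ) (C G : Type) [Group G] : Equiv.Perm (Fin n) →* MulAut ((Fin n → C) → G) where
  toFun π :=
    { toFun := fun f s => f (s ∘ π)
      invFun := fun f s => f (s ∘ (π⁻¹ : Equiv.Perm (Fin n)))
      left_inv := fun f => by
        funext s
        show f ((s ∘ (π⁻¹ : Equiv.Perm (Fin n))) ∘ π) = f s
        congr 1
        funext x
        exact congrArg s (π.symm_apply_apply x)
      right_inv := fun f => by
        funext s
        show f ((s ∘ π) ∘ (π⁻¹ : Equiv.Perm (Fin n))) = f s
        congr 1
        funext x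
        exact congrArg s (π.apply_symm_apply x)
      map_mul' := fun _ _ => rfl }
  map_one' := by
    apply MulEquiv.ext
    intro f
    rfl
  map_mul' π τ := by
    apply MulEquiv.ext
    intro f
    rfl

lemma colAct_apply {n : ℕ} {C G : Type} [Group G] (π : Equiv.Perm (Fin n))
    (f : (Fin n → C) → G) (s : Fin n → C) : colAct n C G π f s = f (s ∘ π) := rfl

/-- Functions of the colours with values in matrices, extended by permutations. -/
abbrev WalkGrp (n : ℕ) (K : Type) [CommRing K] : Type :=
  ((Fin n → Kˣ) → GL (Fin n) K) ⋊[colAct n Kˣ (GL (Fin n) K)] Equiv.Perm (Fin n)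

section
variable {n : ℕ} {K : Type} [CommRing K]

/-- The generators: the strand at position `i` with colour `s i` crosses over its right
neighbour. -/
def walkGen (n : ℕ) (K : Type) [CommRing K] (i : ℕ) : WalkGrp n K :=
  if hi : i < n - 1 then ⟨fun s => wunit n i hi (gv 1 s i), adj n i hi⟩ else 1

lemma walkGen_left {i : ℕ} (hi : i < n - 1) (s : Fin n → Kˣ) :
    (walkGen n K i).left s = wunit n i hi (gv 1 s i) := by
  rw [walkGen, dif_pos hi]

lemma walkGen_right {i : ℕ} (hi : i < n - 1) : (walkGen n K i).right = adj n i hi := by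
  rw [walkGen, dif_pos hi]

lemma artinSeq_walkGen (n : ℕ) (K : Type) [CommRing K] : ArtinSeq (walkGen n K) (n - 1) := by
  constructor
  · intro i j hij hj
    have hi : i < n - 1 := by omega
    apply SemidirectProduct.ext
    · funext s
      rw [SemidirectProduct.mul_left, SemidirectProduct.mul_left, Pi.mul_apply, Pi.mul_apply,
        colAct_apply, colAct_apply, walkGen_left hi, walkGen_left hj, walkGen_left hi,
        walkGen_left hj, walkGen_right hi, walkGen_right hj, gv_adj, gv_adj,
        if_neg (by omega), if_neg (by omega), if_neg (by omega), if_neg (by omega)]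
      apply Units.ext
      apply ext_gv
      intro f l
      show gv 0 ((wmat n i _ * wmat n j _) *ᵥ f) l = gv 0 ((wmat n j _ * wmat n i _) *ᵥ f) l
      rw [← Matrix.mulVec_mulVec, ← Matrix.mulVec_mulVec, wmat_mulVec hi, wmat_mulVec hj,
        wmat_mulVec hj, wmat_mulVec hj, wmat_mulVec hj, wmat_mulVec hi, wmat_mulVec hi,
        wmat_mulVec hi]
      by_cases h1 : l = i
      · subst h1
        rw [if_pos rfl, if_neg (by omega), if_neg (by omega), if_neg (by omega),
          if_neg (by omega), if_pos rfl]
      · by_cases h2 : l = i + 1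
        · subst h2
          rw [if_neg (by omega), if_pos rfl, if_neg (by omega), if_neg (by omega),
            if_neg (by omega), if_neg (by omega), if_neg (by omega), if_neg (by omega),
            if_neg (by omega), if_pos rfl]
        · rw [if_neg h1, if_neg h2]
          by_cases h3 : l = j
          · rw [if_pos h3, if_pos h3, if_neg (by omega), if_neg (by omega)]
          · by_cases h4 : l = j + 1
            · rw [if_neg h3, if_pos h4, if_neg h3, if_pos h4, if_neg (by omega),
                if_neg (by omega), if_neg (by omega), if_neg (by omega)]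
            · rw [if_neg h3, if_neg h4, if_neg h3, if_neg h4, if_neg h1, if_neg h2]
    · rw [SemidirectProduct.mul_right, SemidirectProduct.mul_right, walkGen_right hi,
        walkGen_right hj]
      exact adj_comm hi hj hij
  · intro i hi'
    have hi : i < n - 1 := by omega
    apply SemidirectProduct.ext
    · funext s
      have hL : (walkGen n K i * walkGen n K (i + 1) * walkGen n K i : WalkGrp n K).left s
          = wunit n i hi (gv 1 s i) * wunit n (i + 1) hi' (gv 1 s i)
            * wunit n i hi (gv 1 s (i + 1)) := by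
        rw [SemidirectProduct.mul_left, SemidirectProduct.mul_left, Pi.mul_apply, Pi.mul_apply,
          colAct_apply, colAct_apply, SemidirectProduct.mul_right, walkGen_right hi,
          walkGen_right hi', walkGen_left hi, walkGen_left hi', walkGen_left hi]
        have e1 : s ∘ (adj n i hi * adj n (i + 1) hi' : Equiv.Perm (Fin n))
            = (s ∘ adj n i hi) ∘ adj n (i + 1) hi' := rfl
        have g1 : gv 1 (s ∘ adj n i hi) (i + 1) = gv 1 s i := by
          rw [gv_adj, if_neg (by omega), if_pos rfl]
        have g2 : gv 1 ((s ∘ adj n i hi) ∘ adj n (i + 1) hi') i = gv 1 s (i + 1) := by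
          rw [gv_adj, if_neg (by omega), if_neg (by omega), gv_adj, if_pos rfl]
        rw [e1, g1, g2]
      have hR : (walkGen n K (i + 1) * walkGen n K i * walkGen n K (i + 1) : WalkGrp n K).left s
          = wunit n (i + 1) hi' (gv 1 s (i + 1)) * wunit n i hi (gv 1 s i)
            * wunit n (i + 1) hi' (gv 1 s i) := by
        rw [SemidirectProduct.mul_left, SemidirectProduct.mul_left, Pi.mul_apply, Pi.mul_apply,
          colAct_apply, colAct_apply, SemidirectProduct.mul_right, walkGen_right hi,
          walkGen_right hi', walkGen_left hi, walkGen_left hi', walkGen_left hi']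
        have e1 : s ∘ (adj n (i + 1) hi' * adj n i hi : Equiv.Perm (Fin n))
            = (s ∘ adj n (i + 1) hi') ∘ adj n i hi := rfl
        have g1 : gv 1 (s ∘ adj n (i + 1) hi') i = gv 1 s i := by
          rw [gv_adj, if_neg (by omega), if_neg (by omega)]
        have g2 : gv 1 ((s ∘ adj n (i + 1) hi') ∘ adj n i hi) (i + 1) = gv 1 s i := by
          rw [gv_adj, if_neg (by omega), if_pos rfl, g1]
        rw [e1, g1, g2]
      rw [hL, hR]
      apply Units.ext
      apply ext_gv
      intro f l
      set a : K := ((gv 1 s i : Kˣ) : K) with ha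
      set b : K := ((gv 1 s (i + 1) : Kˣ) : K) with hb
      show gv 0 ((wmat n i a * wmat n (i + 1) a * wmat n i b) *ᵥ f) l
        = gv 0 ((wmat n (i + 1) b * wmat n i a * wmat n (i + 1) a) *ᵥ f) l
      simp only [← Matrix.mulVec_mulVec, wmat_mulVec hi, wmat_mulVec hi']
      have e1 : i + 1 ≠ i := by omega
      have e2 : i + 1 + 1 ≠ i := by omega
      have e3 : i + 1 + 1 ≠ i + 1 := by omega
      have e4 : i ≠ i + 1 := by omega
      have e5 : i ≠ i + 1 + 1 := by omega
      have e6 : i + 1 ≠ i + 1 + 1 := by omega
      by_cases h1 : l = i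
      · subst h1
        simp only [if_true, if_neg e1, if_neg e2, if_neg e3, if_neg e4, if_neg e5, if_neg e6]
      · by_cases h2 : l = i + 1
        · subst h2
          simp only [if_true, if_neg e1, if_neg e2, if_neg e3, if_neg e4, if_neg e5, if_neg e6]
        · by_cases h3 : l = i + 1 + 1
          · subst h3
            simp only [if_true, if_neg e1, if_neg e2, if_neg e3, if_neg e4, if_neg e5, if_neg e6]
            ring
          · simp only [if_neg h1, if_neg h2, if_neg h3]
    · rw [SemidirectProduct.mul_right, SemidirectProduct.mul_right, SemidirectProduct.mul_right,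
        SemidirectProduct.mul_right, walkGen_right hi, walkGen_right hi']
      exact adj_braid hi hi'

/-- The coloured walk representation. -/
def walkHom (n : ℕ) (K : Type) [CommRing K] : BraidGroup n →* WalkGrp n K :=
  braidLift (artinSeq_walkGen n K)

lemma walkHom_gen {i : ℕ} (hi : i < n - 1) : walkHom n K (gen n i) = walkGen n K i :=
  braidLift_gen _ hi

lemma walkHom_right (β : BraidGroup n) : (walkHom n K β).right = permHom n β := by
  have h : (SemidirectProduct.rightHom).comp (walkHom n K) = permHom n := by
    apply PresentedGroup.ext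
    intro g
    have e1 : (PresentedGroup.of g : BraidGroup n) = gen n g := (gen_of_lt g.2).symm
    rw [e1, MonoidHom.comp_apply, walkHom_gen g.2, permHom_gen g.2]
    exact walkGen_right g.2
  exact congrArg (fun f => f β) h

/-- The walk matrix of a braid whose strands have at the start the colours `s`. -/
def walkU (β : BraidGroup n) (s : Fin n → Kˣ) : GL (Fin n) K := (walkHom n K β).left s

lemma walkU_gen {i : ℕ} (hi : i < n - 1) (s : Fin n → Kˣ) :
    walkU (gen n i) s = wunit n i hi (gv 1 s i) := by
  rw [walkU, walkHom_gen hi, walkGen_left hi]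

lemma walkU_one (s : Fin n → Kˣ) : walkU (1 : BraidGroup n) s = 1 := by
  rw [walkU, map_one]
  rfl

lemma walkU_mul (β γ : BraidGroup n) (s : Fin n → Kˣ) :
    walkU (β * γ) s = walkU β s * walkU γ (s ∘ permHom n β) := by
  rw [walkU, map_mul, SemidirectProduct.mul_left, Pi.mul_apply, colAct_apply, walkHom_right]
  rfl

lemma walkU_mul_pure {β : BraidGroup n} (hβ : β ∈ pureBraid n) (γ : BraidGroup n)
    (s : Fin n → Kˣ) : walkU (β * γ) s = walkU β s * walkU γ s := by
  have h : permHom n β = 1 := hβ
  rw [walkU_mul, h]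
  rfl

lemma walkU_inv (β : BraidGroup n) (s : Fin n → Kˣ) :
    walkU β⁻¹ s = (walkU β (s ∘ ((permHom n β)⁻¹ : Equiv.Perm (Fin n))))⁻¹ := by
  have h := walkU_mul β⁻¹ β s
  rw [inv_mul_cancel, walkU_one, map_inv] at h
  exact eq_inv_of_mul_eq_one_left h.symm

lemma walkU_pow_pure {β : BraidGroup n} (hβ : β ∈ pureBraid n) (m : ℕ) (s : Fin n → Kˣ) :
    walkU (β ^ m) s = walkU β s ^ m := by
  induction m with
  | zero => rw [pow_zero, pow_zero, walkU_one]
  | succ m ih => rw [pow_succ, walkU_mul_pure (Subgroup.pow_mem _ hβ m), ih, pow_succ]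

/-- The walk matrix. -/
def walkM (β : BraidGroup n) (s : Fin n → Kˣ) : Matrix (Fin n) (Fin n) K := (walkU β s).val

end

end Pool.Agent.H69.AMU
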