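import Pool.Agent.H69.AMM.Rigid2
import Pool.Agent.H72.AM6.Final

set_option autoImplicit false

/-! # Quantum finite braids with a positive conjugate are reducible -/

namespace Pool.Agent.H69.AMU

open Pool.Agent.H70.AG Pool.Agent.H70.KR Pool.Agent.H72.AM5 Pool.Agent.H72.AM6 Pool.Agent.H61.AMU

variable {n : ℕ}

/-- **OUT1, final form.** The diagram of a positive word whose value is conjugate to the product of
a quantum finite pure braid and a power of the full twist is rigid. -/
theorem rigid_of_word (b : pureBraid n) (hfin : QFinite b) (a : BraidGroup n) (μ : ℤ) {w : List ℕ}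
    (h : PW n w) (heq : a⁻¹ * th n ^ (-μ) * (b : BraidGroup n) * a = (w.map (gen n)).prod) :
    (ofWord h).Rigid := by
  have hn : 0 < n := by
    have := h.hn
    omega
  obtain ⟨E, _, hE⟩ := out1_conj hn b hfin a μ
  rw [heq, ← dbraid_ofWord h] at hE
  exact rigid_of_monTraces (ofWord h) hE

/-- The last step: positivity and rigidity give reducibility. -/
theorem reducible_of_positive (hn : 3 ≤ n) (b : pureBraid n) (hfin : QFinite b) (a : BraidGroup n)
    (μ : ℤ) {w : List ℕ} (hw : ∀ i ∈ w, i < n - 1)
    (heq : a⁻¹ * th n ^ (-μ) * (b : BraidGroup n) * a = (w.map (gen n)).prod)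
    (hc : ∃ p q : Fin n, p < q ∧
      Pool.Agent.H61.AMU.crossing n (a⁻¹ * th n ^ (-μ) * (b : BraidGroup n) * a) p q = 0) :
    Reducible (b : BraidGroup n) := by
  apply reducible_of_conj hn b.2 hw (perm_th n) heq
  · intro h
    exact rigid_of_word b hfin a μ h heq
  · intro h
    apply rigid_of_word b hfin (a * (Delta n)⁻¹) μ h
    rw [mir_conj hw, ← heq]
    group
  · exact hc

end Pool.Agent.H69.AMU
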